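import Mathlib

set_option autoImplicit false

/-! # Averages over residue classes, one prime at a time -/

open Finset

namespace Pool.Agent.H11.Avg

/-- product of a set of primes -/
def Q (P : Finset ℕ) : ℕ := ∏ p ∈ P, p

/-- the elements of `A` left by the primes of `P` at the shift `W * m` -/
def sv (W : ℕ) (P A : Finset ℕ) (m : ℕ) : Finset ℕ := A.filter (fun a => ∀ p ∈ P, ¬ p ∣ W * m + a)

/-- mean value over a full set of residues modulo `Q P` -/
noncomputable def av (P : Finset ℕ) (f : ℕ → ℝ) : ℝ := (∑ m ∈ range (Q P), f m) / Q P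

theorem Q_pos (P : Finset ℕ) (hP : ∀ p ∈ P, p.Prime) : 0 < Q P := prod_pos fun p hp => (hP p hp).pos

theorem av_mono (P : Finset ℕ) (f g : ℕ → ℝ) (h : ∀ m, f m ≤ g m) : av P f ≤ av P g := by
  unfold av
  gcongr with m _
  exact h m

theorem av_const (P : Finset ℕ) (hP : ∀ p ∈ P, p.Prime) (c : ℝ) : av P (fun _ => c) = c := by
  unfold av
  have h : (Q P : ℝ) ≠ 0 := by exact_mod_cast (Q_pos P hP).ne'
  rw [sum_const, card_range, nsmul_eq_mul]
  field_simp

theorem av_mul (P : Finset ℕ) (c : ℝ) (f : ℕ → ℝ) : av P (fun m => c * f m) = c * av P f := by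
  unfold av
  rw [← mul_sum, mul_div_assoc]

theorem av_nonneg (P : Finset ℕ) (f : ℕ → ℝ) (h : ∀ m, 0 ≤ f m) : 0 ≤ av P f :=
  div_nonneg (sum_nonneg fun m _ => h m) (Nat.cast_nonneg _)

theorem sum_range_mul (p q : ℕ) (F : ℕ → ℝ) :
    ∑ n ∈ range (p * q), F n = ∑ a ∈ range q, ∑ j ∈ range p, F (a + q * j) := by
  induction p with
  | zero => simp
  | succ p ih =>
    rw [Nat.succ_mul, sum_range_add, ih]
    rw [← sum_add_distrib]
    refine sum_congr rfl fun a _ => ?_
    rw [sum_range_succ]
    congr 2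
    ring

theorem one_class (p c x : ℕ) (hp : p.Prime) (hc : c.Coprime p) :
    ((range p).filter (fun j => p ∣ x + c * j)).card = 1 := by
  have := Fact.mk hp
  have hc0 : ((c : ℕ) : ZMod p) ≠ 0 := by
    intro h
    rw [ZMod.natCast_eq_zero_iff] at h
    exact hp.one_lt.ne' (Nat.eq_one_of_dvd_coprimes hc h dvd_rfl)
  rw [card_eq_one]
  refine ⟨(-(x : ZMod p) * (c : ZMod p)⁻¹).val, ?_⟩
  ext j
  rw [mem_filter, mem_range, mem_singleton]
  constructor
  · rintro ⟨h1, h2⟩
    rw [← ZMod.natCast_eq_zero_iff] at h2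
    push_cast at h2
    have h3 : (j : ZMod p) = -(x : ZMod p) * (c : ZMod p)⁻¹ := by
      field_simp
      linear_combination h2
    rw [← h3, ZMod.val_natCast, Nat.mod_eq_of_lt h1]
  · rintro rfl
    refine ⟨ZMod.val_lt _, ?_⟩
    rw [← ZMod.natCast_eq_zero_iff]
    push_cast
    rw [ZMod.natCast_zmod_val]
    field_simp
    ring

/-- the elements of `S` hit by `p` at the shift `W * m` -/
def hit (W p : ℕ) (S : Finset ℕ) (m : ℕ) : Finset ℕ := S.filter (fun a => p ∣ W * m + a)

theorem sum_hit (W p q : ℕ) (hp : p.Prime) (hc : (W * q).Coprime p) (S : Finset ℕ) (a : ℕ) :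
    ∑ j ∈ range p, ((hit W p S (a + q * j)).card : ℝ) = S.card := by
  have h : ∑ j ∈ range p, (hit W p S (a + q * j)).card = S.card := by
    unfold hit
    simp_rw [card_filter]
    rw [sum_comm]
    rw [card_eq_sum_ones]
    refine sum_congr rfl fun b _ => ?_
    rw [← card_filter]
    have := one_class p (W * q) (W * a + b) hp hc
    rw [← this]
    congr 1
    refine filter_congr fun j _ => ?_
    have : W * (a + q * j) + b = W * a + b + W * q * j := by ring
    rw [this]
  exact_mod_cast h

theorem sv_insert (W p : ℕ) (P A : Finset ℕ) (m : ℕ) :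
    (sv W (insert p P) A m).card + (hit W p (sv W P A m) m).card = (sv W P A m).card := by
  unfold sv hit
  rw [filter_filter, ← card_union_of_disjoint]
  · congr 1
    ext a
    simp only [mem_union, mem_filter, mem_insert]
    constructor
    · rintro (⟨h1, h2⟩ | ⟨h1, h2, h3⟩)
      · exact ⟨h1, fun p' hp' => h2 p' (Or.inr hp')⟩
      · exact ⟨h1, h2⟩
    · rintro ⟨h1, h2⟩
      by_cases h : p ∣ W * m + a
      · exact Or.inr ⟨h1, h2, h⟩
      · refine Or.inl ⟨h1, ?_⟩
        rintro p' (rfl | hp')
        · exact h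
        · exact h2 p' hp'
  · rw [disjoint_left]
    intro a h1 h2
    simp only [mem_filter, mem_insert] at h1 h2
    exact h1.2 p (Or.inl rfl) h2.2.2

theorem sv_period (W : ℕ) (P A : Finset ℕ) (a j : ℕ) : sv W P A (a + Q P * j) = sv W P A a := by
  unfold sv
  refine filter_congr fun b _ => ?_
  refine forall₂_congr fun p hp => ?_
  have h1 : p ∣ W * (Q P * j) := ((dvd_prod_of_mem _ hp).mul_right j).mul_left W
  have h2 : W * (a + Q P * j) + b = W * (Q P * j) + (W * a + b) := by ring
  rw [h2, Nat.dvd_add_right h1]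

theorem sv_empty (W : ℕ) (A : Finset ℕ) (m : ℕ) : sv W ∅ A m = A := by
  unfold sv
  simp

/-- the general recursion -/
theorem av_insert (W p : ℕ) (P A : Finset ℕ) (hpP : p ∉ P) (F : ℕ → ℝ) :
    av (insert p P) (fun m => F (sv W (insert p P) A m).card) =
      av P (fun m => (∑ j ∈ range p,
        F ((sv W P A m).card - (hit W p (sv W P A m) (m + Q P * j)).card)) / p) := by
  unfold av
  have hQ : Q (insert p P) = p * Q P := prod_insert hpP
  rw [hQ, sum_range_mul, ← sum_div, div_div]
  push_cast
  congr 1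
  refine sum_congr rfl fun a _ => sum_congr rfl fun j _ => ?_
  have h1 := sv_insert W p P A (a + Q P * j)
  rw [sv_period] at h1
  congr 1
  omega

/-- mean value of the number of survivors -/
theorem av_card (W : ℕ) (P A : Finset ℕ) (hP : ∀ p ∈ P, p.Prime) (hW : ∀ p ∈ P, W.Coprime p) :
    av P (fun m => ((sv W P A m).card : ℝ)) = A.card * ∏ p ∈ P, (1 - 1 / (p : ℝ)) := by
  induction P using Finset.induction_on with
  | empty =>
    unfold av
    simp [sv_empty, Q]
  | insert p P hpP ih =>
    have hp := hP p (mem_insert_self _ _)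
    have hP' : ∀ q ∈ P, q.Prime := fun q hq => hP q (mem_insert_of_mem hq)
    rw [av_insert W p P A hpP (fun n => (n : ℝ)), prod_insert hpP]
    have hc : (W * Q P).Coprime p := by
      refine Nat.Coprime.mul_left (hW p (mem_insert_self _ _)) ?_
      refine Nat.Coprime.prod_left fun q hq => ?_
      rw [Nat.coprime_primes (hP' q hq) hp]
      rintro rfl
      exact hpP hq
    have hp0 : (p : ℝ) ≠ 0 := by exact_mod_cast hp.ne_zero
    have h1 : ∀ m, (∑ j ∈ range p, (((sv W P A m).card - (hit W p (sv W P A m) (m + Q P * j)).card : ℕ) : ℝ)) / p =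
        (1 - 1 / (p : ℝ)) * (sv W P A m).card := by
      intro m
      have h2 : ∀ j ∈ range p, (((sv W P A m).card - (hit W p (sv W P A m) (m + Q P * j)).card : ℕ) : ℝ) =
          (sv W P A m).card - (hit W p (sv W P A m) (m + Q P * j)).card := by
        intro j _
        rw [Nat.cast_sub]
        exact card_le_card (filter_subset _ _)
      rw [sum_congr rfl h2, sum_sub_distrib, sum_hit W p (Q P) hp hc, sum_const, card_range, nsmul_eq_mul]
      field_simp
    rw [show (fun m => (∑ j ∈ range p, (((sv W P A m).card - (hit W p (sv W P A m) (m + Q P * j)).card : ℕ) : ℝ)) / p) =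
      fun m => (1 - 1 / (p : ℝ)) * (sv W P A m).card from funext h1]
    rw [av_mul, ih hP' (fun q hq => hW q (mem_insert_of_mem hq))]
    ring

/-- the exact one-step formula when `p` hits at most one element -/
theorem av_one (W p : ℕ) (P A : Finset ℕ) (hp : p.Prime) (hpP : p ∉ P) (hP : ∀ q ∈ P, q.Prime)
    (hW : W.Coprime p) (hA : ∀ a ∈ A, ∀ b ∈ A, a % p = b % p → a = b) (F : ℕ → ℝ) :
    av (insert p P) (fun m => F (sv W (insert p P) A m).card) =
      av P (fun m => F (sv W P A m).card + ((sv W P A m).card : ℝ) / p *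
        (F ((sv W P A m).card - 1) - F (sv W P A m).card)) := by
  rw [av_insert W p P A hpP F]
  congr 1
  funext m
  have hp0 : (p : ℝ) ≠ 0 := by exact_mod_cast hp.ne_zero
  have hc : (W * Q P).Coprime p := by
    refine Nat.Coprime.mul_left hW ?_
    refine Nat.Coprime.prod_left fun q hq => ?_
    rw [Nat.coprime_primes (hP q hq) hp]
    rintro rfl
    exact hpP hq
  set S := sv W P A m with hS
  have h1 : ∀ j ∈ range p, F (S.card - (hit W p S (m + Q P * j)).card) =
      F S.card + ((hit W p S (m + Q P * j)).card : ℝ) * (F (S.card - 1) - F S.card) := by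
    intro j _
    have h2 : (hit W p S (m + Q P * j)).card ≤ 1 := by
      rw [card_le_one]
      intro a ha b hb
      unfold hit at ha hb
      rw [mem_filter] at ha hb
      have ha' : a ∈ A := (mem_filter.1 ha.1).1
      have hb' : b ∈ A := (mem_filter.1 hb.1).1
      refine hA a ha' b hb' ?_
      have h3 : W * (m + Q P * j) + a ≡ W * (m + Q P * j) + b [MOD p] :=
        ((Nat.modEq_zero_iff_dvd).2 ha.2).trans ((Nat.modEq_zero_iff_dvd).2 hb.2).symm
      exact Nat.ModEq.add_left_cancel' _ h3
    rcases Nat.le_one_iff_eq_zero_or_eq_one.1 h2 with h3 | h3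
    · rw [h3]
      simp
    · rw [h3]
      simp
  rw [sum_congr rfl h1, sum_add_distrib, sum_const, card_range, nsmul_eq_mul, ← sum_mul,
    sum_hit W p (Q P) hp hc]
  field_simp

end Pool.Agent.H11.Avg
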