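import Pool.Graph.R_pool_sql_team_seeded_707910d6.T2H32.GM.FL
import Pool.Agent.H11.Avg

set_option autoImplicit false

/-! # The fundamental lemma for an arbitrary set of small primes -/

open Finset
open Pool.Agent.T2H32.GM (cls2 Jf J1 J2 J3)

namespace Pool.Agent.H11.Avg

theorem totient_Q (P : Finset ℕ) (hP : ∀ p ∈ P, p.Prime) :
    ((Q P).totient : ℝ) = Q P * ∏ p ∈ P, (1 - 1 / (p : ℝ)) := by
  have h := Nat.totient_eq_mul_prod_factors (Q P)
  have h1 : ((Q P).totient : ℝ) = (Q P : ℝ) * ∏ p ∈ (Q P).primeFactors, (1 - (p : ℝ)⁻¹) := by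
    have h2 : (((Q P).totient : ℚ) : ℝ) =
        (((Q P : ℚ) * ∏ p ∈ (Q P).primeFactors, (1 - (p : ℚ)⁻¹) : ℚ) : ℝ) := by
      rw [h]
    push_cast at h2
    exact h2
  rw [h1]
  have h3 : (Q P).primeFactors = P := Nat.primeFactors_prod hP
  rw [h3]
  simp only [one_div]

theorem flq : ∃ C0 : ℕ, 1 ≤ C0 ∧ ∀ b : ℕ, C0 ≤ b → ∃ K : ℝ, 0 < K ∧ ∀ (T : ℕ) (P : Finset ℕ) (k y : ℕ), 1 ≤ T →
    (∀ p ∈ P, p.Prime ∧ p ≤ T) →
    |(((Ioc k (k + y)).filter (fun n => ∀ p ∈ P, ¬ p ∣ n)).card : ℝ) - y * ∏ p ∈ P, (1 - 1 / (p : ℝ))| ≤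
      (1 / 2 : ℝ) ^ b * (y * ∏ p ∈ P, (1 - 1 / (p : ℝ))) + K * (T : ℝ) ^ (4 * C0 * b + 1) := by
  obtain ⟨C0, hC0, hfl⟩ := Pool.Agent.TH882.FL.fl1 1
  refine ⟨C0, hC0, fun b hb => ⟨(primorial C0 : ℝ) * (3 * 4 ^ (2 * C0 * b)), ?_, ?_⟩⟩
  · have := primorial_pos C0
    positivity
  intro T PP k y hT hPP
  set P0 := PP.filter (fun p => ¬ C0 < p) with hP0
  set P := PP.filter (fun p => C0 < p) with hP
  set R := Q P0 with hR
  have hP0p : ∀ p ∈ P0, p.Prime := fun p hp => (hPP p (mem_filter.1 hp).1).1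
  have hPp : ∀ p ∈ P, p.Prime := fun p hp => (hPP p (mem_filter.1 hp).1).1
  have hQ0 : 0 < R := Q_pos P0 hP0p
  have hPz : ∀ p ∈ P, p.Prime ∧ C0 < p ∧ p ≤ 2 ^ 2 ^ Jf T := by
    intro p hp
    exact ⟨hPp p hp, (mem_filter.1 hp).2, (hPP p (mem_filter.1 hp).1).2.trans (J1 T)⟩
  have hPQ : ∀ p ∈ P, p.Coprime R := by
    intro p hp
    refine Nat.Coprime.prod_right fun q hq => ?_
    rw [Nat.coprime_primes (hPp p hp) (hP0p q hq)]
    rintro rfl
    exact (mem_filter.1 hq).2 (mem_filter.1 hp).2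
  have hmain : ∀ a : ℕ, |((((Ioc k (k + y)).filter (fun n => n ≡ a [MOD R])).filter
      (fun n => ∀ p ∈ P, n % p ∉ ({0} : Finset ℕ))).card : ℝ) -
        (y / R) * ∏ p ∈ P, (1 - 1 / (p : ℝ))| ≤
      (1 / 2 : ℝ) ^ b * ((y / R) * ∏ p ∈ P, (1 - 1 / (p : ℝ))) +
        ((Jf T : ℝ) + 2) * (((2 ^ 2 ^ Jf T : ℕ) : ℝ) ^ (C0 * b)) ^ 2 := by
    intro a
    have h := hfl b (Jf T) C0 P (fun _ => {0}) hb le_rfl hPz (fun p _ => by simp)
      ((Ioc k (k + y)).filter (fun n => n ≡ a [MOD R])) (y / R) (by positivity) ?_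
    · simpa using h
    · intro T' hT' c hc
      have hc0 : ∀ p ∈ T', c p = 0 := fun p hp => by simpa using hc p hp
      have hprime : ∀ p ∈ T', p.Prime := fun p hp => (hPz p (hT' hp)).1
      have e : ((Ioc k (k + y)).filter (fun n => n ≡ a [MOD R])).filter (fun n => ∀ p ∈ T', n % p = c p) =
          (Ioc k (k + y)).filter (fun n => n ≡ a [MOD R] ∧ (∏ p ∈ T', p) ∣ n) := by
        rw [filter_filter]
        refine filter_congr fun n _ => ?_
        refine and_congr_right fun _ => ?_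
        constructor
        · intro h1
          refine Finset.prod_primes_dvd n (fun p hp => (hprime p hp).prime) fun p hp => ?_
          exact Nat.dvd_of_mod_eq_zero ((h1 p hp).trans (hc0 p hp))
        · intro h1 p hp
          rw [hc0 p hp]
          exact Nat.mod_eq_zero_of_dvd ((dvd_prod_of_mem _ hp).trans h1)
      rw [e]
      have hD : 0 < ∏ p ∈ T', p := prod_pos fun p hp => (hprime p hp).pos
      have := cls2 R (∏ p ∈ T', p) hQ0 hD
        (Nat.Coprime.symm (Nat.Coprime.prod_left fun p hp => hPQ p (hT' hp))) a k y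
      push_cast at this
      exact this
  have hcount : ((Ioc k (k + y)).filter (fun n => ∀ p ∈ PP, ¬ p ∣ n)).card =
      ∑ a ∈ (range R).filter (Nat.Coprime R), ((((Ioc k (k + y)).filter (fun n => n ≡ a [MOD R])).filter
      (fun n => ∀ p ∈ P, n % p ∉ ({0} : Finset ℕ))).card) := by
    rw [card_eq_sum_card_fiberwise (f := fun n => n % R) (t := (range R).filter (Nat.Coprime R))]
    · refine sum_congr rfl fun a ha => ?_
      rw [mem_filter, mem_range] at ha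
      congr 1
      ext n
      simp only [mem_filter, mem_singleton]
      constructor
      · rintro ⟨⟨h1, h2⟩, h3⟩
        refine ⟨⟨h1, ?_⟩, ?_⟩
        · rw [Nat.ModEq, h3, Nat.mod_eq_of_lt ha.1]
        · intro p hp h4
          rw [hP, mem_filter] at hp
          exact h2 p hp.1 (Nat.dvd_of_mod_eq_zero h4)
      · rintro ⟨⟨h1, h2⟩, h3⟩
        have h4 : n % R = a := by
          rw [Nat.ModEq, Nat.mod_eq_of_lt ha.1] at h2
          exact h2
        refine ⟨⟨h1, ?_⟩, h4⟩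
        intro p hp1 hdvd
        have hp2 := (hPP p hp1).1
        by_cases h5 : C0 < p
        · exact h3 p (by rw [hP, mem_filter]; exact ⟨hp1, h5⟩) (Nat.mod_eq_zero_of_dvd hdvd)
        · have h6 : p ∣ R := dvd_prod_of_mem _ (by rw [hP0, mem_filter]; exact ⟨hp1, h5⟩)
          have h7 : p ∣ a := by
            rw [← h4]
            exact (Nat.dvd_mod_iff h6).2 hdvd
          have h8 := Nat.dvd_gcd h6 h7
          rw [ha.2] at h8
          exact hp2.one_lt.ne' (Nat.dvd_one.1 h8)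
    · intro n hn
      rw [mem_coe, mem_filter] at hn
      rw [mem_coe, mem_filter, mem_range]
      refine ⟨Nat.mod_lt _ hQ0, ?_⟩
      have hc : Nat.Coprime R (n % R) ↔ Nat.Coprime R n := by
        unfold Nat.Coprime
        rw [Nat.gcd_comm R (n % R), ← Nat.gcd_rec]
      show Nat.Coprime R (n % R)
      rw [hc]
      refine Nat.Coprime.prod_left fun p hp => ?_
      rw [(hP0p p hp).coprime_iff_not_dvd]
      exact hn.2 p (mem_filter.1 hp).1
  have hprodP : ∏ p ∈ PP, (1 - 1 / (p : ℝ)) = (∏ p ∈ P, (1 - 1 / (p : ℝ))) * ∏ p ∈ P0, (1 - 1 / (p : ℝ)) := by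
    rw [hP, hP0, prod_filter_mul_prod_filter_not]
  have hV : (((range R).filter (Nat.Coprime R)).card : ℝ) * ((y / R) * ∏ p ∈ P, (1 - 1 / (p : ℝ))) =
      y * ∏ p ∈ PP, (1 - 1 / (p : ℝ)) := by
    have h1 : (((range R).filter (Nat.Coprime R)).card : ℝ) = R * ∏ p ∈ P0, (1 - 1 / (p : ℝ)) := by
      rw [← totient_Q P0 hP0p]
      rfl
    rw [h1, hprodP]
    have : (R : ℝ) ≠ 0 := by exact_mod_cast hQ0.ne'
    field_simp
  have hφ : (((range R).filter (Nat.Coprime R)).card : ℝ) ≤ primorial C0 := by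
    have h1 : ((range R).filter (Nat.Coprime R)).card ≤ R := (card_filter_le _ _).trans (by rw [card_range])
    have h2 : R ≤ primorial C0 := by
      rw [hR]
      unfold Q primorial
      refine prod_le_prod_of_subset_of_one_le' ?_ ?_
      · intro p hp
        rw [mem_filter, mem_range]
        have h3 := (mem_filter.1 hp).2
        exact ⟨by omega, hP0p p hp⟩
      · intro p hp _
        exact (mem_filter.1 hp).2.one_le
    exact_mod_cast h1.trans h2
  rw [hcount]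
  push_cast
  have hsum : |∑ a ∈ (range R).filter (Nat.Coprime R), ((((Ioc k (k + y)).filter (fun n => n ≡ a [MOD R])).filter
      (fun n => ∀ p ∈ P, n % p ∉ ({0} : Finset ℕ))).card : ℝ) - y * ∏ p ∈ PP, (1 - 1 / (p : ℝ))| ≤
      ∑ a ∈ (range R).filter (Nat.Coprime R), ((1 / 2 : ℝ) ^ b * ((y / R) * ∏ p ∈ P, (1 - 1 / (p : ℝ))) +
        ((Jf T : ℝ) + 2) * (((2 ^ 2 ^ Jf T : ℕ) : ℝ) ^ (C0 * b)) ^ 2) := by
    rw [← hV, ← nsmul_eq_mul, ← sum_const, ← sum_sub_distrib]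
    exact (abs_sum_le_sum_abs _ _).trans (sum_le_sum fun a _ => hmain a)
  refine hsum.trans ?_
  rw [sum_const, nsmul_eq_mul, mul_add, ← mul_assoc, mul_comm _ ((1 / 2 : ℝ) ^ b), mul_assoc, hV]
  refine add_le_add le_rfl ?_
  have h1 : ((Jf T : ℝ) + 2) ≤ 3 * T := by exact_mod_cast J3 T hT
  have h2 : (((2 ^ 2 ^ Jf T : ℕ) : ℝ)) ≤ 4 * (T : ℝ) ^ 2 := by exact_mod_cast J2 T hT
  have h3 : (((2 ^ 2 ^ Jf T : ℕ) : ℝ) ^ (C0 * b)) ^ 2 ≤ ((4 * (T : ℝ) ^ 2) ^ (C0 * b)) ^ 2 := by gcongr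
  calc (((range R).filter (Nat.Coprime R)).card : ℝ) * (((Jf T : ℝ) + 2) *
        (((2 ^ 2 ^ Jf T : ℕ) : ℝ) ^ (C0 * b)) ^ 2)
      ≤ primorial C0 * ((3 * T) * ((4 * (T : ℝ) ^ 2) ^ (C0 * b)) ^ 2) := by gcongr
    _ = _ := by
      rw [← pow_mul, mul_pow, ← pow_mul]
      ring

end Pool.Agent.H11.Avg
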