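import Pool.Agent.H11.Prim2

set_option autoImplicit false

/-! # From windows to gaps -/

open Finset Filter Topology

namespace Pool.Agent.H11.Avg

theorem gap_from_V : ∃ m K : ℕ, ∀ q h : ℕ, q ≠ 0 → (K : ℝ) ≤ h * ((q.totient : ℝ) / q) →
    Real.exp (-(2 * (h * ((q.totient : ℝ) / q)))) ≤ V q h → V q h / (2 * (h : ℝ) ^ m) ≤ gapTail q h := by
  obtain ⟨K1, hK1, hup⟩ := upper_gen (1 / 2) (by norm_num) (by norm_num)
  refine ⟨2 * K1, K1 + 8, ?_⟩
  intro q h hq hl hV
  have hqR : (0 : ℝ) < q := by exact_mod_cast Nat.pos_of_ne_zero hq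
  have hφ : (0 : ℝ) < q.totient := by exact_mod_cast Nat.totient_pos.2 (Nat.pos_of_ne_zero hq)
  set r := (q.totient : ℝ) / q with hr
  have hr0 : 0 < r := by positivity
  have hr1 : r ≤ 1 := by
    rw [hr, div_le_one hqR]
    exact_mod_cast Nat.totient_le q
  set lam := (h : ℝ) * r with hlam
  have hK1R : (1 : ℝ) ≤ K1 := by exact_mod_cast hK1
  push_cast at hl
  have hlh : lam ≤ h := mul_le_of_le_one_right (Nat.cast_nonneg _) hr1
  have hh8 : (9 : ℝ) ≤ h := by linarith
  have hhK : (K1 : ℝ) ≤ h := by linarith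
  have hhKn : K1 ≤ h := by exact_mod_cast hhK
  have hh1 : 1 ≤ h := by
    have : (1 : ℝ) ≤ h := by linarith
    exact_mod_cast this
  set H := h ^ (2 * K1) with hH
  have hhH : h ≤ H := Nat.le_self_pow (by omega) h
  have hHR : (H : ℝ) = (h : ℝ) ^ (2 * K1) := by rw [hH]; push_cast; rfl
  have hVH : V q H ≤ V q h / 2 := by
    have h1 := hup q H hq (hhKn.trans hhH) ((h : ℝ) ^ 2) (by positivity) (by
      rw [hHR, pow_mul])
    refine h1.trans ?_
    have h2 : 2 * lam + 1 ≤ min ((1 - 1 / 2) * (H * r)) ((h : ℝ) ^ 2) := by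
      refine le_min ?_ (by nlinarith)
      have h3 : (h : ℝ) * h ≤ H := by
        rw [hHR]
        calc (h : ℝ) * h = (h : ℝ) ^ 2 := by ring
          _ ≤ (h : ℝ) ^ (2 * K1) := pow_le_pow_right₀ (by linarith) (by omega)
      have h4 : h * lam ≤ H * r := by
        have := mul_le_mul_of_nonneg_right h3 hr0.le
        calc h * lam = h * h * r := by rw [hlam]; ring
          _ ≤ _ := this
      nlinarith
    have h3 : Real.exp (-(min ((1 - 1 / 2) * (H * r)) ((h : ℝ) ^ 2))) ≤ Real.exp (-(2 * lam)) * Real.exp (-1) := by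
      rw [← Real.exp_add]
      apply Real.exp_le_exp.2
      linarith
    have h10 : Real.exp (-1) ≤ 1 / 2 := by
      rw [Real.exp_neg, inv_eq_one_div]
      apply one_div_le_one_div_of_le (by norm_num)
      have := Real.add_one_le_exp (1 : ℝ)
      linarith
    have h4 : Real.exp (-(2 * lam)) * Real.exp (-1) ≤ V q h * (1 / 2) :=
      mul_le_mul hV h10 (Real.exp_pos _).le ((Real.exp_pos _).le.trans hV)
    linarith
  have h5 := V_diff_le q h (H - h) hq
  rw [Nat.add_sub_cancel' hhH, ← hr] at h5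
  have h6 : ((H - h : ℕ) : ℝ) * r * gapTail q h ≤ H * gapTail q h := by
    refine mul_le_mul_of_nonneg_right ?_ (gapTail_nonneg _ _)
    have h7 : ((H - h : ℕ) : ℝ) ≤ H := by exact_mod_cast Nat.sub_le _ _
    calc ((H - h : ℕ) : ℝ) * r ≤ H * 1 := mul_le_mul h7 hr1 hr0.le (Nat.cast_nonneg _)
      _ = H := mul_one _
  have hH0 : (0 : ℝ) < (h : ℝ) ^ (2 * K1) := by positivity
  rw [div_le_iff₀ (by positivity)]
  rw [hHR] at h6
  linarith

theorem exp_pow_big (a : ℝ) (ha : 0 < a) (M : ℕ) : ∃ K : ℕ, ∀ x : ℝ, (K : ℝ) ≤ x → 2 * x ^ M ≤ Real.exp (a * x) := by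
  have h5 : Tendsto (fun y : ℝ => Real.exp y / y ^ M) atTop atTop := Real.tendsto_exp_div_pow_atTop M
  have h6 : Tendsto (fun x : ℝ => a * x) atTop atTop := tendsto_id.const_mul_atTop ha
  have h7 := (h5.comp h6).eventually_ge_atTop (2 / a ^ M)
  obtain ⟨x0, hx0⟩ := eventually_atTop.1 (h7.and (eventually_gt_atTop 0))
  obtain ⟨K, hK⟩ := exists_nat_ge x0
  refine ⟨K, fun x hx => ?_⟩
  obtain ⟨h8, h9⟩ := hx0 x (hK.trans hx)
  simp only [Function.comp_apply] at h8
  rw [le_div_iff₀ (by positivity), mul_pow] at h8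
  refine le_trans (le_of_eq ?_) h8
  field_simp

/-- **Gaps from below**, in the long range -/
theorem gap_lower (ε : ℝ) (hε : 0 < ε) (hε1 : ε ≤ 1) : ∃ K : ℕ, 1 ≤ K ∧ ∀ q h : ℕ, q ≠ 0 →
    (K : ℝ) ≤ h * ((q.totient : ℝ) / q) →
    h * ((q.totient : ℝ) / q) ≤ Real.exp ((q : ℝ) / q.totient / K) →
    Real.exp (-((1 + ε) * (h * ((q.totient : ℝ) / q)))) ≤ gapTail q h := by
  obtain ⟨K1, hK1, hboth⟩ := both ε hε hε1
  obtain ⟨K2, hK2, hlow⟩ := lower (ε / 2) (by positivity) (by linarith)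
  obtain ⟨m, K3, htr⟩ := gap_from_V
  obtain ⟨K4, hK4⟩ := exp_pow_big (ε / 2) (by positivity) ((K1 + 1) * m)
  refine ⟨K1 + K2 + K3 + K4, by omega, ?_⟩
  intro q h hq hl hu
  have hqR : (0 : ℝ) < q := by exact_mod_cast Nat.pos_of_ne_zero hq
  have hφ : (0 : ℝ) < q.totient := by exact_mod_cast Nat.totient_pos.2 (Nat.pos_of_ne_zero hq)
  have hVlow := hlow (K1 + K2 + K3 + K4) (by omega) q h hq hl hu
  push_cast at hl
  have hK1R : (0 : ℝ) ≤ K1 := Nat.cast_nonneg _
  have hK2R : (1 : ℝ) ≤ K2 := by exact_mod_cast hK2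
  have hK3R : (0 : ℝ) ≤ K3 := Nat.cast_nonneg _
  have hK4R : (0 : ℝ) ≤ K4 := Nat.cast_nonneg _
  rcases le_or_gt ((h * ((q.totient : ℝ) / q)) ^ K1) ((q : ℝ) / q.totient) with hc | hc
  · exact (hboth q h hq (by linarith) hc).2.1
  · set lam := (h : ℝ) * ((q.totient : ℝ) / q) with hlam
    have hlam1 : 1 ≤ lam := by linarith
    have hhy : (h : ℝ) = lam * ((q : ℝ) / q.totient) := by
      rw [hlam]
      field_simp
    have hh : (h : ℝ) ≤ lam ^ (K1 + 1) := by
      rw [hhy, pow_succ]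
      nlinarith
    have h1 := htr q h hq (by linarith) (le_trans (Real.exp_le_exp.2 (by nlinarith)) hVlow)
    refine le_trans ?_ h1
    have hh0 : (0 : ℝ) < h := by rw [hhy]; positivity
    rw [le_div_iff₀ (by positivity)]
    have h2 : 2 * (h : ℝ) ^ m ≤ Real.exp (ε / 2 * lam) := by
      refine le_trans ?_ (hK4 lam (by linarith))
      rw [pow_mul]
      gcongr
    calc Real.exp (-((1 + ε) * lam)) * (2 * (h : ℝ) ^ m)
        ≤ Real.exp (-((1 + ε) * lam)) * Real.exp (ε / 2 * lam) := by gcongr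
      _ = Real.exp (-((1 + ε / 2) * lam)) := by
        rw [← Real.exp_add]
        congr 1
        ring
      _ ≤ _ := hVlow

/-- **Gaps from below**, primorials -/
theorem gap_prim (θ : ℝ) (hθ : 0 < θ) : ∃ c < 1, ∃ K z0 : ℕ, 1 ≤ K ∧ ∀ z h : ℕ, z0 ≤ z →
    mg z ^ θ ≤ h / mg z → (h : ℝ) / mg z ≤ Real.exp (mg z / K) →
    Real.exp (-(c * (h / mg z))) ≤ gapTail (primorial z) h := by
  obtain ⟨c, hc, K, z0, hK, hmain⟩ := prim_power θ hθ
  obtain ⟨m, K3, htr⟩ := gap_from_V
  obtain ⟨n, hn⟩ := exists_nat_ge (1 / θ)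
  set c' := max c 0 with hc'
  have hc'1 : c' < 1 := max_lt hc one_pos
  have hc'0 : 0 ≤ c' := le_max_right _ _
  obtain ⟨K4, hK4⟩ := exp_pow_big ((1 - c') / 2) (by linarith) ((n + 1) * m)
  have hKR : (1 : ℝ) ≤ K := by exact_mod_cast hK
  -- `y ^ θ` is large, and `y ≤ exp (y / (2K))`
  have e1 : ∀ᶠ z in atTop, (K3 + K4 + 1 : ℝ) ≤ mg z ^ θ :=
    ((tendsto_rpow_atTop hθ).comp mg_top).eventually_ge_atTop _
  have e2 : ∀ᶠ z in atTop, mg z ≤ Real.exp (mg z / (2 * K)) := by
    have h5 : Tendsto (fun y : ℝ => Real.exp y / y ^ 1) atTop atTop := Real.tendsto_exp_div_pow_atTop 1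
    have h6 : Tendsto (fun z => mg z / (2 * K)) atTop atTop := mg_top.atTop_div_const (by linarith)
    filter_upwards [(h5.comp h6).eventually_ge_atTop (2 * K : ℝ)] with z h7
    have h8 := mg_pos z
    simp only [Function.comp_apply, pow_one] at h7
    rw [le_div_iff₀ (by positivity)] at h7
    refine le_trans (le_of_eq ?_) h7
    field_simp
  obtain ⟨z1, hz1⟩ := eventually_atTop.1 (e1.and e2)
  refine ⟨(1 + c') / 2, by linarith, 2 * K, z0 + z1, by omega, ?_⟩
  intro z h hz hl hu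
  obtain ⟨h1, h2⟩ := hz1 z (by omega)
  have hy := mg_pos z
  set lam := (h : ℝ) / mg z with hlam
  have hhy : (h : ℝ) = lam * mg z := by rw [hlam]; field_simp
  have hlamR : (K3 + K4 + 1 : ℝ) ≤ lam := h1.trans hl
  have hK3R : (0 : ℝ) ≤ K3 := Nat.cast_nonneg _
  have hK4R : (0 : ℝ) ≤ K4 := Nat.cast_nonneg _
  have hlam1 : 1 ≤ lam := by linarith
  have hlam0 : 0 < lam := by linarith
  have h3 := hmain z h (by omega) (by
      rw [add_comm, Real.rpow_add hy, Real.rpow_one, hhy]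
      gcongr) (by
      rw [hhy]
      push_cast at hu
      calc lam * mg z ≤ Real.exp (mg z / (2 * K)) * Real.exp (mg z / (2 * K)) := by gcongr
        _ = Real.exp (mg z / K) := by
          rw [← Real.exp_add]
          congr 1
          field_simp
          ring)
  rw [← hlam] at h3
  have hV : Real.exp (-(c' * lam)) ≤ V (primorial z) h := by
    refine le_trans (Real.exp_le_exp.2 ?_) h3
    have := mul_le_mul_of_nonneg_right (le_max_left c 0) hlam0.le
    linarith
  have hq : primorial z ≠ 0 := (primorial_pos z).ne'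
  have elam : (h : ℝ) * (((primorial z).totient : ℝ) / primorial z) = lam := by
    rw [hlam]
    unfold mg
    rw [div_div_eq_mul_div, mul_div_assoc]
  have h4 := htr (primorial z) h hq (by rw [elam]; linarith) (by
    rw [elam]
    refine le_trans (Real.exp_le_exp.2 ?_) hV
    nlinarith)
  refine le_trans ?_ h4
  have hh0 : (0 : ℝ) < h := by rw [hhy]; positivity
  rw [le_div_iff₀ (by positivity)]
  have hyn : mg z ≤ lam ^ n := by
    have h5 : mg z ≤ lam ^ (1 / θ) := by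
      have h6 := Real.rpow_le_rpow (by positivity) hl (show 0 ≤ 1 / θ by positivity)
      rwa [← Real.rpow_mul hy.le, mul_one_div_cancel hθ.ne', Real.rpow_one] at h6
    refine h5.trans ?_
    rw [← Real.rpow_natCast]
    exact Real.rpow_le_rpow_of_exponent_le hlam1 hn
  have hh : (h : ℝ) ≤ lam ^ (n + 1) := by
    rw [hhy, pow_succ']
    gcongr
  have h5 : 2 * (h : ℝ) ^ m ≤ Real.exp ((1 - c') / 2 * lam) := by
    refine le_trans ?_ (hK4 lam (by linarith))
    rw [pow_mul]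
    gcongr
  calc Real.exp (-((1 + c') / 2 * lam)) * (2 * (h : ℝ) ^ m)
      ≤ Real.exp (-((1 + c') / 2 * lam)) * Real.exp ((1 - c') / 2 * lam) := by gcongr
    _ = Real.exp (-(c' * lam)) := by
      rw [← Real.exp_add]
      congr 1
      ring
    _ ≤ _ := hV

end Pool.Agent.H11.Avg
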