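import Pool.Agent.H11.Low

set_option autoImplicit false

/-! # The general lower bound -/

open Finset

namespace Pool.Agent.H11.Avg

theorem sum_sq_le (S : Finset ℕ) (B : ℕ) (hB : B ≠ 0) (hS : ∀ n ∈ S, B < n) :
    ∑ n ∈ S, ((n : ℝ) ^ 2)⁻¹ ≤ (B : ℝ)⁻¹ := by
  set N := max B (S.sup id) with hN
  have h1 : S ⊆ Ioc B N := by
    intro n hn
    rw [mem_Ioc]
    exact ⟨hS n hn, le_max_of_le_right (le_sup (f := id) hn)⟩
  have h2 : ∑ n ∈ S, ((n : ℝ) ^ 2)⁻¹ ≤ ∑ n ∈ Ioc B N, ((n : ℝ) ^ 2)⁻¹ :=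
    sum_le_sum_of_subset_of_nonneg h1 fun _ _ _ => by positivity
  refine h2.trans ((sum_Ioc_inv_sq_le_sub hB (le_max_left _ _)).trans ?_)
  have : (0 : ℝ) ≤ (N : ℝ)⁻¹ := by positivity
  linarith

theorem prod_one_sub (S : Finset ℕ) (f : ℕ → ℝ) (h0 : ∀ i ∈ S, 0 ≤ f i) (h1 : ∀ i ∈ S, f i ≤ 1) :
    1 - ∑ i ∈ S, f i ≤ ∏ i ∈ S, (1 - f i) := by
  induction S using Finset.induction_on with
  | empty => simp
  | insert a S ha ih =>
    rw [sum_insert ha, prod_insert ha]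
    have h2 := ih (fun i hi => h0 i (mem_insert_of_mem hi)) (fun i hi => h1 i (mem_insert_of_mem hi))
    have h3 := h0 a (mem_insert_self _ _)
    have h4 := h1 a (mem_insert_self _ _)
    have h5 : ∏ i ∈ S, (1 - f i) ≤ 1 := prod_le_one (fun i hi => by
      linarith [h1 i (mem_insert_of_mem hi)]) (fun i hi => by linarith [h0 i (mem_insert_of_mem hi)])
    nlinarith

/-- a subset with a prescribed sum, up to one term -/
theorem exists_sub (S : Finset ℕ) (f : ℕ → ℝ) (s b : ℝ) (hb : ∀ i ∈ S, f i ≤ b) (hs : s ≤ ∑ i ∈ S, f i)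
    (hs0 : 0 < s) :
    ∃ T ⊆ S, s ≤ ∑ i ∈ T, f i ∧ ∑ i ∈ T, f i ≤ s + b := by
  induction S using Finset.strongInduction with
  | H S ih =>
    rcases le_or_gt (∑ i ∈ S, f i) (s + b) with h | h
    · exact ⟨S, Subset.refl _, hs, h⟩
    · have hne : S.Nonempty := by
        rw [nonempty_iff_ne_empty]
        rintro rfl
        rw [sum_empty] at hs
        linarith
      obtain ⟨a, ha⟩ := hne
      have h1 := sum_erase_add S f ha
      have h2 := hb a ha
      obtain ⟨T, hT, hT1, hT2⟩ := ih (S.erase a) (erase_ssubset ha)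
        (fun i hi => hb i (mem_of_mem_erase hi)) (by linarith)
      exact ⟨T, hT.trans (erase_subset _ _), hT1, hT2⟩

theorem half_prime (p : ℕ) (hp : p.Prime) : (1 : ℝ) / p ≤ 1 / 2 := by
  have h1 : (2 : ℝ) ≤ p := by exact_mod_cast hp.two_le
  gcongr

theorem prod_pos' (S : Finset ℕ) (hS : ∀ p ∈ S, p.Prime) : 0 < ∏ p ∈ S, (1 - 1 / (p : ℝ)) :=
  prod_pos fun p hp => by linarith [half_prime p (hS p hp)]

theorem prod_ge_exp (S : Finset ℕ) (hS : ∀ p ∈ S, p.Prime) :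
    Real.exp (-(2 * ∑ p ∈ S, 1 / (p : ℝ))) ≤ ∏ p ∈ S, (1 - 1 / (p : ℝ)) := by
  rw [mul_sum, ← sum_neg_distrib, Real.exp_sum]
  refine prod_le_prod (fun p _ => (Real.exp_pos _).le) fun p hp => ?_
  have h4 := half_prime p (hS p hp)
  have h5 : 0 ≤ (1 : ℝ) / p := by positivity
  set t := (1 : ℝ) / p
  have h6 : Real.exp (-(2 * t)) * Real.exp (2 * t) = 1 := by rw [← Real.exp_add]; simp
  have h7 : 1 + 2 * t ≤ Real.exp (2 * t) := by linarith [Real.add_one_le_exp (2 * t)]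
  have h8 : 1 ≤ (1 - t) * Real.exp (2 * t) := by
    have : 1 ≤ (1 - t) * (1 + 2 * t) := by nlinarith
    exact this.trans (mul_le_mul_of_nonneg_left h7 (by linarith))
  nlinarith [Real.exp_pos (-(2 * t)), mul_le_mul_of_nonneg_left h8 (Real.exp_pos (-(2 * t))).le]

/-- **The general lower bound**: the survivors in `A` all disappear with at least the probability
predicted by the Poisson heuristic, as soon as there are enough primes above `K h ^ 2`. -/
theorem LB (ε : ℝ) (hε : 0 < ε) (hε1 : ε ≤ 1) : ∃ K : ℕ, 1 ≤ K ∧ ∀ (W : ℕ) (P A : Finset ℕ) (h : ℕ),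
    1 ≤ h → (∀ p ∈ P, p.Prime) → (∀ p ∈ P, W.Coprime p) → A ⊆ Icc 1 h →
    (K : ℝ) * ∏ p ∈ P.filter (fun p => K * h ^ 2 < p), (1 - 1 / (p : ℝ)) ≤ 1 →
    1 / 2 * Real.exp (-((1 + ε) * (A.card * ∏ p ∈ P, (1 - 1 / (p : ℝ))))) ≤
      av P (fun m => (0 : ℝ) ^ (sv W P A m).card) := by
  obtain ⟨K, hK⟩ := exists_nat_ge (8192 / ε ^ 2)
  have hε2 : 0 < ε ^ 2 := by positivity
  have hK' : 8192 ≤ K * ε ^ 2 := by
    rw [div_le_iff₀ hε2] at hK
    exact hK
  have hKε : 8192 ≤ K * ε := by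
    have : ε ^ 2 ≤ ε := by nlinarith
    have hk0 : (0 : ℝ) ≤ K := Nat.cast_nonneg _
    nlinarith
  have hKR : (8192 : ℝ) ≤ K := by
    have hk0 : (0 : ℝ) ≤ K := Nat.cast_nonneg _
    nlinarith
  have hK0 : (0 : ℝ) < K := by linarith
  refine ⟨K, by exact_mod_cast (show (1 : ℝ) ≤ K by linarith), ?_⟩
  intro W P A h hh hP hW hA hprod
  have hhR : (1 : ℝ) ≤ h := by exact_mod_cast hh
  set B := K * h ^ 2 with hBdef
  have hBR : (B : ℝ) = K * (h : ℝ) ^ 2 := by rw [hBdef]; push_cast; ring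
  have hBK : (K : ℝ) * h ≤ B := by
    rw [hBR]
    have : (h : ℝ) ≤ (h : ℝ) ^ 2 := by nlinarith
    exact mul_le_mul_of_nonneg_left this hK0.le
  have hBK1 : (K : ℝ) ≤ B := le_trans (by nlinarith) hBK
  have hB0 : (0 : ℝ) < B := lt_of_lt_of_le hK0 hBK1
  set PH := P.filter (fun p => B < p) with hPH
  set PL := P.filter (fun p => ¬ B < p) with hPL
  have hPHp : ∀ p ∈ PH, p.Prime := fun p hp => hP p (mem_filter.1 hp).1
  have hPLp : ∀ p ∈ PL, p.Prime := fun p hp => hP p (mem_filter.1 hp).1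
  have hPHB : ∀ p ∈ PH, (B : ℝ) < p := fun p hp => by exact_mod_cast (mem_filter.1 hp).2
  set σ0 := ε / 16 with hσ0
  have hσ0p : 0 < σ0 := by positivity
  have hσ01 : σ0 ≤ 1 / 16 := by rw [hσ0]; linarith
  have hKσ : 512 ≤ K * σ0 := by rw [hσ0]; linarith
  -- the sum over the large primes is large
  have hsum : σ0 ≤ ∑ p ∈ PH, 1 / (p : ℝ) := by
    have h1 := prod_ge_exp PH hPHp
    have h2 : (K : ℝ) * Real.exp (-(2 * ∑ p ∈ PH, 1 / (p : ℝ))) ≤ 1 :=
      (mul_le_mul_of_nonneg_left h1 hK0.le).trans hprod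
    have h3 : (K : ℝ) ≤ Real.exp (2 * ∑ p ∈ PH, 1 / (p : ℝ)) := by
      rw [Real.exp_neg, ← div_eq_mul_inv, div_le_one (Real.exp_pos _)] at h2
      exact h2
    by_contra hcon
    push Not at hcon
    have h4 : Real.exp (2 * ∑ p ∈ PH, 1 / (p : ℝ)) ≤ Real.exp 1 := Real.exp_le_exp.2 (by linarith)
    have h5 := Real.exp_one_lt_d9
    linarith
  obtain ⟨T, hTsub, hT1, hT2⟩ := exists_sub PH (fun p => 1 / (p : ℝ)) σ0 (1 / K) (fun p hp => by
    have h1 := hPHB p hp
    exact one_div_le_one_div_of_le hK0 (by linarith)) hsum hσ0p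
  set σ := ∑ p ∈ T, 1 / (p : ℝ) with hσ
  have hK1 : (1 : ℝ) / K ≤ σ0 := by
    rw [div_le_iff₀ hK0]
    linarith
  have hσ2 : σ ≤ 2 * σ0 := by
    have : σ ≤ σ0 + 1 / K := hT2
    linarith
  have hσ1 : σ0 ≤ σ := hT1
  set u := σ0 / 4 with hu
  have hu0 : 0 < u := by positivity
  have hKu : 1 ≤ K * u := by rw [hu]; linarith
  have hcard : (A.card : ℝ) ≤ h := by
    have := card_le_card hA
    rw [Nat.card_Icc, Nat.add_sub_cancel] at this
    exact_mod_cast this
  have hTp : ∀ p ∈ T, p.Prime := fun p hp => hPHp p (hTsub hp)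
  have hinj : ∀ p ∈ PH, ∀ a ∈ A, ∀ b ∈ A, a % p = b % p → a = b := by
    intro p hp a ha b hb hab
    have h1 := mem_Icc.1 (hA ha)
    have h2 := mem_Icc.1 (hA hb)
    have h3 : h < p := by
      have : (h : ℝ) < p := by
        have h4 := hPHB p hp
        have h5 : (h : ℝ) ≤ K * h := by nlinarith
        linarith
      exact_mod_cast this
    rwa [Nat.mod_eq_of_lt (by omega), Nat.mod_eq_of_lt (by omega)] at hab
  set S := PH \ T with hS
  have hSp : ∀ p ∈ S, p.Prime := fun p hp => hPHp p (mem_sdiff.1 hp).1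
  have hSB : ∀ p ∈ S, (B : ℝ) < p := fun p hp => hPHB p (mem_sdiff.1 hp).1
  have hdSL : Disjoint S PL := by
    rw [disjoint_left]
    intro p hp1 hp2
    exact (mem_filter.1 hp2).2 (mem_filter.1 (mem_sdiff.1 hp1).1).2
  have hdT : Disjoint T (S ∪ PL) := by
    rw [disjoint_left]
    intro p hp1 hp2
    rcases mem_union.1 hp2 with h1 | h1
    · exact (mem_sdiff.1 h1).2 hp1
    · exact (mem_filter.1 h1).2 (mem_filter.1 (hTsub hp1)).2
  have hPeq : T ∪ (S ∪ PL) = P := by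
    rw [← union_assoc, hS, union_sdiff_of_subset hTsub, hPH, hPL, filter_union_filter_not_eq]
  -- killing stage
  have hkill := kill W A T (S ∪ PL) hTp (fun q hq => by
      rcases mem_union.1 hq with h1 | h1
      · exact hSp q h1
      · exact hPLp q h1) hdT (fun p hp => hW p (mem_filter.1 (hTsub hp)).1)
      (fun p hp => hinj p (hTsub hp)) B σ u (fun p hp => (hPHB p (hTsub hp)).le) hB0 hσ
      (by
        rw [div_le_iff₀ hB0]
        have h1 : 2 * (h : ℝ) ≤ σ0 * B := by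
          have : σ0 * (K * h) ≤ σ0 * B := mul_le_mul_of_nonneg_left hBK hσ0p.le
          nlinarith
        have h2 : σ0 * B ≤ σ * B := mul_le_mul_of_nonneg_right hσ1 hB0.le
        linarith)
      (by
        rw [div_le_iff₀ hB0]
        nlinarith) hu0.le
      (by
        have h1 : 3 / 4 ≤ Real.exp (-(2 * σ)) := by
          have := Real.add_one_le_exp (-(2 * σ))
          linarith
        have h2 : σ / 2 * (3 / 4) ≤ σ / 2 * Real.exp (-(2 * σ)) :=
          mul_le_mul_of_nonneg_left h1 (by linarith)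
        rw [hu]
        linarith)
  rw [hPeq] at hkill
  -- the intermediate primes
  have hτ : ∀ p ∈ S, (h : ℝ) / (u * p) ≤ 1 := by
    intro p hp
    have h0 : (0 : ℝ) < p := lt_trans hB0 (hSB p hp)
    rw [div_le_one (by positivity)]
    have h1 : u * (K * h) ≤ u * p := mul_le_mul_of_nonneg_left (hBK.trans (hSB p hp).le) hu0.le
    nlinarith
  have hlow := low_many W PL A S hSp hPLp hdSL (fun p hp => hW p (mem_filter.1 (mem_sdiff.1 hp).1).1)
    (fun p hp => hinj p (mem_sdiff.1 hp).1) h u hu0 hcard hτ (1 - u) (by linarith) le_rfl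
  rw [sub_sub_cancel] at hlow
  set ρ := ∏ p ∈ S, (1 - 1 / (p : ℝ)) with hρ
  have hρ0 : 0 < ρ := prod_pos' S hSp
  -- the loss in the intermediate primes
  have hloss : 1 / 2 ≤ ∏ p ∈ S, (1 - ((h : ℝ) / (u * p)) ^ 2) := by
    refine le_trans ?_ (prod_one_sub S _ (fun p _ => by positivity) fun p hp => by
      have h0 : (0 : ℝ) < p := lt_trans hB0 (hSB p hp)
      have h1 : 0 ≤ (h : ℝ) / (u * p) := by positivity
      exact pow_le_one₀ h1 (hτ p hp))
    have h1 : ∑ p ∈ S, ((h : ℝ) / (u * p)) ^ 2 = ((h : ℝ) / u) ^ 2 * ∑ p ∈ S, ((p : ℝ) ^ 2)⁻¹ := by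
      rw [mul_sum]
      refine sum_congr rfl fun p _ => ?_
      rw [← div_div, div_pow (_ / _), div_eq_mul_inv]
    have hBn : B ≠ 0 := by
      intro h0
      rw [h0] at hB0
      simp at hB0
    have h2 := sum_sq_le S B hBn (fun n hn => by exact_mod_cast hSB n hn)
    have h3 : ((h : ℝ) / u) ^ 2 * (B : ℝ)⁻¹ = 1 / (u ^ 2 * K) := by
      rw [hBR]
      field_simp
    have h4 : 1 / (u ^ 2 * K) ≤ 1 / 2 := by
      have : 2 ≤ u ^ 2 * K := by
        have e : u ^ 2 * K = K * ε ^ 2 / 4096 := by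
          rw [hu, hσ0]
          ring
        rw [e]
        linarith
      exact one_div_le_one_div_of_le (by norm_num) this
    have h5 : ((h : ℝ) / u) ^ 2 * ∑ p ∈ S, ((p : ℝ) ^ 2)⁻¹ ≤ ((h : ℝ) / u) ^ 2 * (B : ℝ)⁻¹ :=
      mul_le_mul_of_nonneg_left h2 (by positivity)
    rw [h1]
    linarith
  -- products
  set PT' := ∏ p ∈ T, (1 - 1 / (p : ℝ)) with hPT'
  set PL' := ∏ p ∈ PL, (1 - 1 / (p : ℝ)) with hPL'
  set PP := ∏ p ∈ P, (1 - 1 / (p : ℝ)) with hPP
  have hPT'0 : 0 < PT' := prod_pos' T hTp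
  have hPL'0 : 0 < PL' := prod_pos' PL hPLp
  have hPP0 : 0 < PP := prod_pos' P hP
  have hprodP : PP = PT' * (ρ * PL') := by
    rw [hPP, ← hPeq, prod_union hdT, prod_union hdSL]
  have hprodH : ∏ p ∈ PH, (1 - 1 / (p : ℝ)) = ρ * PT' := by
    rw [hρ, hPT', hS, prod_sdiff hTsub]
  have hTinv : 1 ≤ Real.exp (ε / 4) * PT' := by
    have h1 := prod_ge_exp T hTp
    have h2 : Real.exp (-(ε / 4)) ≤ PT' := by
      refine le_trans (Real.exp_le_exp.2 ?_) h1
      have : 2 * σ ≤ ε / 4 := by rw [hσ0] at hσ2; linarith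
      linarith
    have h3 : Real.exp (ε / 4) * Real.exp (-(ε / 4)) = 1 := by rw [← Real.exp_add]; simp
    rw [← h3]
    exact mul_le_mul_of_nonneg_left h2 (Real.exp_pos _).le
  have hexp : Real.exp (ε / 4) ≤ 1 + ε / 2 := by
    have h1 := Real.abs_exp_sub_one_sub_id_le (x := ε / 4) (by rw [abs_of_nonneg (by positivity)]; linarith)
    have h2 := (abs_le.1 h1).2
    nlinarith
  have hρK : ρ * K ≤ 2 := by
    rw [hprodH] at hprod
    have h1 : ρ * K * 1 ≤ ρ * K * (Real.exp (ε / 4) * PT') := mul_le_mul_of_nonneg_left hTinv (by positivity)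
    have h2 : ρ * K * (Real.exp (ε / 4) * PT') = Real.exp (ε / 4) * (K * (ρ * PT')) := by ring
    have h3 : Real.exp (ε / 4) * (K * (ρ * PT')) ≤ Real.exp (ε / 4) * 1 :=
      mul_le_mul_of_nonneg_left hprod (Real.exp_pos _).le
    linarith
  have hρε : ρ ≤ ε / 16 := by
    by_contra hcon
    push Not at hcon
    have : ε / 16 * K < ρ * K := mul_lt_mul_of_pos_right hcon hK0
    linarith
  -- Jensen
  have hjen : Real.exp (-((1 + ε) * (A.card * PP))) ≤
      av PL (fun m => (1 - (1 - u) * ρ) ^ (sv W PL A m).card) := by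
    have h1 := jensen PL hPLp (fun m => ((sv W PL A m).card : ℝ)) (Real.log (1 - (1 - u) * ρ))
    rw [av_card W PL A hPLp (fun p hp => hW p (mem_filter.1 hp).1)] at h1
    have h2 : 0 < 1 - (1 - u) * ρ := by nlinarith
    have h3 : (fun m => Real.exp (Real.log (1 - (1 - u) * ρ) * ((sv W PL A m).card : ℝ))) =
        fun m => (1 - (1 - u) * ρ) ^ (sv W PL A m).card := by
      funext m
      rw [mul_comm, Real.exp_nat_mul, Real.exp_log h2]
    rw [h3] at h1
    refine le_trans (Real.exp_le_exp.2 ?_) h1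
    have h4 : -(ρ * (1 + ε / 8)) ≤ Real.log (1 - (1 - u) * ρ) := by
      have h5 := Real.one_sub_inv_le_log_of_pos h2
      refine le_trans ?_ h5
      have h6 : (1 - (1 - u) * ρ)⁻¹ ≤ 1 + ρ * (1 + ε / 8) := by
        rw [inv_le_iff_one_le_mul₀ h2]
        have h7 : 1 - ρ ≤ 1 - (1 - u) * ρ := by nlinarith
        have h8 : 1 ≤ (1 + ρ * (1 + ε / 8)) * (1 - ρ) := by
          have h10 : 0 ≤ ε / 8 - ρ * (1 + ε / 8) := by
            have h11 : ρ * (1 + ε / 8) ≤ ε / 16 * (1 + ε / 8) :=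
              mul_le_mul_of_nonneg_right hρε (by positivity)
            have h12 : ε / 16 * (1 + ε / 8) ≤ ε / 16 * 2 :=
              mul_le_mul_of_nonneg_left (by linarith) (by positivity)
            linarith
          have h11 := mul_nonneg hρ0.le h10
          linarith
        have h9 : (1 + ρ * (1 + ε / 8)) * (1 - ρ) ≤ (1 + ρ * (1 + ε / 8)) * (1 - (1 - u) * ρ) :=
          mul_le_mul_of_nonneg_left h7 (by positivity)
        linarith
      linarith
    have hc0 : (0 : ℝ) ≤ A.card := Nat.cast_nonneg _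
    have h5 : -(ρ * (1 + ε / 8)) * (A.card * PL') ≤ Real.log (1 - (1 - u) * ρ) * (A.card * PL') :=
      mul_le_mul_of_nonneg_right h4 (by positivity)
    refine le_trans ?_ h5
    have h6 : ρ * PL' ≤ (1 + ε / 2) * PP := by
      have h7 : ρ * PL' * 1 ≤ ρ * PL' * (Real.exp (ε / 4) * PT') := mul_le_mul_of_nonneg_left hTinv (by positivity)
      have h8 : ρ * PL' * (Real.exp (ε / 4) * PT') = Real.exp (ε / 4) * PP := by rw [hprodP]; ring
      have h9 : Real.exp (ε / 4) * PP ≤ (1 + ε / 2) * PP := mul_le_mul_of_nonneg_right hexp hPP0.le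
      linarith
    have h7 : (1 + ε / 8) * (ρ * PL') ≤ (1 + ε) * PP := by
      have h8 : (1 + ε / 8) * (ρ * PL') ≤ (1 + ε / 8) * ((1 + ε / 2) * PP) :=
        mul_le_mul_of_nonneg_left h6 (by positivity)
      have h9 : (1 + ε / 8) * (1 + ε / 2) ≤ 1 + ε := by nlinarith
      have h10 := mul_le_mul_of_nonneg_right h9 hPP0.le
      linarith
    have h8 := mul_le_mul_of_nonneg_left h7 hc0
    linarith
  have hav0 : 0 ≤ av PL (fun m => (1 - (1 - u) * ρ) ^ (sv W PL A m).card) :=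
    (Real.exp_pos _).le.trans hjen
  calc 1 / 2 * Real.exp (-((1 + ε) * (A.card * PP)))
      ≤ 1 / 2 * av PL (fun m => (1 - (1 - u) * ρ) ^ (sv W PL A m).card) := by gcongr
    _ ≤ (∏ p ∈ S, (1 - ((h : ℝ) / (u * p)) ^ 2)) * av PL (fun m => (1 - (1 - u) * ρ) ^ (sv W PL A m).card) :=
        mul_le_mul_of_nonneg_right hloss hav0
    _ ≤ _ := hlow.trans hkill

end Pool.Agent.H11.Avg
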