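import Pool.Agent.H11.Avg

set_option autoImplicit false

/-! # Upper bounds for exponential averages -/

open Finset

namespace Pool.Agent.H11.Avg

theorem pow_two_terms (a b : ℝ) (ha : 0 ≤ a) (hb : 0 ≤ b) (N : ℕ) :
    a ^ N + N * (b * a ^ (N - 1)) ≤ (a + b) ^ N := by
  induction N with
  | zero => simp
  | succ N ih =>
    rw [pow_succ (a + b)]
    have h1 : (a ^ N + N * (b * a ^ (N - 1))) * (a + b) ≤ (a + b) ^ N * (a + b) :=
      mul_le_mul_of_nonneg_right ih (by positivity)
    refine le_trans ?_ h1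
    rw [Nat.add_sub_cancel]
    rcases Nat.eq_zero_or_pos N with h | h
    · subst h
      simp
    · obtain ⟨M, rfl⟩ : ∃ M, N = M + 1 := ⟨N - 1, by omega⟩
      rw [Nat.add_sub_cancel]
      push_cast
      have h2 : 0 ≤ (M + 1 : ℝ) * (b * a ^ M) * b := by positivity
      rw [pow_succ a (M + 1), pow_succ a M]
      linear_combination h2

/-- one step, at most one hit -/
theorem up_one (W p : ℕ) (P A : Finset ℕ) (hp : p.Prime) (hpP : p ∉ P) (hP : ∀ q ∈ P, q.Prime)
    (hW : W.Coprime p) (hA : ∀ a ∈ A, ∀ b ∈ A, a % p = b % p → a = b) (x : ℝ) (hx0 : 0 ≤ x) (hx1 : x ≤ 1) :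
    av (insert p P) (fun m => (1 - x) ^ (sv W (insert p P) A m).card) ≤
      av P (fun m => (1 - x * (1 - 1 / (p : ℝ))) ^ (sv W P A m).card) := by
  rw [av_one W p P A hp hpP hP hW hA (fun n => (1 - x) ^ n)]
  refine av_mono P _ _ fun m => ?_
  have hp0 : (0 : ℝ) < p := by exact_mod_cast hp.pos
  set N := (sv W P A m).card
  have h := pow_two_terms (1 - x) (x / p) (by linarith) (by positivity) N
  have e : 1 - x * (1 - 1 / (p : ℝ)) = 1 - x + x / p := by
    field_simp
    ring
  rw [e]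
  refine le_trans (le_of_eq ?_) h
  show (1 - x) ^ N + (N : ℝ) / p * ((1 - x) ^ (N - 1) - (1 - x) ^ N) = _
  rcases Nat.eq_zero_or_pos N with h0 | h0
  · rw [h0]
    simp
  · obtain ⟨M, hM⟩ : ∃ M, N = M + 1 := ⟨N - 1, by omega⟩
    rw [hM, Nat.add_sub_cancel]
    push_cast
    field_simp
    ring

theorem up_many (W : ℕ) (P A S : Finset ℕ) (hS : ∀ p ∈ S, p.Prime) (hP : ∀ q ∈ P, q.Prime) (hd : Disjoint S P)
    (hW : ∀ p ∈ S, W.Coprime p) (hA : ∀ p ∈ S, ∀ a ∈ A, ∀ b ∈ A, a % p = b % p → a = b) :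
    ∀ x : ℝ, 0 ≤ x → x ≤ 1 →
    av (S ∪ P) (fun m => (1 - x) ^ (sv W (S ∪ P) A m).card) ≤
      av P (fun m => (1 - x * ∏ p ∈ S, (1 - 1 / (p : ℝ))) ^ (sv W P A m).card) := by
  induction S using Finset.induction_on with
  | empty =>
    intro x _ _
    simp
  | insert p S hpS ih =>
    intro x hx0 hx1
    have hp := hS p (mem_insert_self _ _)
    have hp2 : (2 : ℝ) ≤ p := by exact_mod_cast hp.two_le
    have h1p : 0 ≤ 1 / (p : ℝ) := by positivity
    have h1p' : 1 / (p : ℝ) ≤ 1 := by
      rw [div_le_one (by linarith)]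
      linarith
    have hpP : p ∉ P := fun h => (disjoint_left.1 hd) (mem_insert_self _ _) h
    have hu : insert p S ∪ P = insert p (S ∪ P) := insert_union _ _ _
    rw [hu]
    have h1 := up_one W p (S ∪ P) A hp (by
        rw [mem_union]
        tauto) (fun q hq => by
          rcases mem_union.1 hq with h | h
          · exact hS q (mem_insert_of_mem h)
          · exact hP q h) (hW p (mem_insert_self _ _)) (hA p (mem_insert_self _ _)) x hx0 hx1
    refine h1.trans ?_
    have h2 := ih (fun q hq => hS q (mem_insert_of_mem hq))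
      (disjoint_of_subset_left (subset_insert _ _) hd) (fun q hq => hW q (mem_insert_of_mem hq))
      (fun q hq => hA q (mem_insert_of_mem hq)) (x * (1 - 1 / (p : ℝ))) (mul_nonneg hx0 (by linarith))
      (mul_le_one₀ hx1 (by linarith) (by linarith))
    rw [prod_insert hpS, ← mul_assoc]
    exact h2

/-- one step, at most `M` hits -/
theorem up_exp (W p : ℕ) (P A : Finset ℕ) (hp : p.Prime) (hpP : p ∉ P) (hP : ∀ q ∈ P, q.Prime)
    (hW : W.Coprime p) (M : ℝ) (hA : ∀ r, ((A.filter (fun a => a % p = r)).card : ℝ) ≤ M)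
    (θ : ℝ) (hθ : 0 ≤ θ) (hθM : θ * M ≤ 1) :
    av (insert p P) (fun m => Real.exp (-θ * (sv W (insert p P) A m).card)) ≤
      av P (fun m => Real.exp (-(θ * (1 - (1 + θ * M) / p)) * (sv W P A m).card)) := by
  rw [av_insert W p P A hpP (fun n => Real.exp (-θ * n))]
  refine av_mono P _ _ fun m => ?_
  have hp0 : (0 : ℝ) < p := by exact_mod_cast hp.pos
  have hc : (W * Q P).Coprime p := by
    refine Nat.Coprime.mul_left hW ?_
    refine Nat.Coprime.prod_left fun q hq => ?_
    rw [Nat.coprime_primes (hP q hq) hp]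
    rintro rfl
    exact hpP hq
  have hM0 : 0 ≤ M := le_trans (Nat.cast_nonneg _) (hA 0)
  set S := sv W P A m with hS
  have h1 : ∀ j ∈ range p, Real.exp (-θ * ((S.card - (hit W p S (m + Q P * j)).card : ℕ) : ℝ)) ≤
      Real.exp (-θ * S.card) * (1 + θ * (1 + θ * M) * (hit W p S (m + Q P * j)).card) := by
    intro j _
    set R := (hit W p S (m + Q P * j)).card with hR
    have h2 : R ≤ S.card := card_le_card (filter_subset _ _)
    rw [Nat.cast_sub h2]
    have h3 : (R : ℝ) ≤ M := by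
      rcases (hit W p S (m + Q P * j)).eq_empty_or_nonempty with h | ⟨a0, ha0⟩
      · rw [hR, h, card_empty]
        exact_mod_cast hM0
      · refine le_trans ?_ (hA (a0 % p))
        rw [hR]
        norm_cast
        refine card_le_card fun a ha => ?_
        unfold hit at ha ha0
        rw [mem_filter] at ha ha0 ⊢
        refine ⟨(mem_filter.1 ha.1).1, ?_⟩
        have h3 : W * (m + Q P * j) + a ≡ W * (m + Q P * j) + a0 [MOD p] :=
          ((Nat.modEq_zero_iff_dvd).2 ha.2).trans ((Nat.modEq_zero_iff_dvd).2 ha0.2).symm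
        exact Nat.ModEq.add_left_cancel' _ h3
    have h4 : Real.exp (θ * R) ≤ 1 + θ * (1 + θ * M) * R := by
      have h5 : θ * R ≤ 1 := le_trans (mul_le_mul_of_nonneg_left h3 hθ) hθM
      have h6 : 0 ≤ θ * R := by positivity
      have h7 := Real.abs_exp_sub_one_sub_id_le (x := θ * R) (by rw [abs_of_nonneg h6]; exact h5)
      have h8 := (abs_le.1 h7).2
      have h9 : (θ * R) ^ 2 ≤ θ * R * (θ * M) := by
        rw [sq]
        exact mul_le_mul_of_nonneg_left (mul_le_mul_of_nonneg_left h3 hθ) h6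
      nlinarith
    have h5 : -θ * ((S.card : ℝ) - R) = -θ * S.card + θ * R := by ring
    rw [h5, Real.exp_add]
    exact mul_le_mul_of_nonneg_left h4 (Real.exp_pos _).le
  have h2 := sum_le_sum h1
  rw [← mul_sum, sum_add_distrib, ← mul_sum, sum_hit W p (Q P) hp hc, sum_const, card_range, nsmul_eq_mul,
    mul_one] at h2
  calc (∑ j ∈ range p, Real.exp (-θ * ((S.card - (hit W p S (m + Q P * j)).card : ℕ) : ℝ))) / p
      ≤ (Real.exp (-θ * S.card) * ((p : ℝ) + θ * (1 + θ * M) * S.card)) / p := by gcongr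
    _ = Real.exp (-θ * S.card) * (θ * (1 + θ * M) * S.card / p + 1) := by
      field_simp
      ring
    _ ≤ Real.exp (-θ * S.card) * Real.exp (θ * (1 + θ * M) * S.card / p) :=
      mul_le_mul_of_nonneg_left (Real.add_one_le_exp _) (Real.exp_pos _).le
    _ = _ := by
      rw [← Real.exp_add]
      congr 1
      field_simp
      ring

theorem up_exp_many (W : ℕ) (P A S : Finset ℕ) (hS : ∀ p ∈ S, p.Prime) (hP : ∀ q ∈ P, q.Prime) (hd : Disjoint S P)
    (hW : ∀ p ∈ S, W.Coprime p) (M : ℕ → ℝ) (hM : ∀ p ∈ S, 0 ≤ M p)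
    (hA : ∀ p ∈ S, ∀ r, ((A.filter (fun a => a % p = r)).card : ℝ) ≤ M p)
    (Θ : ℝ) (hΘ : ∀ p ∈ S, Θ * M p ≤ 1) :
    ∀ θ : ℝ, 0 ≤ θ → θ ≤ Θ → 
    av (S ∪ P) (fun m => Real.exp (-θ * (sv W (S ∪ P) A m).card)) ≤
      av P (fun m => Real.exp (-(θ * ∏ p ∈ S, (1 - (1 + Θ * M p) / p)) * (sv W P A m).card)) := by
  induction S using Finset.induction_on with
  | empty =>
    intro θ _ _
    simp
  | insert p S hpS ih =>
    intro θ hθ0 hθ1
    have hp := hS p (mem_insert_self _ _)
    have hp2 : (2 : ℝ) ≤ p := by exact_mod_cast hp.two_le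
    have hM0 := hM p (mem_insert_self _ _)
    have hΘM := hΘ p (mem_insert_self _ _)
    have hc0 : 0 ≤ 1 - (1 + Θ * M p) / p := by
      have : (1 + Θ * M p) / p ≤ 1 := by
        rw [div_le_one (by linarith)]
        linarith
      linarith
    have hc1 : 1 - (1 + Θ * M p) / p ≤ 1 := by
      have : 0 ≤ (1 + Θ * M p) / p := by
        have : 0 ≤ Θ * M p := mul_nonneg (hθ0.trans hθ1) hM0
        positivity
      linarith
    have hpP : p ∉ P := fun h => (disjoint_left.1 hd) (mem_insert_self _ _) h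
    have hu : insert p S ∪ P = insert p (S ∪ P) := insert_union _ _ _
    rw [hu]
    have hθM : θ * M p ≤ Θ * M p := mul_le_mul_of_nonneg_right hθ1 hM0
    have h1 := up_exp W p (S ∪ P) A hp (by
        rw [mem_union]
        tauto) (fun q hq => by
          rcases mem_union.1 hq with h | h
          · exact hS q (mem_insert_of_mem h)
          · exact hP q h) (hW p (mem_insert_self _ _)) (M p) (hA p (mem_insert_self _ _)) θ hθ0
          (hθM.trans hΘM)
    refine h1.trans ?_
    have h2 := ih (fun q hq => hS q (mem_insert_of_mem hq))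
      (disjoint_of_subset_left (subset_insert _ _) hd) (fun q hq => hW q (mem_insert_of_mem hq))
      (fun q hq => hM q (mem_insert_of_mem hq))
      (fun q hq => hA q (mem_insert_of_mem hq)) (fun q hq => hΘ q (mem_insert_of_mem hq))
      (θ * (1 - (1 + Θ * M p) / p)) (mul_nonneg hθ0 hc0)
      ((mul_le_of_le_one_right hθ0 hc1).trans hθ1)
    rw [prod_insert hpS, ← mul_assoc]
    refine le_trans (av_mono _ _ _ fun m => ?_) h2
    apply Real.exp_le_exp.2
    have h3 : θ * (1 - (1 + Θ * M p) / p) ≤ θ * (1 - (1 + θ * M p) / p) := by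
      refine mul_le_mul_of_nonneg_left ?_ hθ0
      have : (1 + θ * M p) / p ≤ (1 + Θ * M p) / p := by gcongr
      linarith
    have h4 : (0 : ℝ) ≤ (sv W (S ∪ P) A m).card := Nat.cast_nonneg _
    nlinarith [mul_le_mul_of_nonneg_right h3 h4]

end Pool.Agent.H11.Avg
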