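import Pool.Agent.H11.Link
import Pool.Agent.H11.Up
import Pool.Agent.H11.FLq

set_option autoImplicit false

/-! # The upper bound for empty windows -/

open Finset Filter Topology
open Pool.Agent.T2H32.BF (mertens)

namespace Pool.Agent.H11.Avg

theorem mertens_low : ∃ c : ℝ, 0 < c ∧ ∀ (n : ℕ) (S : Finset ℕ), 2 ≤ n → (∀ p ∈ S, p.Prime ∧ p ≤ n) →
    c / Real.log n ≤ ∏ p ∈ S, (1 - 1 / (p : ℝ)) := by
  have h1 := mertens
  have hγ : 0 < Real.exp (-Real.eulerMascheroniConstant) := Real.exp_pos _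
  have h2 := h1.eventually_const_le (u := Real.exp (-Real.eulerMascheroniConstant) / 2) (by linarith)
  obtain ⟨N, hN⟩ := eventually_atTop.1 h2
  set g := Real.exp (-Real.eulerMascheroniConstant) / 2
  have hg : 0 < g := by positivity
  have hN1 : (0 : ℝ) < N + 1 := by positivity
  have hl2 : 0 < Real.log 2 := Real.log_pos (by norm_num)
  refine ⟨min g (Real.log 2 / (N + 1)), lt_min hg (by positivity), ?_⟩
  intro n S hn hS
  have hnR : (2 : ℝ) ≤ n := by exact_mod_cast hn
  have hlog : Real.log 2 ≤ Real.log n := Real.log_le_log (by norm_num) hnR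
  have hlog0 : 0 < Real.log n := lt_of_lt_of_le hl2 hlog
  have hsub : Pool.Agent.T2H32.BF.V n ≤ ∏ p ∈ S, (1 - 1 / (p : ℝ)) := by
    unfold Pool.Agent.T2H32.BF.V
    refine Finset.prod_le_prod_of_subset_of_le_one ?_ ?_ ?_
    · intro p hp
      rw [mem_filter, mem_range]
      exact ⟨by have := (hS p hp).2; omega, (hS p hp).1⟩
    · intro p hp
      linarith [half_prime p (mem_filter.1 hp).2]
    · intro p hp _
      have : 0 ≤ 1 / (p : ℝ) := by positivity
      linarith
  refine le_trans ?_ hsub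
  rw [div_le_iff₀ hlog0]
  rcases le_or_gt N n with h | h
  · exact (min_le_left _ _).trans (hN n h)
  · refine (min_le_right _ _).trans ?_
    have h3 : 1 / (n : ℝ) ≤ Pool.Agent.T2H32.BF.V n := by
      unfold Pool.Agent.T2H32.BF.V
      refine prod_crude n (by omega) _ fun p hp => ?_
      rw [mem_filter, mem_range] at hp
      exact ⟨hp.2, by omega⟩
    have h4 : (n : ℝ) ≤ N + 1 := by
      have : (n : ℝ) ≤ N := by exact_mod_cast h.le
      linarith
    calc Real.log 2 / (N + 1) ≤ Real.log n / n := by gcongr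
      _ = 1 / (n : ℝ) * Real.log n := by ring
      _ ≤ _ := mul_le_mul_of_nonneg_right h3 hlog0.le

theorem card_class_le (h p r : ℕ) (hp : 0 < p) :
    (((Icc 1 h).filter (fun a => a % p = r)).card : ℝ) ≤ h / p + 1 := by
  have h1 := Pool.Agent.T2H32.GM.cls p hp r 0 h
  have h2 := (abs_le.1 h1).2
  rw [zero_add] at h2
  have h3 : ((Icc 1 h).filter (fun a => a % p = r)).card ≤ ((Ioc 0 h).filter (fun n => n ≡ r [MOD p])).card := by
    refine card_le_card fun a ha => ?_
    rw [mem_filter, mem_Icc] at ha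
    rw [mem_filter, mem_Ioc]
    refine ⟨by omega, ?_⟩
    rw [← ha.2]
    exact (Nat.mod_modEq a p).symm
  have h4 : (((Icc 1 h).filter (fun a => a % p = r)).card : ℝ) ≤
      ((Ioc 0 h).filter (fun n => n ≡ r [MOD p])).card := by exact_mod_cast h3
  linarith

/-- **The upper bound**, in all ranges. -/
theorem upper_gen (ε : ℝ) (hε : 0 < ε) (hε1 : ε ≤ 1) : ∃ K : ℕ, 1 ≤ K ∧ ∀ q h : ℕ, q ≠ 0 → K ≤ h →
    ∀ x : ℝ, 0 ≤ x → x ^ K ≤ h →
    V q h ≤ Real.exp (-(min ((1 - ε) * (h * ((q.totient : ℝ) / q))) x)) := by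
  obtain ⟨C0, hC0, hfl⟩ := flq
  obtain ⟨c, hc, hmer⟩ := mertens_low
  obtain ⟨n0, hn0⟩ := exists_pow_lt_of_lt_one (show (0 : ℝ) < ε / 8 by positivity) (show (1 / 2 : ℝ) < 1 by norm_num)
  set b := max C0 n0 with hb
  have hb8 : (1 / 2 : ℝ) ^ b ≤ ε / 8 :=
    (pow_le_pow_of_le_one (by norm_num) (by norm_num) (le_max_right _ _)).trans hn0.le
  obtain ⟨K1, hK1, hfl1⟩ := hfl b (le_max_left _ _)
  set E := 4 * C0 * b + 1 with hE
  set D := E + 2 with hD
  have hD1 : 3 ≤ D := by omega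
  have hDR : (3 : ℝ) ≤ D := by exact_mod_cast hD1
  set c' := c / (8 * D) with hc'
  have hc'0 : 0 < c' := by positivity
  obtain ⟨t0, ht0⟩ := exists_nat_ge (max 2 (max (64 / (c' * ε)) (16 * K1 / ε)))
  have ht02 : (2 : ℝ) ≤ t0 := (le_max_left _ _).trans ht0
  have ht0a : 64 / (c' * ε) ≤ t0 := (le_max_left _ _).trans ((le_max_right _ _).trans ht0)
  have ht0b : 16 * K1 / ε ≤ t0 := (le_max_right _ _).trans ((le_max_right _ _).trans ht0)
  have ht0n : 2 ≤ t0 := by exact_mod_cast ht02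
  refine ⟨t0 ^ (8 * D) + 8 * D, by omega, ?_⟩
  intro q h hq hh x hx0 hxK
  set K := t0 ^ (8 * D) + 8 * D with hK
  set lam := (h : ℝ) * ((q.totient : ℝ) / q) with hlamdef
  have hlam0 : 0 ≤ lam := by positivity
  -- the scale
  have hh1 : 1 ≤ h := by
    have : 1 ≤ t0 ^ (8 * D) := Nat.one_le_pow _ _ (by omega)
    omega
  have hhR : (1 : ℝ) ≤ h := by exact_mod_cast hh1
  have hh0 : (0 : ℝ) ≤ h := by linarith
  set t := (h : ℝ) ^ (1 / (8 * D) : ℝ) with ht
  have ht_pow : t ^ (8 * D) = h := by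
    rw [ht, ← Real.rpow_natCast, ← Real.rpow_mul hh0]
    push_cast
    rw [one_div, inv_mul_cancel₀ (by positivity), Real.rpow_one]
  have htt0 : (t0 : ℝ) ≤ t := by
    have h1 : (t0 : ℝ) ^ (8 * D) ≤ t ^ (8 * D) := by
      rw [ht_pow]
      have : t0 ^ (8 * D) ≤ h := by omega
      exact_mod_cast this
    exact le_of_pow_le_pow_left₀ (by omega) (by positivity) h1
  have ht2 : 2 ≤ t := ht02.trans htt0
  have ht1 : 1 ≤ t := by linarith
  have hta : 64 ≤ c' * ε * t := by
    have h1 := ht0a.trans htt0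
    rw [div_le_iff₀ (by positivity)] at h1
    linarith
  have htb : 16 * K1 ≤ ε * t := by
    have h1 := ht0b.trans htt0
    rw [div_le_iff₀ hε] at h1
    linarith
  -- x ≤ t
  have hlt : x ≤ t := by
    have h1 : x ^ K ≤ t ^ K := by
      refine hxK.trans ?_
      rw [← ht_pow]
      exact pow_le_pow_right₀ ht1 (by omega)
    exact le_of_pow_le_pow_left₀ (by omega) (by positivity) h1
  -- the sieving limit
  set w := ⌊t ^ 8⌋₊ with hw
  have hw1 : (w : ℝ) ≤ t ^ 8 := Nat.floor_le (by positivity)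
  have ht8 : t ≤ t ^ 8 / 2 := by
    have h1 : t * 2 ≤ t * t ^ 7 := by
      refine mul_le_mul_of_nonneg_left ?_ (by linarith)
      calc (2 : ℝ) ≤ t := ht2
        _ = t ^ 1 := (pow_one t).symm
        _ ≤ t ^ 7 := pow_le_pow_right₀ ht1 (by norm_num)
    have h2 : t * t ^ 7 = t ^ 8 := by ring
    linarith
  have hw2 : t ^ 8 / 2 ≤ w := by
    have := Nat.lt_floor_add_one (t ^ 8)
    rw [← hw] at this
    have h1 : 2 ≤ t ^ 8 / 2 := ht2.trans ht8
    linarith
  have hw0 : (0 : ℝ) < w := by linarith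
  have hwn : 1 ≤ w := by exact_mod_cast (show (0 : ℝ) < w from hw0)
  have hwh : (w : ℝ) ^ D ≤ h := by
    calc (w : ℝ) ^ D ≤ (t ^ 8) ^ D := by gcongr
      _ = h := by rw [← pow_mul, ht_pow]
  have hwleh : w ≤ h := by
    have h1 : (w : ℝ) ≤ (w : ℝ) ^ D := by
      refine le_self_pow₀ (by exact_mod_cast hwn) (by omega)
    exact_mod_cast h1.trans hwh
  -- the sets of primes
  set P := q.primeFactors with hP
  have hPp : ∀ p ∈ P, p.Prime := fun p hp => Nat.prime_of_mem_primeFactors hp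
  set PH := P.filter (fun p => h < p) with hPH
  set PX := P.filter (fun p => ¬ h < p) with hPX
  set PM := PX.filter (fun p => w < p) with hPM
  set PL := PX.filter (fun p => ¬ w < p) with hPL
  have hPHp : ∀ p ∈ PH, p.Prime := fun p hp => hPp p (mem_filter.1 hp).1
  have hPXp : ∀ p ∈ PX, p.Prime := fun p hp => hPp p (mem_filter.1 hp).1
  have hPMp : ∀ p ∈ PM, p.Prime := fun p hp => hPXp p (mem_filter.1 hp).1
  have hPLp : ∀ p ∈ PL, p.Prime := fun p hp => hPXp p (mem_filter.1 hp).1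
  have hPXeq : PM ∪ PL = PX := filter_union_filter_not_eq _ _
  have hPeq : PH ∪ PX = P := filter_union_filter_not_eq _ _
  have hd1 : Disjoint PH PX := disjoint_filter_filter_not _ _ _
  have hd2 : Disjoint PM PL := disjoint_filter_filter_not _ _ _
  set ρ := ∏ p ∈ PH, (1 - 1 / (p : ℝ)) with hρ
  set PiM := ∏ p ∈ PM, (1 - 1 / (p : ℝ)) with hPiM
  set PiL := ∏ p ∈ PL, (1 - 1 / (p : ℝ)) with hPiL
  have hρ0 : 0 < ρ := prod_pos' _ hPHp
  have hρ1 : ρ ≤ 1 := prod_le_one (fun p hp => by linarith [half_prime p (hPHp p hp)])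
    fun p _ => by
      have : 0 ≤ 1 / (p : ℝ) := by positivity
      linarith
  have hPiM0 : 0 < PiM := prod_pos' _ hPMp
  have hPiL0 : 0 < PiL := prod_pos' _ hPLp
  have hprod : (q.totient : ℝ) / q = ρ * (PiM * PiL) := by
    rw [totient_prod q hq, ← hP, ← hPeq, prod_union hd1, ← hPXeq, prod_union hd2]
  have hlam2 : lam = h * ρ * (PiM * PiL) := by rw [hlamdef, hprod]; ring
  -- Mertens
  have hh2 : 2 ≤ h := by
    have h1 : (2 : ℝ) ≤ h := by
      rw [← ht_pow]
      calc (2 : ℝ) ≤ t := ht2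
        _ ≤ t ^ (8 * D) := le_self_pow₀ ht1 (by omega)
    exact_mod_cast h1
  have hML : c' / t ≤ PiM * PiL := by
    have h1 := hmer h PX hh2 (fun p hp => ⟨hPXp p hp, by have := (mem_filter.1 hp).2; omega⟩)
    rw [← hPXeq, prod_union hd2] at h1
    refine le_trans ?_ h1
    have h2 : Real.log h ≤ 8 * D * t := by
      rw [← ht_pow, Real.log_pow]
      push_cast
      have : Real.log t ≤ t := by
        have := Real.log_le_sub_one_of_pos (show 0 < t by linarith)
        linarith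
      gcongr
    have h3 : 0 < Real.log h := Real.log_pos (by exact_mod_cast hh2)
    rw [hc', div_div]
    gcongr
  set θ := min ρ (ε * w / (32 * h)) with hθ
  have hθ0 : 0 < θ := lt_min hρ0 (by positivity)
  have hθρ : θ ≤ ρ := min_le_left _ _
  have hκw : 4 * (θ * h) ≤ ε / 8 * w := by
    have h1 : θ ≤ ε * w / (32 * h) := min_le_right _ _
    calc 4 * (θ * h) ≤ 4 * (ε * w / (32 * h) * h) := by gcongr
      _ = ε / 8 * w := by field_simp; ring
  -- first step: the primes above `h`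
  have step1 : V q h ≤ av PX (fun m => Real.exp (-θ * (sv 1 PX (Icc 1 h) m).card)) := by
    rw [V_eq_av q h hq, ← hP, ← hPeq]
    have h1 := up_many 1 PX (Icc 1 h) PH hPHp hPXp hd1 (fun p _ => Nat.coprime_one_left p)
      (fun p hp a ha b' hb' hab => by
        have h2 := (mem_filter.1 hp).2
        rw [mem_Icc] at ha hb'
        rwa [Nat.mod_eq_of_lt (by omega), Nat.mod_eq_of_lt (by omega)] at hab) 1 zero_le_one le_rfl
    rw [sub_self] at h1
    refine h1.trans (av_mono _ _ _ fun m => ?_)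
    rw [one_mul, ← hρ]
    have h2 : 1 - ρ ≤ Real.exp (-θ) := by linarith [Real.add_one_le_exp (-θ)]
    calc (1 - ρ) ^ (sv 1 PX (Icc 1 h) m).card ≤ (Real.exp (-θ)) ^ (sv 1 PX (Icc 1 h) m).card :=
          pow_le_pow_left₀ (by linarith) h2 _
      _ = _ := by
        rw [← Real.exp_nat_mul]
        congr 1
        ring
  -- second step: the primes between `w` and `h`
  have hM1 : ∀ p ∈ PM, θ * (2 * h / p) ≤ 1 := by
    intro p hp
    have hp0 : (w : ℝ) < p := by exact_mod_cast (mem_filter.1 hp).2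
    have hp1 : (0 : ℝ) < p := by linarith
    rw [mul_div_assoc', div_le_one hp1]
    have h1 : ε / 8 * w ≤ w := by nlinarith
    nlinarith
  have step2 : av PX (fun m => Real.exp (-θ * (sv 1 PX (Icc 1 h) m).card)) ≤
      av PL (fun m => Real.exp (-(θ * ∏ p ∈ PM, (1 - (1 + θ * (2 * h / p)) / p)) *
        (sv 1 PL (Icc 1 h) m).card)) := by
    have h1 := up_exp_many 1 PL (Icc 1 h) PM hPMp hPLp hd2 (fun p _ => Nat.coprime_one_left p)
      (fun p => 2 * h / p) (fun p _ => by positivity) (fun p hp r => by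
        have hp1 := (hPMp p hp).pos
        refine (card_class_le h p r hp1).trans ?_
        have hp0 : (0 : ℝ) < p := by exact_mod_cast hp1
        have h2 : (p : ℝ) ≤ h := by
          have := (mem_filter.1 (mem_filter.1 hp).1).2
          exact_mod_cast (not_lt.1 this)
        have h3 : 1 ≤ (h : ℝ) / p := by rw [one_le_div hp0]; exact h2
        have h4 : 2 * (h : ℝ) / p = h / p + h / p := by ring
        rw [h4]
        linarith) θ hM1 θ hθ0.le le_rfl
    rw [hPXeq] at h1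
    exact h1
  -- the product over the middle primes
  have hmid : (1 - ε / 8) * PiM ≤ ∏ p ∈ PM, (1 - (1 + θ * (2 * h / p)) / p) := by
    have h1 : PiM * ∏ p ∈ PM, (1 - 4 * (θ * h) / (p : ℝ) ^ 2) ≤ ∏ p ∈ PM, (1 - (1 + θ * (2 * h / p)) / p) := by
      rw [hPiM, ← prod_mul_distrib]
      refine prod_le_prod (fun p hp => ?_) fun p hp => ?_
      · have hp0 : (w : ℝ) < p := by exact_mod_cast (mem_filter.1 hp).2
        have h2 : 0 ≤ 1 - 1 / (p : ℝ) := by linarith [half_prime p (hPMp p hp)]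
        refine mul_nonneg h2 ?_
        have h3 : 4 * (θ * h) / (p : ℝ) ^ 2 ≤ 1 := by
          have hp1 : (0 : ℝ) < p := by linarith
          rw [div_le_one (by positivity)]
          have h4 : ε / 8 * w ≤ w := by nlinarith
          have h5 : (1 : ℝ) ≤ p := by exact_mod_cast (hPMp p hp).one_le
          nlinarith
        linarith
      · have h2 := half_prime p (hPMp p hp)
        have hp1 : (0 : ℝ) < p := by exact_mod_cast (hPMp p hp).pos
        have e1 : (1 - (1 + θ * (2 * h / p)) / p) = 1 - 1 / (p : ℝ) - 2 * (θ * h) / (p : ℝ) ^ 2 := by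
          field_simp
          ring
        have e2 : (1 - 1 / (p : ℝ)) * (1 - 4 * (θ * h) / (p : ℝ) ^ 2) =
          1 - 1 / (p : ℝ) - (1 - 1 / (p : ℝ)) * (4 * (θ * h) / (p : ℝ) ^ 2) := by ring
        rw [e1, e2]
        have h3 : 0 ≤ 4 * (θ * h) / (p : ℝ) ^ 2 := by positivity
        have h4 : 1 / 2 * (4 * (θ * h) / (p : ℝ) ^ 2) ≤ (1 - 1 / (p : ℝ)) * (4 * (θ * h) / (p : ℝ) ^ 2) :=
          mul_le_mul_of_nonneg_right (by linarith) h3
        have e3 : 1 / 2 * (4 * (θ * h) / (p : ℝ) ^ 2) = 2 * (θ * h) / (p : ℝ) ^ 2 := by ring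
        linarith
    refine le_trans ?_ h1
    rw [mul_comm]
    refine mul_le_mul_of_nonneg_left ?_ hPiM0.le
    refine le_trans ?_ (prod_one_sub PM _ (fun p _ => by positivity) fun p hp => by
      have hp0 : (w : ℝ) < p := by exact_mod_cast (mem_filter.1 hp).2
      have hp1 : (0 : ℝ) < p := by linarith
      rw [div_le_one (by positivity)]
      have h4 : ε / 8 * w ≤ w := by nlinarith
      have h5 : (1 : ℝ) ≤ p := by exact_mod_cast (hPMp p hp).one_le
      nlinarith)
    have h2 : ∑ p ∈ PM, 4 * (θ * h) / (p : ℝ) ^ 2 = 4 * (θ * h) * ∑ p ∈ PM, ((p : ℝ) ^ 2)⁻¹ := by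
      rw [mul_sum]
      rfl
    rw [h2]
    have h3 := sum_sq_le PM w (by omega) (fun n hn => (mem_filter.1 hn).2)
    have h4 : 4 * (θ * h) * ∑ p ∈ PM, ((p : ℝ) ^ 2)⁻¹ ≤ 4 * (θ * h) * (w : ℝ)⁻¹ :=
      mul_le_mul_of_nonneg_left h3 (by positivity)
    have h5 : 4 * (θ * h) * (w : ℝ)⁻¹ ≤ ε / 8 * w * (w : ℝ)⁻¹ :=
      mul_le_mul_of_nonneg_right hκw (by positivity)
    have h6 : ε / 8 * w * (w : ℝ)⁻¹ = ε / 8 := by field_simp
    linarith
  -- third step: the small primes
  have hcount : ∀ m, (1 - ε / 4) * (h * PiL) ≤ ((sv 1 PL (Icc 1 h) m).card : ℝ) := by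
    intro m
    have h1 := hfl1 w PL m h hwn (fun p hp => ⟨hPLp p hp, by have := (mem_filter.1 hp).2; omega⟩)
    have h2 := (abs_le.1 h1).1
    have h3 : ((Ioc m (m + h)).filter (fun n => ∀ p ∈ PL, ¬ p ∣ n)).card = (sv 1 PL (Icc 1 h) m).card := by
      refine (card_bij (fun a _ => m + a) ?_ ?_ ?_).symm
      · intro a ha
        unfold sv at ha
        rw [mem_filter, mem_Icc, one_mul] at ha
        rw [mem_filter, mem_Ioc]
        exact ⟨by omega, ha.2⟩
      · intro a _ a' _ h4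
        omega
      · intro n hn
        rw [mem_filter, mem_Ioc] at hn
        refine ⟨n - m, ?_, by omega⟩
        unfold sv
        rw [mem_filter, mem_Icc, one_mul]
        have : m + (n - m) = n := by omega
        rw [this]
        exact ⟨by omega, hn.2⟩
    rw [h3] at h2
    have h4 : K1 * (w : ℝ) ^ E ≤ ε / 8 * (h * PiL) := by
      have h5 : 1 / (w : ℝ) ≤ PiL := prod_crude w hwn PL fun p hp =>
        ⟨hPLp p hp, by have := (mem_filter.1 hp).2; omega⟩
      have h6 : K1 ≤ ε / 8 * w := by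
        have : ε / 8 * (t ^ 8 / 2) ≤ ε / 8 * w := by gcongr
        have h7 : ε / 8 * t ≤ ε / 8 * (t ^ 8 / 2) := by gcongr
        linarith
      calc K1 * (w : ℝ) ^ E ≤ ε / 8 * w * (w : ℝ) ^ E := by gcongr
        _ = ε / 8 * ((w : ℝ) ^ D * (1 / w)) := by
          rw [hD]
          field_simp
          ring
        _ ≤ ε / 8 * (h * PiL) := by gcongr
    have h5 : (1 / 2 : ℝ) ^ b * (h * PiL) ≤ ε / 8 * (h * PiL) := by gcongr
    rw [← hPiL] at h2
    linarith
  have step3 : av PL (fun m => Real.exp (-(θ * ∏ p ∈ PM, (1 - (1 + θ * (2 * h / p)) / p)) *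
        (sv 1 PL (Icc 1 h) m).card)) ≤ Real.exp (-(min ((1 - ε) * lam) x)) := by
    refine le_trans (av_mono PL _ (fun _ => Real.exp (-(min ((1 - ε) * lam) x))) fun m => ?_)
      (le_of_eq (av_const PL hPLp _))
    apply Real.exp_le_exp.2
    rw [neg_mul, neg_le_neg_iff]
    have h1 : θ * ((1 - ε / 8) * PiM) ≤ θ * ∏ p ∈ PM, (1 - (1 + θ * (2 * h / p)) / p) :=
      mul_le_mul_of_nonneg_left hmid hθ0.le
    have h2 := hcount m
    have h3 : 0 ≤ θ * ((1 - ε / 8) * PiM) := mul_nonneg hθ0.le (mul_nonneg (by linarith) hPiM0.le)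
    have h4 : θ * ((1 - ε / 8) * PiM) * ((1 - ε / 4) * (h * PiL)) ≤
        (θ * ∏ p ∈ PM, (1 - (1 + θ * (2 * h / p)) / p)) * (sv 1 PL (Icc 1 h) m).card := by
      refine mul_le_mul h1 h2 (mul_nonneg (by linarith) (by positivity)) (h3.trans h1)
    refine le_trans ?_ h4
    have e : θ * ((1 - ε / 8) * PiM) * ((1 - ε / 4) * (h * PiL)) =
        ((1 - ε / 8) * (1 - ε / 4)) * (θ * h * (PiM * PiL)) := by
      ring
    rw [e]
    rcases min_choice ρ (ε * w / (32 * h)) with h5 | h5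
    · refine (min_le_left _ _).trans ?_
      rw [hθ, h5]
      have e2 : ρ * h * (PiM * PiL) = lam := by rw [hlam2]; ring
      rw [e2]
      refine mul_le_mul_of_nonneg_right ?_ hlam0
      nlinarith
    · refine (min_le_right _ _).trans (hlt.trans ?_)
      rw [hθ, h5]
      have e3 : ε * w / (32 * h) * h = ε * w / 32 := by field_simp
      rw [e3]
      have h6 : 1 / 2 ≤ (1 - ε / 8) * (1 - ε / 4) := by nlinarith
      have h7 : ε * (t ^ 8 / 2) / 32 * (c' / t) ≤ ε * w / 32 * (PiM * PiL) := by gcongr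
      have h8 : ε * (t ^ 8 / 2) / 32 * (c' / t) = c' * ε * t * t ^ 6 / 64 := by
        field_simp
        ring
      have h9 : t ^ 6 ≤ ε * w / 32 * (PiM * PiL) := by
        rw [h8] at h7
        refine le_trans ?_ h7
        have h10 : 64 * t ^ 6 ≤ c' * ε * t * t ^ 6 := mul_le_mul_of_nonneg_right hta (by positivity)
        linarith
      have h10 : 2 * t ≤ t ^ 6 := by
        calc 2 * t ≤ t * t := mul_le_mul_of_nonneg_right ht2 (by linarith)
          _ = t ^ 2 := by ring
          _ ≤ t ^ 6 := pow_le_pow_right₀ ht1 (by norm_num)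
      have h11 : 1 / 2 * (2 * t) ≤ (1 - ε / 8) * (1 - ε / 4) * (ε * w / 32 * (PiM * PiL)) :=
        mul_le_mul h6 (h10.trans h9) (by linarith) (by linarith)
      linarith
  exact step1.trans (step2.trans step3)

theorem upper (ε : ℝ) (hε : 0 < ε) (hε1 : ε ≤ 1) : ∃ K : ℕ, 1 ≤ K ∧ ∀ q h : ℕ, q ≠ 0 → K ≤ h →
    (h * ((q.totient : ℝ) / q)) ^ K ≤ h →
    V q h ≤ Real.exp (-((1 - ε) * (h * ((q.totient : ℝ) / q)))) := by
  obtain ⟨K, hK, h1⟩ := upper_gen ε hε hε1
  refine ⟨K, hK, fun q h hq hh hl => ?_⟩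
  have h0 : 0 ≤ (h : ℝ) * ((q.totient : ℝ) / q) := by positivity
  have h2 := h1 q h hq hh _ h0 hl
  rwa [min_eq_left (mul_le_of_le_one_left h0 (by linarith))] at h2

end Pool.Agent.H11.Avg
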