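import Pool.Graph.R_seed8.Y882.JR.Core5
import Pool.Graph.R_seed8.W378.DC.MP
import Pool.Agent.H11.UpMain

set_option autoImplicit false

/-! # The linear sieve for arbitrary subsets of the primes -/

open Finset Filter Topology
open Pool.Agent.Y882 (VV PZ)
open Pool.Agent.W23.DC (Mer pr tt SF)

namespace Pool.Agent.H11.Lin

/-- weight of a set -/
noncomputable def X (P : Finset ℕ) (h : ℕ → ℝ) (S : Finset ℕ) : ℝ := (∏ p ∈ S, h p) * ∏ p ∈ P \ S, (1 - h p)

theorem X_sum (P T : Finset ℕ) (hT : T ⊆ P) (h : ℕ → ℝ) :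
    ∑ S ∈ P.powerset.filter (fun S => T ⊆ S), X P h S = ∏ p ∈ T, h p := by
  have h1 : ∑ S ∈ P.powerset.filter (fun S => T ⊆ S), X P h S =
      ∑ U ∈ (P \ T).powerset, (∏ p ∈ T, h p) * ((∏ p ∈ U, h p) * ∏ p ∈ (P \ T) \ U, (1 - h p)) := by
    symm
    refine sum_nbij' (fun U => T ∪ U) (fun S => S \ T) ?_ ?_ ?_ ?_ ?_
    · intro U hU
      rw [mem_powerset] at hU
      rw [mem_filter, mem_powerset]
      exact ⟨union_subset hT (hU.trans sdiff_subset), subset_union_left⟩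
    · intro S hS
      rw [mem_filter, mem_powerset] at hS
      rw [mem_powerset]
      exact sdiff_subset_sdiff hS.1 (Subset.refl _)
    · intro U hU
      rw [mem_powerset] at hU
      have hd : Disjoint T U := disjoint_of_subset_right hU disjoint_sdiff
      exact union_sdiff_cancel_left hd
    · intro S hS
      rw [mem_filter, mem_powerset] at hS
      exact union_sdiff_of_subset hS.2
    · intro U hU
      rw [mem_powerset] at hU
      have hd : Disjoint T U := disjoint_of_subset_right hU disjoint_sdiff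
      unfold X
      rw [prod_union hd, sdiff_sdiff_left, mul_assoc]
      rfl
  rw [h1, ← mul_sum, ← prod_add]
  simp

theorem VV_eq (P : Finset ℕ) (w : Finset ℕ → ℝ) (h : ℕ → ℝ) :
    VV P w h = ∑ S ∈ P.powerset, (∑ T ∈ S.powerset, w T) * X P h S := by
  have h1 : ∑ S ∈ P.powerset, (∑ T ∈ S.powerset, w T) * X P h S =
      ∑ T ∈ P.powerset, ∑ S ∈ P.powerset.filter (fun S => T ⊆ S), w T * X P h S := by
    simp_rw [sum_mul]
    refine sum_comm' ?_
    intro S T
    simp only [mem_powerset, mem_filter]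
    constructor
    · rintro ⟨h1, h2⟩
      exact ⟨⟨h1, h2⟩, h2.trans h1⟩
    · rintro ⟨⟨h1, h2⟩, _⟩
      exact ⟨h1, h2⟩
  rw [h1]
  unfold VV
  refine sum_congr rfl fun T hT => ?_
  rw [← mul_sum, X_sum P T (mem_powerset.1 hT)]

/-- the ratio of a lower bound sieve to the product increases when the densities decrease -/
theorem ratio (P : Finset ℕ) (w : Finset ℕ → ℝ) (h h' : ℕ → ℝ)
    (hw : ∀ S ⊆ P, S.Nonempty → ∑ T ∈ S.powerset, w T ≤ 0)
    (h0 : ∀ p ∈ P, 0 ≤ h' p) (hle : ∀ p ∈ P, h' p ≤ h p) (h1 : ∀ p ∈ P, h p ≤ 1) :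
    VV P w h * ∏ p ∈ P, (1 - h' p) ≤ VV P w h' * ∏ p ∈ P, (1 - h p) := by
  rw [VV_eq, VV_eq, sum_mul, sum_mul]
  refine sum_le_sum fun S hS => ?_
  have hSP := mem_powerset.1 hS
  rcases S.eq_empty_or_nonempty with he | hne
  · subst he
    unfold X
    simp only [prod_empty, one_mul, sdiff_empty]
    refine le_of_eq ?_
    ring
  · have h2 := hw S hSP hne
    have h3 : X P h' S * ∏ p ∈ P, (1 - h p) ≤ X P h S * ∏ p ∈ P, (1 - h' p) := by
      unfold X
      rw [← prod_sdiff hSP, ← prod_sdiff hSP (f := fun p => 1 - h' p)]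
      have e1 : ((∏ p ∈ S, h' p) * ∏ p ∈ P \ S, (1 - h' p)) * ((∏ p ∈ P \ S, (1 - h p)) * ∏ p ∈ S, (1 - h p)) =
        ((∏ p ∈ P \ S, (1 - h' p)) * ∏ p ∈ P \ S, (1 - h p)) * ∏ p ∈ S, (h' p * (1 - h p)) := by
        rw [prod_mul_distrib]
        ring
      have e2 : ((∏ p ∈ S, h p) * ∏ p ∈ P \ S, (1 - h p)) * ((∏ p ∈ P \ S, (1 - h' p)) * ∏ p ∈ S, (1 - h' p)) =
        ((∏ p ∈ P \ S, (1 - h' p)) * ∏ p ∈ P \ S, (1 - h p)) * ∏ p ∈ S, (h p * (1 - h' p)) := by
        rw [prod_mul_distrib]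
        ring
      rw [e1, e2]
      refine mul_le_mul_of_nonneg_left ?_ ?_
      · refine prod_le_prod (fun p hp => ?_) fun p hp => ?_
        · have := h1 p (hSP hp)
          exact mul_nonneg (h0 p (hSP hp)) (by linarith)
        · have := hle p (hSP hp)
          nlinarith
      · refine mul_nonneg (prod_nonneg fun p hp => ?_) (prod_nonneg fun p hp => ?_)
        · have hp' := sdiff_subset hp
          linarith [h1 p hp', hle p hp']
        · have hp' := sdiff_subset hp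
          linarith [h1 p hp']
    have h4 := mul_le_mul_of_nonpos_left h3 h2
    rw [mul_assoc, mul_assoc]
    exact h4

open Classical in
theorem linear (ζ : ℝ) (hζ : 1 / 4 ≤ ζ) (hζ1 : ζ < 1 / 2) : ∃ c : ℝ, 0 < c ∧ ∃ h0 : ℕ, ∀ h : ℕ, h0 ≤ h →
    ∀ P : Finset ℕ, (∀ p ∈ P, p.Prime ∧ p ≤ h ∧ tt h p < ζ) → ∀ k : ℕ,
    c * (h * ∏ p ∈ P, (1 - 1 / (p : ℝ))) ≤
      (((Ioc k (k + h)).filter (fun n => ∀ p ∈ P, ¬ p ∣ n)).card : ℝ) := by
  obtain ⟨A0, F, f, hSF⟩ := Pool.Agent.W366.DC.SFX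
  set τ := ζ + 1 / 2 with hτ
  set τ' := (τ + 1) / 2 with hτ'
  have hζ0 : 0 < ζ := by linarith
  have hs2 : 2 < τ / ζ := by
    rw [lt_div_iff₀ hζ0]
    linarith
  have hs3 : τ / ζ ≤ 3 := by
    rw [div_le_iff₀ hζ0]
    linarith
  have hf : 0 < f (τ / ζ) := by
    rw [hSF.f4 _ hs2.le (by linarith)]
    have h1 : 0 < Real.log (τ / ζ - 1) := Real.log_pos (by linarith)
    have := hSF.pos
    positivity
  set φ := f (τ / ζ) with hφ
  obtain ⟨ε₁, η, hε₁, hεζ, hη, Y0, hY0⟩ := Pool.Agent.Y882.JR.core5 1 A0 F f hSF τ ζ τ' (φ / 2) hζ0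
    (by linarith) (by linarith) (by linarith) (by positivity)
  obtain ⟨N0, hN0⟩ := Pool.Agent.W378.DC.MP ε₁ η hε₁ hη
  obtain ⟨c, hc, hmer⟩ := Avg.mertens_low
  -- the remainder is small
  have hrem : ∀ᶠ h : ℕ in atTop, 5 * Real.log h * (h : ℝ) ^ τ' ≤ φ / 4 * (h * (c / Real.log h)) := by
    have h1 : Tendsto (fun y : ℝ => Real.log y ^ (2 : ℝ) / y ^ (1 - τ')) atTop (𝓝 0) :=
      (isLittleO_log_rpow_rpow_atTop 2 (by linarith)).tendsto_div_nhds_zero
    have h2 := (h1.comp tendsto_natCast_atTop_atTop (α := ℕ)).eventually_le_const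
      (show (0 : ℝ) < φ / 4 * c / 5 by positivity)
    filter_upwards [h2, eventually_ge_atTop 2] with h h3 h4
    have hhR : (2 : ℝ) ≤ h := by exact_mod_cast h4
    have hlog : 0 < Real.log h := Real.log_pos (by linarith)
    simp only [Function.comp_apply] at h3
    have hp : 0 < (h : ℝ) ^ (1 - τ') := by positivity
    rw [div_le_iff₀ hp] at h3
    have e1 : Real.log h ^ (2 : ℝ) = Real.log h * Real.log h := by
      rw [show (2 : ℝ) = ((2 : ℕ) : ℝ) by norm_num, Real.rpow_natCast]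
      ring
    rw [e1] at h3
    have e2 : (h : ℝ) = (h : ℝ) ^ (1 - τ') * (h : ℝ) ^ τ' := by
      rw [← Real.rpow_add (by linarith)]
      simp
    have e3 : φ / 4 * (h * (c / Real.log h)) = (φ / 4 * c / 5 * (h : ℝ) ^ (1 - τ')) * (5 * (h : ℝ) ^ τ') / Real.log h := by
      have e4 : (φ / 4 * c / 5 * (h : ℝ) ^ (1 - τ')) * (5 * (h : ℝ) ^ τ') / Real.log h =
        φ / 4 * c * ((h : ℝ) ^ (1 - τ') * (h : ℝ) ^ τ') / Real.log h := by ring
      rw [e4, ← e2]
      ring
    rw [e3, le_div_iff₀ hlog]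
    calc 5 * Real.log h * (h : ℝ) ^ τ' * Real.log h = (Real.log h * Real.log h) * (5 * (h : ℝ) ^ τ') := by ring
      _ ≤ _ := by gcongr
  have hsmallp : ∀ᶠ h : ℕ in atTop, (2 : ℝ) < (h : ℝ) ^ ε₁ :=
    ((tendsto_rpow_atTop hε₁).comp tendsto_natCast_atTop_atTop).eventually_gt_atTop 2
  obtain ⟨h1, hh1⟩ := eventually_atTop.1 (hrem.and (hsmallp.and (eventually_ge_atTop 3)))
  refine ⟨φ / 4, by positivity, max (max Y0 N0) h1, ?_⟩
  intro h hh P hP k
  obtain ⟨hr1, hr2, hr3⟩ := hh1 h ((le_max_right _ _).trans hh)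
  have hhY : Y0 ≤ h := (le_max_left _ _).trans ((le_max_left _ _).trans hh)
  have hhN : N0 ≤ h := (le_max_right _ _).trans ((le_max_left _ _).trans hh)
  have hhR : (3 : ℝ) ≤ h := by exact_mod_cast hr3
  have hlogh : 0 < Real.log h := Real.log_pos (by linarith)
  obtain ⟨wU, wL, hw1, hw2, hw3, hw4⟩ := hY0 h hhY
  set Z := PZ h ζ with hZ
  have hZp : ∀ p ∈ Z, p.Prime := fun p hp => (mem_filter.1 hp).2.1
  have hPZ : P ⊆ Z := by
    intro p hp
    obtain ⟨h2, h3, h4⟩ := hP p hp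
    rw [hZ, PZ, mem_filter, mem_Icc]
    exact ⟨⟨h2.one_le, h3⟩, h2, h4⟩
  -- the universal weights are non-positive on nonempty sets
  have hθ : ∀ S ⊆ Z, ∑ T ∈ S.powerset, wL T ≤ if S = ∅ then 1 else 0 := by
    intro S hS
    have h2 := (hw3 (∏ p ∈ S, p)).1
    have hmem : ∀ p ∈ Z, (p ∣ ∏ q ∈ S, q) ↔ p ∈ S := by
      intro p hp
      constructor
      · intro hd
        obtain ⟨q, hq, hd2⟩ := (Prime.dvd_finsetProd_iff (hZp p hp).prime _).1 hd
        rw [(Nat.prime_dvd_prime_iff_eq (hZp p hp) (hZp q (hS hq))).1 hd2]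
        exact hq
      · intro hpS
        exact dvd_prod_of_mem _ hpS
    have e1 : VV Z wL (fun p => if p ∣ ∏ q ∈ S, q then 1 else 0) = ∑ T ∈ S.powerset, wL T := by
      unfold VV
      rw [← sum_subset (powerset_mono.2 hS)]
      · refine sum_congr rfl fun T hT => ?_
        rw [mem_powerset] at hT
        rw [prod_congr rfl (fun p hp => if_pos ((hmem p (hS (hT hp))).2 (hT hp)))]
        simp
      · intro T hT hT2
        rw [mem_powerset] at hT hT2
        obtain ⟨p, hpT, hpS⟩ := not_subset.1 hT2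
        have : ∏ p ∈ T, (if p ∣ ∏ q ∈ S, q then (1 : ℝ) else 0) = 0 :=
          prod_eq_zero hpT (if_neg fun hd => hpS ((hmem p (hT hpT)).1 hd))
        rw [this, mul_zero]
    rw [e1] at h2
    refine h2.trans ?_
    by_cases hSe : S = ∅
    · rw [if_pos hSe]
      split_ifs <;> norm_num
    · rw [if_neg hSe]
      obtain ⟨p, hp⟩ := nonempty_iff_ne_empty.2 hSe
      rw [if_neg]
      intro h3
      exact h3 p (hS hp) ((hmem p (hS hp)).2 hp)
  -- the reference densities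
  set g : ℕ → ℝ := fun p => if p = 2 then 1 / 2 else 1 / ((p : ℝ) - 1) with hg
  have hp3 : ∀ p : ℕ, p.Prime → p ≠ 2 → (3 : ℝ) ≤ p := by
    intro p hp h2
    have := hp.two_le
    have : 3 ≤ p := by omega
    exact_mod_cast this
  have hg0 : ∀ p ∈ Z, 0 ≤ g p := by
    intro p hp
    simp only [hg]
    split_ifs with h2
    · norm_num
    · have := hp3 p (hZp p hp) h2
      apply div_nonneg zero_le_one
      linarith
  have hg12 : ∀ p ∈ Z, g p ≤ 1 / 2 := by
    intro p hp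
    simp only [hg]
    split_ifs with h2
    · norm_num
    · have := hp3 p (hZp p hp) h2
      apply one_div_le_one_div_of_le (by norm_num)
      linarith
  have hmerg : Mer (pr h ε₁ ζ) (tt h) g ε₁ ζ η := by
    intro a b ha hab hb
    have h2 := hN0 h hhN a b ha hab (by linarith)
    have e1 : ∑ p ∈ (pr h ε₁ ζ).filter (fun p => a ≤ tt h p ∧ tt h p < b), g p =
        ∑ p ∈ pr h a b, 1 / ((p : ℝ) - 1) := by
      have e2 : (pr h ε₁ ζ).filter (fun p => a ≤ tt h p ∧ tt h p < b) = pr h a b := by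
        unfold pr
        rw [filter_filter]
        refine filter_congr fun p _ => ?_
        constructor
        · rintro ⟨⟨h3, _, _⟩, h4, h5⟩
          exact ⟨h3, h4, h5⟩
        · rintro ⟨h3, h4, h5⟩
          exact ⟨⟨h3, ha.trans h4, lt_of_lt_of_le h5 hb⟩, h4, h5⟩
      rw [e2]
      refine sum_congr rfl fun p hp => ?_
      simp only [hg]
      rw [if_neg]
      intro h3
      unfold pr at hp
      rw [mem_filter] at hp
      have h4 := ha.trans hp.2.2.1
      rw [h3] at h4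
      unfold tt at h4
      rw [le_div_iff₀ hlogh] at h4
      have h5 : Real.log ((h : ℝ) ^ ε₁) ≤ Real.log 2 := by
        rw [Real.log_rpow (by linarith)]
        exact_mod_cast h4
      rw [Real.log_le_log_iff (by positivity) (by norm_num)] at h5
      linarith
    rw [e1]
    exact h2
  have hmainw := (hw4 g hg0 (fun p hp => (hg12 p hp).trans (by norm_num)) (by
    intro p hp hp1
    simp only [hg]
    split_ifs with h2
    · rw [h2]
      norm_num
    · norm_num) hmerg).1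
  -- the actual densities
  set g' : ℕ → ℝ := fun p => if p ∈ P then 1 / (p : ℝ) else 0 with hg'
  have hg'0 : ∀ p ∈ Z, 0 ≤ g' p := by
    intro p _
    simp only [hg']
    split_ifs
    · positivity
    · exact le_rfl
  have hg'g : ∀ p ∈ Z, g' p ≤ g p := by
    intro p hp
    simp only [hg', hg]
    split_ifs with h2 h3 h4
    · rw [h3]
      norm_num
    · have := hp3 p (hZp p hp) h3
      apply one_div_le_one_div_of_le (by linarith)
      linarith
    · norm_num
    · have := hp3 p (hZp p hp) h4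
      apply div_nonneg zero_le_one
      linarith
  have hrat := ratio Z wL g g' (fun S hS hne => by
      have h2 := hθ S hS
      rwa [if_neg hne.ne_empty] at h2) hg'0 hg'g (fun p hp => (hg12 p hp).trans (by norm_num))
  have hG0 : 0 < ∏ p ∈ Z, (1 - g p) := prod_pos fun p hp => by linarith [hg12 p hp]
  have hG'0 : 0 < ∏ p ∈ Z, (1 - g' p) := prod_pos fun p hp => by linarith [hg12 p hp, hg'g p hp]
  have hG'eq : ∏ p ∈ Z, (1 - g' p) = ∏ p ∈ P, (1 - 1 / (p : ℝ)) := by
    rw [← prod_subset hPZ]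
    · refine prod_congr rfl fun p hp => ?_
      simp only [hg']
      rw [if_pos hp]
    · intro p _ hp
      simp only [hg']
      rw [if_neg hp, sub_zero]
  have hVVlow : φ / 2 * ∏ p ∈ P, (1 - 1 / (p : ℝ)) ≤ VV Z wL g' := by
    have h2 : ((φ - φ / 2) * ∏ p ∈ Z, (1 - g p)) * ∏ p ∈ Z, (1 - g' p) ≤ VV Z wL g' * ∏ p ∈ Z, (1 - g p) :=
      (mul_le_mul_of_nonneg_right hmainw hG'0.le).trans hrat
    rw [hG'eq] at h2
    have h3 : (φ / 2 * ∏ p ∈ P, (1 - 1 / (p : ℝ))) * ∏ p ∈ Z, (1 - g p) ≤ VV Z wL g' * ∏ p ∈ Z, (1 - g p) := by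
      refine le_trans (le_of_eq ?_) h2
      ring
    exact le_of_mul_le_mul_right h3 hG0
  -- counting
  have hcount : ∑ n ∈ Ioc k (k + h), VV Z wL (fun p => if p ∣ ∏ q ∈ P.filter (fun q => q ∣ n), q then 1 else 0) ≤
      (((Ioc k (k + h)).filter (fun n => ∀ p ∈ P, ¬ p ∣ n)).card : ℝ) := by
    rw [card_filter]
    push_cast
    refine sum_le_sum fun n _ => ?_
    refine ((hw3 (∏ q ∈ P.filter (fun q => q ∣ n), q)).1).trans ?_
    by_cases h2 : ∀ p ∈ P, ¬ p ∣ n
    · rw [if_pos h2]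
      split_ifs <;> norm_num
    · rw [if_neg h2]
      push Not at h2
      obtain ⟨p, hp, hd⟩ := h2
      rw [if_neg]
      intro h3
      exact h3 p (hPZ hp) (dvd_prod_of_mem _ (mem_filter.2 ⟨hp, hd⟩))
  have hdiv : ∀ n, ∀ p ∈ Z, (p ∣ ∏ q ∈ P.filter (fun q => q ∣ n), q) ↔ (p ∈ P ∧ p ∣ n) := by
    intro n p hp
    constructor
    · intro hd
      obtain ⟨q, hq, hd2⟩ := (Prime.dvd_finsetProd_iff (hZp p hp).prime _).1 hd
      rw [mem_filter] at hq
      rw [(Nat.prime_dvd_prime_iff_eq (hZp p hp) (hZp q (hPZ hq.1))).1 hd2]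
      exact hq
    · intro h2
      exact dvd_prod_of_mem _ (mem_filter.2 h2)
  have hsum : ∑ n ∈ Ioc k (k + h), VV Z wL (fun p => if p ∣ ∏ q ∈ P.filter (fun q => q ∣ n), q then 1 else 0) =
      ∑ T ∈ P.powerset, wL T * (((Ioc k (k + h)).filter (fun n => (∏ p ∈ T, p) ∣ n)).card : ℝ) := by
    unfold VV
    rw [sum_comm, ← sum_subset (powerset_mono.2 hPZ)]
    · refine sum_congr rfl fun T hT => ?_
      rw [mem_powerset] at hT
      rw [← mul_sum, card_filter]
      push_cast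
      congr 1
      refine sum_congr rfl fun n _ => ?_
      by_cases h2 : (∏ p ∈ T, p) ∣ n
      · rw [if_pos h2]
        refine prod_eq_one fun p hp => if_pos ?_
        exact (hdiv n p (hPZ (hT hp))).2 ⟨hT hp, (dvd_prod_of_mem _ hp).trans h2⟩
      · rw [if_neg h2]
        have h3 : ∃ p ∈ T, ¬ p ∣ n := by
          by_contra hcon
          push Not at hcon
          exact h2 (Finset.prod_primes_dvd n (fun p hp => (hP p (hT hp)).1.prime) hcon)
        obtain ⟨p, hp, hpn⟩ := h3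
        refine prod_eq_zero hp (if_neg fun hd => hpn ((hdiv n p (hPZ (hT hp))).1 hd).2)
    · intro T hT hT2
      rw [mem_powerset] at hT hT2
      obtain ⟨p, hpT, hpP⟩ := not_subset.1 hT2
      refine sum_eq_zero fun n _ => ?_
      have : ∏ p ∈ T, (if p ∣ ∏ q ∈ P.filter (fun q => q ∣ n), q then (1 : ℝ) else 0) = 0 :=
        prod_eq_zero hpT (if_neg fun hd => hpP ((hdiv n p (hT hpT)).1 hd).1)
      rw [this, mul_zero]
  -- remainder
  have hterm : ∀ T ∈ P.powerset, wL T * (h / ((∏ p ∈ T, p : ℕ) : ℝ)) -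
      (if ((∏ p ∈ T, p : ℕ) : ℝ) ≤ (h : ℝ) ^ τ' then 5 * Real.log h else 0) ≤
      wL T * (((Ioc k (k + h)).filter (fun n => (∏ p ∈ T, p) ∣ n)).card : ℝ) := by
    intro T hT
    rw [mem_powerset] at hT
    have hpos : 0 < ∏ p ∈ T, p := prod_pos fun p hp => (hP p (hT hp)).1.pos
    have h2 := Pool.Agent.T2H32.GM.cls (∏ p ∈ T, p) hpos 0 k h
    have e1 : (Ioc k (k + h)).filter (fun n => n ≡ 0 [MOD ∏ p ∈ T, p]) =
        (Ioc k (k + h)).filter (fun n => (∏ p ∈ T, p) ∣ n) :=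
      filter_congr fun n _ => Nat.modEq_zero_iff_dvd
    rw [e1] at h2
    by_cases h3 : wL T = 0
    · rw [h3, zero_mul, zero_mul]
      split_ifs
      · have : 0 ≤ 5 * Real.log h := by positivity
        linarith
      · linarith
    · have h4 := hw2 T (hT.trans hPZ) (Or.inr h3)
      rw [if_pos h4]
      have h5 := (hw1 T).2
      have h6 : |wL T * ((((Ioc k (k + h)).filter (fun n => (∏ p ∈ T, p) ∣ n)).card : ℝ) -
          h / ((∏ p ∈ T, p : ℕ) : ℝ))| ≤ 5 * Real.log h := by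
        rw [abs_mul]
        calc |wL T| * |_| ≤ 5 * Real.log h * 1 := by
              refine mul_le_mul h5 h2 (abs_nonneg _) (by positivity)
          _ = _ := mul_one _
      have h7 := (abs_le.1 h6).1
      linarith
  have hmainsum : h * VV Z wL g' = ∑ T ∈ P.powerset, wL T * (h / ((∏ p ∈ T, p : ℕ) : ℝ)) := by
    unfold VV
    rw [mul_sum, ← sum_subset (powerset_mono.2 hPZ)]
    · refine sum_congr rfl fun T hT => ?_
      rw [mem_powerset] at hT
      have : ∏ p ∈ T, g' p = 1 / ((∏ p ∈ T, p : ℕ) : ℝ) := by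
        push_cast
        rw [one_div, ← prod_inv_distrib]
        refine prod_congr rfl fun p hp => ?_
        simp only [hg']
        rw [if_pos (hT hp), one_div]
      rw [this]
      ring
    · intro T hT hT2
      rw [mem_powerset] at hT hT2
      obtain ⟨p, hpT, hpP⟩ := not_subset.1 hT2
      have : ∏ p ∈ T, g' p = 0 := prod_eq_zero hpT (by simp only [hg']; rw [if_neg hpP])
      rw [this]
      ring
  have hnum : ∑ T ∈ P.powerset, (if ((∏ p ∈ T, p : ℕ) : ℝ) ≤ (h : ℝ) ^ τ' then 5 * Real.log h else 0) ≤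
      5 * Real.log h * (h : ℝ) ^ τ' := by
    rw [← sum_filter, sum_const, nsmul_eq_mul, mul_comm]
    refine mul_le_mul_of_nonneg_left ?_ (by positivity)
    have h2 : (P.powerset.filter (fun T => ((∏ p ∈ T, p : ℕ) : ℝ) ≤ (h : ℝ) ^ τ')).card ≤
        (Icc 1 ⌊(h : ℝ) ^ τ'⌋₊).card := by
      refine card_le_card_of_injOn (fun T => ∏ p ∈ T, p) ?_ ?_
      · intro T hT
        rw [mem_coe, mem_filter, mem_powerset] at hT
        rw [mem_coe, mem_Icc]
        exact ⟨prod_pos fun p hp => (hP p (hT.1 hp)).1.pos, Nat.le_floor hT.2⟩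
      · intro T hT T' hT' heq
        rw [mem_coe, mem_filter, mem_powerset] at hT hT'
        exact Pool.Agent.Y882.prod_inj P (fun p hp => (hP p hp).1) hT.1 hT'.1 heq
    rw [Nat.card_Icc, Nat.add_sub_cancel] at h2
    calc ((P.powerset.filter (fun T => ((∏ p ∈ T, p : ℕ) : ℝ) ≤ (h : ℝ) ^ τ')).card : ℝ)
        ≤ (⌊(h : ℝ) ^ τ'⌋₊ : ℝ) := by exact_mod_cast h2
      _ ≤ _ := Nat.floor_le (by positivity)
  have hfin := sum_le_sum hterm
  rw [sum_sub_distrib, ← hmainsum, ← hsum] at hfin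
  have hmerP := hmer h P (by omega) (fun p hp => ⟨(hP p hp).1, (hP p hp).2.1⟩)
  have h2 : φ / 4 * (h * (c / Real.log h)) ≤ φ / 4 * (h * ∏ p ∈ P, (1 - 1 / (p : ℝ))) := by gcongr
  have h3 : h * (φ / 2 * ∏ p ∈ P, (1 - 1 / (p : ℝ))) ≤ h * VV Z wL g' :=
    mul_le_mul_of_nonneg_left hVVlow (Nat.cast_nonneg _)
  linarith

end Pool.Agent.H11.Lin
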