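import Pool.Agent.H11.LB

set_option autoImplicit false

/-! # Reduced residues: the link with the averages -/

open Finset

namespace Pool.Agent.H11.Avg

/-- the number of `n < q` such that none of `n + 1, …, n + h` is coprime to `q` -/
def empt (q h : ℕ) : ℕ := ((range q).filter (fun n => ∀ j ∈ Icc 1 h, ¬ Nat.Coprime (n + j) q)).card

/-- the proportion of the windows of length `h` without reduced residues modulo `q` -/
noncomputable def V (q h : ℕ) : ℝ := empt q h / q

theorem periodic_av (q r : ℕ) (hq : 0 < q) (hr : r ∣ q) (F : ℕ → ℝ) (hF : ∀ a j, F (a + r * j) = F a) :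
    (∑ n ∈ range q, F n) / q = (∑ n ∈ range r, F n) / r := by
  obtain ⟨k, rfl⟩ := hr
  have hr0 : 0 < r := Nat.pos_of_mul_pos_right hq
  have hk0 : 0 < k := Nat.pos_of_mul_pos_left hq
  rw [mul_comm r k, sum_range_mul]
  simp_rw [hF]
  rw [sum_congr rfl (fun a _ => by rw [sum_const, card_range, nsmul_eq_mul]), ← mul_sum]
  have h1 : (r : ℝ) ≠ 0 := by exact_mod_cast hr0.ne'
  have h2 : (k : ℝ) ≠ 0 := by exact_mod_cast hk0.ne'
  push_cast
  field_simp

theorem Q_dvd (q : ℕ) : Q q.primeFactors ∣ q := Nat.prod_primeFactors_dvd q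

theorem coprime_iff (q n : ℕ) (hq : q ≠ 0) : Nat.Coprime n q ↔ ∀ p ∈ q.primeFactors, ¬ p ∣ n := by
  constructor
  · intro h p hp hd
    exact (Nat.prime_of_mem_primeFactors hp).one_lt.ne'
      (Nat.eq_one_of_dvd_coprimes h hd (Nat.dvd_of_mem_primeFactors hp))
  · intro h
    by_contra hc
    obtain ⟨p, hp, h1, h2⟩ := Nat.Prime.not_coprime_iff_dvd.1 hc
    exact h p (Nat.mem_primeFactors.2 ⟨hp, h2, hq⟩) h1

theorem V_eq_av (q h : ℕ) (hq : q ≠ 0) :
    V q h = av q.primeFactors (fun m => (0 : ℝ) ^ (sv 1 q.primeFactors (Icc 1 h) m).card) := by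
  have h1 : V q h = (∑ n ∈ range q, (0 : ℝ) ^ (sv 1 q.primeFactors (Icc 1 h) n).card) / q := by
    unfold V empt
    congr 1
    rw [card_filter]
    push_cast
    refine sum_congr rfl fun n _ => ?_
    by_cases hn : ∀ j ∈ Icc 1 h, ¬ Nat.Coprime (n + j) q
    · rw [if_pos hn]
      have : sv 1 q.primeFactors (Icc 1 h) n = ∅ := by
        unfold sv
        rw [filter_eq_empty_iff]
        intro j hj h2
        refine hn j hj ((coprime_iff q (n + j) hq).2 ?_)
        simpa using h2
      rw [this, card_empty, pow_zero]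
    · rw [if_neg hn]
      push Not at hn
      obtain ⟨j, hj, h2⟩ := hn
      have : j ∈ sv 1 q.primeFactors (Icc 1 h) n := by
        unfold sv
        rw [mem_filter]
        refine ⟨hj, ?_⟩
        have := (coprime_iff q (n + j) hq).1 h2
        simpa using this
      have h3 : (sv 1 q.primeFactors (Icc 1 h) n).card ≠ 0 := (card_pos.2 ⟨j, this⟩).ne'
      rw [zero_pow h3]
  rw [h1]
  unfold av
  refine periodic_av q _ (Nat.pos_of_ne_zero hq) (Q_dvd q) _ fun a j => ?_
  rw [sv_period]

theorem totient_prod (q : ℕ) (hq : q ≠ 0) :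
    (q.totient : ℝ) / q = ∏ p ∈ q.primeFactors, (1 - 1 / (p : ℝ)) := by
  have h := Nat.totient_eq_mul_prod_factors q
  have h2 : ((q.totient : ℚ) : ℝ) =
      (((q : ℚ) * ∏ p ∈ q.primeFactors, (1 - (p : ℚ)⁻¹) : ℚ) : ℝ) := by
    rw [h]
  push_cast at h2
  rw [h2]
  have h3 : (q : ℝ) ≠ 0 := by exact_mod_cast hq
  rw [mul_div_cancel_left₀ _ h3]
  simp only [one_div]

theorem V_nonneg (q h : ℕ) : 0 ≤ V q h := by
  unfold V
  positivity

/-- crude lower bound for products -/
theorem prod_crude (w : ℕ) (hw : 1 ≤ w) (S : Finset ℕ) (hS : ∀ p ∈ S, p.Prime ∧ p ≤ w) :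
    1 / (w : ℝ) ≤ ∏ p ∈ S, (1 - 1 / (p : ℝ)) := by
  have h1 : ∏ n ∈ Ioc 1 w, (1 - 1 / (n : ℝ)) = 1 / w := by
    induction w, hw using Nat.le_induction with
    | base => simp
    | succ n hn ih =>
      rw [← Finset.insert_Ioc_right_eq_Ioc_add_one (by omega), prod_insert (by simp)]
      have h2 : ∏ n ∈ Ioc 1 n, (1 - 1 / (n : ℝ)) = 1 / n := by
        clear hS ih
        induction n, hn using Nat.le_induction with
        | base => simp
        | succ m hm ih2 =>
          rw [← Finset.insert_Ioc_right_eq_Ioc_add_one (by omega), prod_insert (by simp), ih2]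
          have : (m : ℝ) ≠ 0 := by
            have : m ≠ 0 := by omega
            exact_mod_cast this
          push_cast
          field_simp
          ring
      rw [h2]
      have : (n : ℝ) ≠ 0 := by
        have : n ≠ 0 := by omega
        exact_mod_cast this
      push_cast
      field_simp
      ring
  rw [← h1]
  refine Finset.prod_le_prod_of_subset_of_le_one ?_ ?_ ?_
  · intro p hp
    rw [mem_Ioc]
    exact ⟨(hS p hp).1.one_lt, (hS p hp).2⟩
  · intro n hn
    have h2 := (mem_Ioc.1 hn).1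
    have h3 : (1 : ℝ) < n := by exact_mod_cast h2
    have : 1 / (n : ℝ) ≤ 1 := by
      rw [div_le_one (by linarith)]
      exact h3.le
    linarith
  · intro n hn _
    have : 0 ≤ 1 / (n : ℝ) := by positivity
    linarith

end Pool.Agent.H11.Avg
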