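import Pool.Agent.H11.Avg

set_option autoImplicit false

/-! # Lower bounds for exponential averages -/

open Finset

namespace Pool.Agent.H11.Avg

/-- one step from below -/
theorem low_one (W p : ℕ) (P A : Finset ℕ) (hp : p.Prime) (hpP : p ∉ P) (hP : ∀ q ∈ P, q.Prime)
    (hW : W.Coprime p) (hA : ∀ a ∈ A, ∀ b ∈ A, a % p = b % p → a = b) (h u x : ℝ) (hu : 0 < u)
    (hc : (A.card : ℝ) ≤ h) (hx0 : 0 ≤ x) (hx1 : x ≤ 1 - u) (hτ : h / (u * p) ≤ 1) :
    (1 - (h / (u * p)) ^ 2) * av P (fun m => (1 - x * (1 - 1 / (p : ℝ))) ^ (sv W P A m).card) ≤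
      av (insert p P) (fun m => (1 - x) ^ (sv W (insert p P) A m).card) := by
  rw [av_one W p P A hp hpP hP hW hA (fun n => (1 - x) ^ n), ← av_mul]
  refine av_mono P _ _ fun m => ?_
  have hp0 : (0 : ℝ) < p := by exact_mod_cast hp.pos
  set N := (sv W P A m).card with hN
  have hNh : (N : ℝ) ≤ h := by
    refine le_trans ?_ hc
    have : N ≤ A.card := card_le_card (filter_subset _ _)
    exact_mod_cast this
  have hh0 : 0 ≤ h := le_trans (Nat.cast_nonneg _) hNh
  set τ := h / (u * p) with hτd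
  have hτ0 : 0 ≤ τ := by positivity
  have hx1' : u ≤ 1 - x := by linarith
  have h1x : 0 < 1 - x := by linarith
  set a := x / ((1 - x) * p) with ha
  have ha0 : 0 ≤ a := by positivity
  have hNa : N * a ≤ τ := by
    rw [ha, hτd, mul_div_assoc', div_le_div_iff₀ (by positivity) (by positivity)]
    have h1 : (N : ℝ) * x ≤ h * 1 := mul_le_mul hNh (by linarith) hx0 hh0
    have h2 : u * p ≤ (1 - x) * p := mul_le_mul_of_nonneg_right hx1' hp0.le
    calc (N : ℝ) * x * (u * p) ≤ h * 1 * ((1 - x) * p) :=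
          mul_le_mul h1 h2 (by positivity) (by positivity)
      _ = _ := by ring
  have e1 : 1 - x * (1 - 1 / (p : ℝ)) = (1 - x) * (1 + a) := by
    rw [ha]
    field_simp
    ring
  have e2 : (1 - x) ^ N + (N : ℝ) / p * ((1 - x) ^ (N - 1) - (1 - x) ^ N) = (1 - x) ^ N * (1 + N * a) := by
    rcases Nat.eq_zero_or_pos N with h0 | h0
    · rw [h0]
      simp
    · obtain ⟨M, hM⟩ : ∃ M, N = M + 1 := ⟨N - 1, by omega⟩
      rw [hM, Nat.add_sub_cancel, ha]
      push_cast
      field_simp
      ring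
  show (1 - τ ^ 2) * (1 - x * (1 - 1 / (p : ℝ))) ^ N ≤
    (1 - x) ^ N + (N : ℝ) / p * ((1 - x) ^ (N - 1) - (1 - x) ^ N)
  rw [e2, e1, mul_pow]
  have h3 : (1 + a) ^ N ≤ Real.exp (N * a) := by
    have h4 : 1 + a ≤ Real.exp a := by linarith [Real.add_one_le_exp a]
    calc (1 + a) ^ N ≤ (Real.exp a) ^ N := by gcongr
      _ = _ := by rw [← Real.exp_nat_mul]
  have hna0 : 0 ≤ (N : ℝ) * a := by positivity
  have h4 : (1 - τ ^ 2) * (1 + a) ^ N ≤ 1 + N * a := by
    have h5 : 0 ≤ 1 - τ ^ 2 := by nlinarith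
    have h6 : 1 - τ ^ 2 ≤ 1 - (N * a) ^ 2 := by
      have : (N * a) ^ 2 ≤ τ ^ 2 := by gcongr
      linarith
    have h7 : Real.exp (N * a) * (1 - N * a) ≤ 1 := by
      have h8 := Real.add_one_le_exp (-(N * a))
      have h9 : Real.exp (N * a) * Real.exp (-(N * a)) = 1 := by rw [← Real.exp_add]; simp
      have h10 : Real.exp (N * a) * (1 - N * a) ≤ Real.exp (N * a) * Real.exp (-(N * a)) :=
        mul_le_mul_of_nonneg_left (by linarith) (Real.exp_pos _).le
      linarith
    calc (1 - τ ^ 2) * (1 + a) ^ N ≤ (1 - τ ^ 2) * Real.exp (N * a) := by gcongr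
      _ ≤ (1 - (N * a) ^ 2) * Real.exp (N * a) := mul_le_mul_of_nonneg_right h6 (Real.exp_pos _).le
      _ = (Real.exp (N * a) * (1 - N * a)) * (1 + N * a) := by ring
      _ ≤ 1 * (1 + N * a) := mul_le_mul_of_nonneg_right h7 (by positivity)
      _ = _ := by ring
  have h5 : 0 ≤ (1 - x) ^ N := by positivity
  calc (1 - τ ^ 2) * ((1 - x) ^ N * (1 + a) ^ N) = (1 - x) ^ N * ((1 - τ ^ 2) * (1 + a) ^ N) := by ring
    _ ≤ _ := mul_le_mul_of_nonneg_left h4 h5

theorem low_many (W : ℕ) (P A S : Finset ℕ) (hS : ∀ p ∈ S, p.Prime) (hP : ∀ q ∈ P, q.Prime) (hd : Disjoint S P)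
    (hW : ∀ p ∈ S, W.Coprime p) (hA : ∀ p ∈ S, ∀ a ∈ A, ∀ b ∈ A, a % p = b % p → a = b)
    (h u : ℝ) (hu : 0 < u) (hc : (A.card : ℝ) ≤ h) (hτ : ∀ p ∈ S, h / (u * p) ≤ 1) :
    ∀ x : ℝ, 0 ≤ x → x ≤ 1 - u →
    (∏ p ∈ S, (1 - (h / (u * p)) ^ 2)) *
      av P (fun m => (1 - x * ∏ p ∈ S, (1 - 1 / (p : ℝ))) ^ (sv W P A m).card) ≤
    av (S ∪ P) (fun m => (1 - x) ^ (sv W (S ∪ P) A m).card) := by
  induction S using Finset.induction_on with
  | empty =>
    intro x _ _
    simp
  | insert p S hpS ih =>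
    intro x hx0 hx1
    have hp := hS p (mem_insert_self _ _)
    have hp2 : (2 : ℝ) ≤ p := by exact_mod_cast hp.two_le
    have h1p : 0 ≤ 1 / (p : ℝ) := by positivity
    have h1p' : 1 / (p : ℝ) ≤ 1 := by
      rw [div_le_one (by linarith)]
      linarith
    have hh0 : 0 ≤ h := le_trans (Nat.cast_nonneg _) hc
    have hpP : p ∉ P := fun h => (disjoint_left.1 hd) (mem_insert_self _ _) h
    have hu' : insert p S ∪ P = insert p (S ∪ P) := insert_union _ _ _
    rw [hu']
    have h1 := low_one W p (S ∪ P) A hp (by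
        rw [mem_union]
        tauto) (fun q hq => by
          rcases mem_union.1 hq with h | h
          · exact hS q (mem_insert_of_mem h)
          · exact hP q h) (hW p (mem_insert_self _ _)) (hA p (mem_insert_self _ _)) h u x hu hc hx0 hx1
          (hτ p (mem_insert_self _ _))
    refine le_trans ?_ h1
    have h2 := ih (fun q hq => hS q (mem_insert_of_mem hq))
      (disjoint_of_subset_left (subset_insert _ _) hd) (fun q hq => hW q (mem_insert_of_mem hq))
      (fun q hq => hA q (mem_insert_of_mem hq)) (fun q hq => hτ q (mem_insert_of_mem hq))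
      (x * (1 - 1 / (p : ℝ))) (mul_nonneg hx0 (by linarith))
      ((mul_le_of_le_one_right hx0 (by linarith)).trans hx1)
    rw [prod_insert hpS, prod_insert hpS, ← mul_assoc x, mul_assoc]
    refine mul_le_mul_of_nonneg_left h2 ?_
    have h3 := hτ p (mem_insert_self _ _)
    have h4 : 0 ≤ h / (u * p) := by positivity
    nlinarith

/-- falling products -/
noncomputable def fall (β σ : ℝ) : ℕ → ℝ
  | 0 => 1
  | n + 1 => fall β σ n * max 0 (σ - n * β)

theorem fall_nonneg (β σ : ℝ) (n : ℕ) : 0 ≤ fall β σ n := by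
  induction n with
  | zero => exact zero_le_one
  | succ n ih => exact mul_nonneg ih (le_max_left _ _)

theorem fall_step (β σ s : ℝ) (hs0 : 0 ≤ s) (hs : s ≤ β) (n : ℕ) :
    fall β (σ + s) n ≤ fall β σ n + n * s * fall β σ (n - 1) := by
  induction n with
  | zero => simp [fall]
  | succ n ih =>
    have e1 : fall β (σ + s) (n + 1) = fall β (σ + s) n * max 0 (σ + s - n * β) := rfl
    have e2 : fall β σ (n + 1) = fall β σ n * max 0 (σ - n * β) := rfl
    rw [e1, e2, Nat.add_sub_cancel]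
    have h0 := fall_nonneg β σ n
    have h0' := fall_nonneg β σ (n - 1)
    have hβ : 0 ≤ β := hs0.trans hs
    have hm1 : 0 ≤ max 0 (σ - n * β) := le_max_left _ _
    have hn0 : (0 : ℝ) ≤ n := Nat.cast_nonneg _
    rcases le_or_gt (σ + s - n * β) 0 with hc | hc
    · rw [max_eq_left hc, mul_zero]
      push_cast
      positivity
    · rw [max_eq_right hc.le]
      have h1 : fall β (σ + s) n * (σ + s - n * β) ≤
          (fall β σ n + n * s * fall β σ (n - 1)) * (σ + s - n * β) :=
        mul_le_mul_of_nonneg_right ih hc.le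
      refine h1.trans ?_
      -- the last factor of `fall β σ n`
      have h2 : n * s * fall β σ (n - 1) * (σ + s - n * β) ≤ n * s * fall β σ n := by
        rcases Nat.eq_zero_or_pos n with hn | hn
        · subst hn
          simp
        · obtain ⟨m, rfl⟩ : ∃ m, n = m + 1 := ⟨n - 1, by omega⟩
          rw [Nat.add_sub_cancel] at h0' ⊢
          have e3 : fall β σ (m + 1) = fall β σ m * max 0 (σ - m * β) := rfl
          rw [e3]
          have h3 : σ + s - ((m + 1 : ℕ) : ℝ) * β ≤ max 0 (σ - m * β) := by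
            refine le_trans ?_ (le_max_right _ _)
            push_cast
            linarith
          have h4 : 0 ≤ ((m + 1 : ℕ) : ℝ) * s * fall β σ m := by positivity
          calc ((m + 1 : ℕ) : ℝ) * s * fall β σ m * (σ + s - ((m + 1 : ℕ) : ℝ) * β)
              ≤ ((m + 1 : ℕ) : ℝ) * s * fall β σ m * max 0 (σ - m * β) :=
                mul_le_mul_of_nonneg_left h3 h4
            _ = _ := by ring
      have h3 : fall β σ n * (σ + s - n * β) ≤ fall β σ n * max 0 (σ - n * β) + s * fall β σ n := by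
        have h4 : σ + s - n * β ≤ max 0 (σ - n * β) + s := by
          linarith [le_max_right 0 (σ - n * β)]
        calc fall β σ n * (σ + s - n * β) ≤ fall β σ n * (max 0 (σ - n * β) + s) :=
              mul_le_mul_of_nonneg_left h4 h0
          _ = _ := by ring
      push_cast
      calc (fall β σ n + n * s * fall β σ (n - 1)) * (σ + s - n * β)
          = fall β σ n * (σ + s - n * β) + n * s * fall β σ (n - 1) * (σ + s - n * β) := by ring
        _ ≤ (fall β σ n * max 0 (σ - n * β) + s * fall β σ n) + n * s * fall β σ n := add_le_add h3 h2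
        _ = _ := by ring

theorem fall_lower (β σ : ℝ) (hσ : 0 ≤ σ) (n : ℕ) (hn : n * β ≤ σ / 2) (hβ : 0 ≤ β) :
    (σ / 2) ^ n ≤ fall β σ n := by
  induction n with
  | zero => simp [fall]
  | succ n ih =>
    have e1 : fall β σ (n + 1) = fall β σ n * max 0 (σ - n * β) := rfl
    rw [e1, pow_succ]
    push_cast at hn
    have hn' : n * β ≤ σ / 2 := by nlinarith
    refine mul_le_mul (ih hn') ?_ (by positivity) (fall_nonneg _ _ _)
    refine le_trans ?_ (le_max_right _ _)
    linarith

/-- the product of `1 - n / p` -/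
noncomputable def kap (T : Finset ℕ) (n : ℕ) : ℝ := ∏ p ∈ T, (1 - (n : ℝ) / p)

theorem kap_nonneg (T : Finset ℕ) (n : ℕ) (h : ∀ p ∈ T, (n : ℝ) / p ≤ 1) : 0 ≤ kap T n :=
  prod_nonneg fun p hp => by linarith [h p hp]

theorem kap_anti (T : Finset ℕ) (n m : ℕ) (hmn : m ≤ n) (h : ∀ p ∈ T, (n : ℝ) / p ≤ 1) : kap T n ≤ kap T m := by
  refine prod_le_prod (fun p hp => by linarith [h p hp]) fun p hp => ?_
  have : (m : ℝ) / p ≤ (n : ℝ) / p := by gcongr
  linarith

theorem kill_many (W : ℕ) (A T : Finset ℕ) (hT : ∀ p ∈ T, p.Prime)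
    (hW : ∀ p ∈ T, W.Coprime p) (hA : ∀ p ∈ T, ∀ a ∈ A, ∀ b ∈ A, a % p = b % p → a = b)
    (β : ℝ) (hβ : ∀ p ∈ T, 1 / (p : ℝ) ≤ β) (hc : ∀ p ∈ T, (A.card : ℝ) / p ≤ 1) :
    ∀ P : Finset ℕ, (∀ q ∈ P, q.Prime) → Disjoint T P →
    av P (fun m => fall β (∑ p ∈ T, 1 / (p : ℝ)) (sv W P A m).card * kap T (sv W P A m).card) ≤
    av (T ∪ P) (fun m => (0 : ℝ) ^ (sv W (T ∪ P) A m).card) := by
  induction T using Finset.induction_on with
  | empty =>
    intro P _ _
    rw [empty_union]
    refine av_mono _ _ _ fun m => ?_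
    simp only [sum_empty, kap, prod_empty, mul_one]
    rcases Nat.eq_zero_or_pos (sv W P A m).card with h | h
    · rw [h]
      simp [fall]
    · obtain ⟨k, hk⟩ : ∃ k, (sv W P A m).card = k + 1 := ⟨(sv W P A m).card - 1, by omega⟩
      rw [hk]
      have hz : ∀ k : ℕ, 0 ≤ β → fall β 0 (k + 1) = 0 := by
        intro k hβ0
        show fall β 0 k * max 0 (0 - k * β) = 0
        rw [max_eq_left, mul_zero]
        have : 0 ≤ (k : ℝ) * β := by positivity
        linarith
      have hz' : ∀ k : ℕ, fall β 0 (k + 1) ≤ 0 := by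
        intro k
        have h1 : fall β 0 1 = 0 := by
          show fall β 0 0 * max 0 (0 - ((0 : ℕ) : ℝ) * β) = 0
          simp
        induction k with
        | zero => exact h1.le
        | succ k ihk =>
          have h2 : fall β 0 (k + 1) = 0 := le_antisymm ihk (fall_nonneg _ _ _)
          show fall β 0 (k + 1) * _ ≤ 0
          rw [h2, zero_mul]
      simpa using hz' k
  | insert p T hpT ih =>
    intro P hP hd
    have hp := hT p (mem_insert_self _ _)
    have hp0 : (0 : ℝ) < p := by exact_mod_cast hp.pos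
    have hpP : p ∉ P := fun h => (disjoint_left.1 hd) (mem_insert_self _ _) h
    have hu' : insert p T ∪ P = T ∪ insert p P := by
      rw [insert_union, union_insert]
    rw [hu']
    have h1 := ih (fun q hq => hT q (mem_insert_of_mem hq)) (fun q hq => hW q (mem_insert_of_mem hq))
      (fun q hq => hA q (mem_insert_of_mem hq)) (fun q hq => hβ q (mem_insert_of_mem hq))
      (fun q hq => hc q (mem_insert_of_mem hq)) (insert p P) (fun q hq => by
        rcases mem_insert.1 hq with h | h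
        · rw [h]; exact hp
        · exact hP q h) (by
        rw [disjoint_left]
        intro q hq1 hq2
        rcases mem_insert.1 hq2 with h | h
        · rw [h] at hq1
          exact hpT hq1
        · exact (disjoint_left.1 hd) (mem_insert_of_mem hq1) h)
    refine le_trans ?_ h1
    set σ := ∑ q ∈ T, 1 / (q : ℝ) with hσ
    rw [av_one W p P A hp hpP hP (hW p (mem_insert_self _ _)) (hA p (mem_insert_self _ _))
      (fun n => fall β σ n * kap T n)]
    refine av_mono _ _ _ fun m => ?_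
    set N := (sv W P A m).card with hN
    have hNA : (N : ℝ) ≤ A.card := by exact_mod_cast card_le_card (filter_subset _ _)
    have hcN : ∀ q ∈ insert p T, (N : ℝ) / q ≤ 1 := by
      intro q hq
      refine le_trans ?_ (hc q hq)
      gcongr
    have hkap : kap (insert p T) N = (1 - (N : ℝ) / p) * kap T N := prod_insert hpT
    have hk0 := kap_nonneg T N fun q hq => hcN q (mem_insert_of_mem hq)
    have hk1 : kap T N ≤ kap T (N - 1) := kap_anti T N (N - 1) (Nat.sub_le _ _)
      fun q hq => hcN q (mem_insert_of_mem hq)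
    have hNp := hcN p (mem_insert_self _ _)
    have hNp0 : 0 ≤ (N : ℝ) / p := by positivity
    rw [hkap, sum_insert hpT, add_comm (1 / (p : ℝ))]
    have h2 := fall_step β σ (1 / (p : ℝ)) (by positivity) (hβ p (mem_insert_self _ _)) N
    have f0 := fall_nonneg β σ N
    have f1 := fall_nonneg β σ (N - 1)
    have h3 : fall β (σ + 1 / (p : ℝ)) N * ((1 - (N : ℝ) / p) * kap T N) ≤
        (fall β σ N + N * (1 / (p : ℝ)) * fall β σ (N - 1)) * ((1 - (N : ℝ) / p) * kap T N) :=
      mul_le_mul_of_nonneg_right h2 (mul_nonneg (by linarith) hk0)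
    refine h3.trans ?_
    have e : (fall β σ N + N * (1 / (p : ℝ)) * fall β σ (N - 1)) * ((1 - (N : ℝ) / p) * kap T N) =
      (1 - (N : ℝ) / p) * (fall β σ N * kap T N) + (N : ℝ) / p * fall β σ (N - 1) *
        ((1 - (N : ℝ) / p) * kap T N) := by ring
    rw [e]
    have h4 : (1 - (N : ℝ) / p) * kap T N ≤ kap T (N - 1) := by
      refine le_trans ?_ hk1
      exact mul_le_of_le_one_left hk0 (by linarith)
    have h5 : (N : ℝ) / p * fall β σ (N - 1) * ((1 - (N : ℝ) / p) * kap T N) ≤
        (N : ℝ) / p * fall β σ (N - 1) * kap T (N - 1) :=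
      mul_le_mul_of_nonneg_left h4 (by positivity)
    linarith

/-- if the reciprocals of the primes in `T` sum to `σ`, all survivors are removed by `T` with
probability at least `u ^ N` -/
theorem kill (W : ℕ) (A T P : Finset ℕ) (hT : ∀ p ∈ T, p.Prime) (hP : ∀ q ∈ P, q.Prime) (hd : Disjoint T P)
    (hW : ∀ p ∈ T, W.Coprime p) (hA : ∀ p ∈ T, ∀ a ∈ A, ∀ b ∈ A, a % p = b % p → a = b)
    (B σ u : ℝ) (hB : ∀ p ∈ T, B ≤ p) (hB0 : 0 < B) (hσ : σ = ∑ p ∈ T, 1 / (p : ℝ)) (hcσ : (A.card : ℝ) / B ≤ σ / 2)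
    (hc : (A.card : ℝ) / B ≤ 1 / 2) (hu0 : 0 ≤ u) (hu : u ≤ σ / 2 * Real.exp (-(2 * σ))) :
    av P (fun m => u ^ (sv W P A m).card) ≤ av (T ∪ P) (fun m => (0 : ℝ) ^ (sv W (T ∪ P) A m).card) := by
  have hp0 : ∀ p ∈ T, (0 : ℝ) < p := fun p hp => by exact_mod_cast (hT p hp).pos
  have h1 := kill_many W A T hT hW hA (1 / B) (fun p hp => one_div_le_one_div_of_le hB0 (hB p hp))
    (fun p hp => by
      have h2 : (A.card : ℝ) / p ≤ A.card / B := by
        gcongr
        exact hB p hp
      linarith) P hP hd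
  refine le_trans (av_mono _ _ _ fun m => ?_) h1
  rw [← hσ]
  set N := (sv W P A m).card with hN
  have hNA : (N : ℝ) ≤ A.card := by exact_mod_cast card_le_card (filter_subset _ _)
  have hσ0 : 0 ≤ σ := by
    rw [hσ]
    exact sum_nonneg fun p hp => by positivity
  have h2 : (σ / 2) ^ N ≤ fall (1 / B) σ N := by
    refine fall_lower _ _ hσ0 N ?_ (by positivity)
    calc N * (1 / B) = N / B := by ring
      _ ≤ A.card / B := by gcongr
      _ ≤ _ := hcσ
  have h3 : Real.exp (-(2 * σ)) ^ N ≤ kap T N := by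
    unfold kap
    rw [← Real.exp_nat_mul, hσ]
    have e : (N : ℝ) * -(2 * ∑ p ∈ T, 1 / (p : ℝ)) = ∑ p ∈ T, (-(2 * (N / p)) : ℝ) := by
      rw [mul_sum, ← sum_neg_distrib, mul_sum]
      refine sum_congr rfl fun p _ => ?_
      ring
    rw [e, Real.exp_sum]
    refine prod_le_prod (fun p _ => (Real.exp_pos _).le) fun p hp => ?_
    have h4 : (N : ℝ) / p ≤ 1 / 2 := by
      have h5 : (N : ℝ) / p ≤ A.card / B := by
        have := hB p hp
        gcongr
      linarith
    have h5 : 0 ≤ (N : ℝ) / p := by positivity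
    set t := (N : ℝ) / p
    -- `exp (-2t) ≤ 1 - t` on `[0, 1/2]`
    have h6 : Real.exp (-(2 * t)) * Real.exp (2 * t) = 1 := by rw [← Real.exp_add]; simp
    have h7 : 1 + 2 * t ≤ Real.exp (2 * t) := by linarith [Real.add_one_le_exp (2 * t)]
    have h8 : 1 ≤ (1 - t) * Real.exp (2 * t) := by
      have : 1 ≤ (1 - t) * (1 + 2 * t) := by nlinarith
      exact this.trans (mul_le_mul_of_nonneg_left h7 (by linarith))
    nlinarith [Real.exp_pos (-(2 * t)), mul_le_mul_of_nonneg_left h8 (Real.exp_pos (-(2 * t))).le]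
  calc u ^ N ≤ (σ / 2 * Real.exp (-(2 * σ))) ^ N := by gcongr
    _ = (σ / 2) ^ N * Real.exp (-(2 * σ)) ^ N := mul_pow _ _ _
    _ ≤ _ := mul_le_mul h2 h3 (by positivity) (fall_nonneg _ _ _)

/-- Jensen's inequality for the number of survivors -/
theorem jensen (P : Finset ℕ) (hP : ∀ p ∈ P, p.Prime) (f : ℕ → ℝ) (c : ℝ) :
    Real.exp (c * av P f) ≤ av P (fun m => Real.exp (c * f m)) := by
  set t := c * av P f with ht
  have h1 : ∀ m, Real.exp t * (1 + (c * f m - t)) ≤ Real.exp (c * f m) := by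
    intro m
    have h2 := Real.add_one_le_exp (c * f m - t)
    have h3 : Real.exp (c * f m) = Real.exp t * Real.exp (c * f m - t) := by
      rw [← Real.exp_add]
      congr 1
      ring
    rw [h3]
    exact mul_le_mul_of_nonneg_left (by linarith) (Real.exp_pos _).le
  refine le_trans (le_of_eq ?_) (av_mono P _ _ h1)
  rw [av_mul]
  have h4 : av P (fun m => 1 + (c * f m - t)) = 1 := by
    have hq : (Q P : ℝ) ≠ 0 := by exact_mod_cast (Q_pos P hP).ne'
    unfold av
    rw [sum_add_distrib, sum_sub_distrib, ← mul_sum, sum_const, sum_const, card_range, nsmul_eq_mul,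
      nsmul_eq_mul, ht]
    unfold av
    field_simp
    ring
  rw [h4, mul_one]

end Pool.Agent.H11.Avg
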