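import Pool.Agent.H11.UpMain

set_option autoImplicit false

/-! # The lower bound for empty windows, and the gaps -/

open Finset Filter Topology

namespace Pool.Agent.H11.Avg

theorem lower (ε : ℝ) (hε : 0 < ε) (hε1 : ε ≤ 1) : ∃ K0 : ℕ, 1 ≤ K0 ∧ ∀ K : ℕ, K0 ≤ K → ∀ q h : ℕ, q ≠ 0 →
    (K : ℝ) ≤ h * ((q.totient : ℝ) / q) →
    h * ((q.totient : ℝ) / q) ≤ Real.exp ((q : ℝ) / q.totient / K) →
    Real.exp (-((1 + ε) * (h * ((q.totient : ℝ) / q)))) ≤ V q h := by
  obtain ⟨K1, hK1, hLB⟩ := LB (ε / 2) (by positivity) (by linarith)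
  obtain ⟨c, hc, hmer⟩ := mertens_low
  have hK1R : (1 : ℝ) ≤ K1 := by exact_mod_cast hK1
  -- `K1 (log K1 + 2 log y) ≤ c/2 y` for large `y`
  have hlim : Tendsto (fun y : ℝ => (K1 * (Real.log K1 + 2 * Real.log y)) / y) atTop (𝓝 0) := by
    have h1 : Tendsto (fun y : ℝ => Real.log y / y) atTop (𝓝 0) :=
      Real.isLittleO_log_id_atTop.tendsto_div_nhds_zero
    have h2 : Tendsto (fun y : ℝ => y⁻¹) atTop (𝓝 0) := tendsto_inv_atTop_zero
    have h3 := (h2.const_mul (K1 * Real.log K1)).add (h1.const_mul (2 * K1 : ℝ))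
    rw [mul_zero, mul_zero, add_zero] at h3
    refine h3.congr fun y => ?_
    ring
  have hev := hlim.eventually_le_const (show (0 : ℝ) < c / 2 by positivity)
  obtain ⟨Y0, hY0⟩ := eventually_atTop.1 hev
  obtain ⟨K0, hK0⟩ := exists_nat_ge (max (max 3 (4 * K1 / c)) (max Y0 (2 / ε)))
  have h3 : (3 : ℝ) ≤ K0 := (le_max_left _ _).trans ((le_max_left _ _).trans hK0)
  have h4 : 4 * K1 / c ≤ K0 := (le_max_right _ _).trans ((le_max_left _ _).trans hK0)
  have h5 : Y0 ≤ K0 := (le_max_left _ _).trans ((le_max_right _ _).trans hK0)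
  have h6 : 2 / ε ≤ K0 := (le_max_right _ _).trans ((le_max_right _ _).trans hK0)
  refine ⟨K0, by exact_mod_cast (show (1 : ℝ) ≤ K0 by linarith), ?_⟩
  intro K hK q h hq hlow hup
  have hKK : (K0 : ℝ) ≤ K := by exact_mod_cast hK
  have hKR : (0 : ℝ) < K := by linarith
  have hqR : (0 : ℝ) < q := by exact_mod_cast Nat.pos_of_ne_zero hq
  have hφ : (0 : ℝ) < q.totient := by exact_mod_cast Nat.totient_pos.2 (Nat.pos_of_ne_zero hq)
  set y := (q : ℝ) / q.totient with hy
  set lam := (h : ℝ) * ((q.totient : ℝ) / q) with hlam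
  have hy0 : 0 < y := by positivity
  have hφy : (q.totient : ℝ) / q = 1 / y := by
    rw [hy]
    field_simp
  have hlam0 : 0 < lam := by linarith
  have hh1 : 1 ≤ h := by
    by_contra hcon
    have : h = 0 := by omega
    rw [hlam, this] at hlam0
    simp at hlam0
  have hhR : (1 : ℝ) ≤ h := by exact_mod_cast hh1
  have hhy : (h : ℝ) = lam * y := by
    rw [hlam, hφy]
    field_simp
  -- `y ≥ K`
  have hyK : (K : ℝ) ≤ y := by
    have h7 : (K : ℝ) ≤ Real.exp (y / K) := hlow.trans hup
    have h8 : Real.log K ≤ y / K := by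
      rw [Real.log_le_iff_le_exp hKR]
      exact h7
    have h9 : 1 ≤ Real.log K := by
      rw [Real.le_log_iff_exp_le hKR]
      have := Real.exp_one_lt_d9
      linarith
    have h10 : 1 ≤ y / K := h9.trans h8
    rwa [one_le_div hKR] at h10
  have hlogh : Real.log h ≤ y / K + Real.log y := by
    rw [hhy, Real.log_mul hlam0.ne' hy0.ne']
    have : Real.log lam ≤ y / K := by
      rw [Real.log_le_iff_le_exp hlam0]
      exact hup
    linarith
  set n := K1 * h ^ 2 with hn
  have hnR : (n : ℝ) = K1 * (h : ℝ) ^ 2 := by rw [hn]; push_cast; ring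
  have hn2 : 2 ≤ n := by
    have h7 : (3 : ℝ) ≤ h := by
      rw [hhy]
      have : (3 : ℝ) * 1 ≤ lam * y := mul_le_mul (by linarith) (by linarith) (by norm_num) hlam0.le
      linarith
    have h8 : 3 ≤ h := by exact_mod_cast h7
    rw [hn]
    nlinarith
  have hcond : (K1 : ℝ) * ∏ p ∈ q.primeFactors.filter (fun p => K1 * h ^ 2 < p), (1 - 1 / (p : ℝ)) ≤ 1 := by
    have hPp : ∀ p ∈ q.primeFactors, p.Prime := fun p hp => Nat.prime_of_mem_primeFactors hp
    have e1 := totient_prod q hq
    rw [← prod_filter_mul_prod_filter_not q.primeFactors (fun p => K1 * h ^ 2 < p)] at e1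
    set A1 := ∏ p ∈ q.primeFactors.filter (fun p => K1 * h ^ 2 < p), (1 - 1 / (p : ℝ)) with hA1
    set A2 := ∏ p ∈ q.primeFactors.filter (fun p => ¬ K1 * h ^ 2 < p), (1 - 1 / (p : ℝ)) with hA2
    have hA1p : 0 < A1 := prod_pos' _ fun p hp => hPp p (mem_filter.1 hp).1
    have h7 := hmer n (q.primeFactors.filter (fun p => ¬ K1 * h ^ 2 < p)) hn2 fun p hp =>
      ⟨hPp p (mem_filter.1 hp).1, by have := (mem_filter.1 hp).2; omega⟩
    rw [← hA2] at h7
    have hlogn0 : 0 < Real.log n := Real.log_pos (by exact_mod_cast hn2)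
    have h8 : A1 * (c / Real.log n) ≤ 1 / y := by
      rw [← hφy, e1]
      exact mul_le_mul_of_nonneg_left h7 hA1p.le
    have h9 : K1 * Real.log n ≤ c * y := by
      have h10 : Real.log n = Real.log K1 + 2 * Real.log h := by
        rw [hnR, Real.log_mul (by positivity) (by positivity), Real.log_pow]
        push_cast
        ring
      have h11 := hY0 y (h5.trans (hKK.trans hyK))
      rw [div_le_iff₀ hy0] at h11
      have h12 : K1 * (2 * (y / K)) ≤ c / 2 * y := by
        rw [div_le_iff₀ hc] at h4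
        have h13 : 4 * K1 ≤ K * c := h4.trans (mul_le_mul_of_nonneg_right hKK hc.le)
        rw [show (K1 : ℝ) * (2 * (y / K)) = (2 * K1 * y) / K by ring, div_le_iff₀ hKR]
        nlinarith
      have h13 : K1 * Real.log n ≤ K1 * (Real.log K1 + 2 * (y / K + Real.log y)) := by
        rw [h10]
        gcongr
      have h14 : K1 * (Real.log K1 + 2 * (y / K + Real.log y)) =
        K1 * (Real.log K1 + 2 * Real.log y) + K1 * (2 * (y / K)) := by ring
      linarith
    have h10 : A1 * c * y ≤ Real.log n := by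
      rw [mul_div_assoc', div_le_div_iff₀ hlogn0 hy0] at h8
      linarith
    have h11 : K1 * A1 * (c * y) ≤ 1 * (c * y) := by
      have : K1 * (A1 * c * y) ≤ K1 * Real.log n := mul_le_mul_of_nonneg_left h10 (by linarith)
      calc K1 * A1 * (c * y) = K1 * (A1 * c * y) := by ring
        _ ≤ K1 * Real.log n := this
        _ ≤ c * y := h9
        _ = _ := by ring
    exact le_of_mul_le_mul_right h11 (by positivity)
  have hmain := hLB 1 q.primeFactors (Icc 1 h) h hh1 (fun p hp => Nat.prime_of_mem_primeFactors hp)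
    (fun p _ => Nat.coprime_one_left p) (Subset.refl _) hcond
  rw [← V_eq_av q h hq, ← totient_prod q hq, Nat.card_Icc, Nat.add_sub_cancel, ← hlam] at hmain
  refine le_trans ?_ hmain
  have h7 : Real.exp (-(ε / 2 * lam)) ≤ 1 / 2 := by
    have h8 : 1 ≤ ε / 2 * lam := by
      rw [div_le_iff₀ hε] at h6
      have : (K0 : ℝ) ≤ lam := hKK.trans hlow
      nlinarith
    have h9 : Real.exp (-(ε / 2 * lam)) ≤ Real.exp (-1) := Real.exp_le_exp.2 (by linarith)
    have h10 : Real.exp (-1) ≤ 1 / 2 := by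
      rw [Real.exp_neg, inv_eq_one_div]
      apply one_div_le_one_div_of_le (by norm_num)
      have := Real.add_one_le_exp (1 : ℝ)
      linarith
    linarith
  calc Real.exp (-((1 + ε) * lam)) = Real.exp (-(ε / 2 * lam)) * Real.exp (-((1 + ε / 2) * lam)) := by
        rw [← Real.exp_add]
        congr 1
        ring
    _ ≤ 1 / 2 * Real.exp (-((1 + ε / 2) * lam)) := by gcongr

/-! ### gaps -/

/-- the proportion, among the reduced residues `a` modulo `q`, of those for which none of
`a + 1, …, a + h` is coprime to `q` -/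
noncomputable def gapTail (q h : ℕ) : ℝ :=
  (((range q).filter (fun a => Nat.Coprime a q ∧ ∀ j ∈ Icc 1 h, ¬ Nat.Coprime (a + j) q)).card : ℝ) / q.totient

theorem gapTail_nonneg (q h : ℕ) : 0 ≤ gapTail q h := by
  unfold gapTail
  positivity

theorem gapTail_anti (q : ℕ) : Antitone (gapTail q) := by
  intro h h' hh
  unfold gapTail
  have : ((range q).filter (fun a => Nat.Coprime a q ∧ ∀ j ∈ Icc 1 h', ¬ Nat.Coprime (a + j) q)).card ≤
      ((range q).filter (fun a => Nat.Coprime a q ∧ ∀ j ∈ Icc 1 h, ¬ Nat.Coprime (a + j) q)).card := by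
    refine card_le_card fun a ha => ?_
    rw [mem_filter] at ha ⊢
    refine ⟨ha.1, ha.2.1, fun j hj => ha.2.2 j ?_⟩
    rw [mem_Icc] at hj ⊢
    omega
  gcongr

theorem shift_sum (q : ℕ) (F : ℕ → ℕ) (hF : F q = F 0) : ∑ n ∈ range q, F (n + 1) = ∑ n ∈ range q, F n := by
  have h1 := sum_range_succ' F q
  have h2 := sum_range_succ F q
  omega

theorem empt_succ (q h : ℕ) : empt q (h + 1) +
    ((range q).filter (fun a => Nat.Coprime a q ∧ ∀ j ∈ Icc 1 h, ¬ Nat.Coprime (a + j) q)).card = empt q h := by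
  have h1 : empt q (h + 1) = ((range q).filter (fun n => ¬ Nat.Coprime n q ∧ ∀ j ∈ Icc 1 h, ¬ Nat.Coprime (n + j) q)).card := by
    unfold empt
    rw [card_filter, card_filter]
    rw [← shift_sum q (fun n => if (¬ Nat.Coprime n q ∧ ∀ j ∈ Icc 1 h, ¬ Nat.Coprime (n + j) q) then 1 else 0)]
    · refine sum_congr rfl fun n _ => ?_
      congr 1
      apply propext
      constructor
      · intro h2
        refine ⟨h2 1 (by simp), fun j hj => ?_⟩
        have := h2 (j + 1) (by rw [mem_Icc] at hj ⊢; omega)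
        have e : n + 1 + j = n + (j + 1) := by ring
        rwa [e]
      · rintro ⟨h2, h3⟩ j hj
        rw [mem_Icc] at hj
        rcases Nat.lt_or_ge 1 j with h4 | h4
        · have := h3 (j - 1) (by rw [mem_Icc]; omega)
          have e : n + 1 + (j - 1) = n + j := by omega
          rwa [e] at this
        · have : j = 1 := by omega
          rw [this]
          exact h2
    · have h2 : ∀ n, Nat.Coprime (q + n) q ↔ Nat.Coprime n q := fun n => by
        simp
      have h3 : Nat.Coprime q q ↔ Nat.Coprime 0 q := by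
        have := h2 0
        simpa using this
      simp only [h2, h3, Nat.zero_add]
  rw [h1]
  unfold empt
  rw [← card_union_of_disjoint]
  · congr 1
    ext n
    simp only [mem_union, mem_filter]
    tauto
  · rw [disjoint_left]
    intro n h2 h3
    simp only [mem_filter] at h2 h3
    exact h2.2.1 h3.2.1

theorem V_diff (q h : ℕ) (hq : q ≠ 0) : V q h - V q (h + 1) = (q.totient : ℝ) / q * gapTail q h := by
  unfold V gapTail
  rw [← empt_succ q h]
  have hφ : (q.totient : ℝ) ≠ 0 := by exact_mod_cast (Nat.totient_pos.2 (Nat.pos_of_ne_zero hq)).ne'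
  push_cast
  field_simp
  ring

theorem V_diff_le (q h k : ℕ) (hq : q ≠ 0) : V q h - V q (h + k) ≤ k * ((q.totient : ℝ) / q) * gapTail q h := by
  induction k with
  | zero => simp
  | succ k ih =>
    have h1 := V_diff q (h + k) hq
    have h2 := gapTail_anti q (Nat.le_add_right h k)
    have h3 : 0 ≤ (q.totient : ℝ) / q := by positivity
    have h4 := mul_le_mul_of_nonneg_left h2 h3
    push_cast
    rw [← add_assoc]
    linarith

theorem V_diff_ge (q h k : ℕ) (hq : q ≠ 0) :
    k * ((q.totient : ℝ) / q) * gapTail q (h + k) ≤ V q h - V q (h + k) := by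
  induction k with
  | zero => simp
  | succ k ih =>
    have h1 := V_diff q (h + k) hq
    have h2 := gapTail_anti q (Nat.le_add_right (h + k) 1)
    have h3 : 0 ≤ (q.totient : ℝ) / q := by positivity
    have h4 := mul_le_mul_of_nonneg_left h2 h3
    have h5 : 0 ≤ k * ((q.totient : ℝ) / q) := by positivity
    have h6 := mul_le_mul_of_nonneg_left h2 h5
    push_cast
    rw [← add_assoc]
    linarith

/-- **both bounds, for windows and for gaps** -/
theorem both (ε : ℝ) (hε : 0 < ε) (hε1 : ε ≤ 1) : ∃ K : ℕ, 1 ≤ K ∧ ∀ q h : ℕ, q ≠ 0 →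
    (K : ℝ) ≤ h * ((q.totient : ℝ) / q) → (h * ((q.totient : ℝ) / q)) ^ K ≤ (q : ℝ) / q.totient →
    (Real.exp (-((1 + ε) * (h * ((q.totient : ℝ) / q)))) ≤ V q h ∧
      V q h ≤ Real.exp (-((1 - ε) * (h * ((q.totient : ℝ) / q))))) ∧
    (Real.exp (-((1 + ε) * (h * ((q.totient : ℝ) / q)))) ≤ gapTail q h ∧
      gapTail q h ≤ Real.exp (-((1 - ε) * (h * ((q.totient : ℝ) / q))))) := by
  obtain ⟨Ku, hKu, hup⟩ := upper (ε / 8) (by positivity) (by linarith)
  obtain ⟨Kl, hKl, hlo⟩ := lower (ε / 8) (by positivity) (by linarith)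
  -- `2 x ≤ exp (7/8 ε x)`
  obtain ⟨n, hn⟩ := exists_nat_ge (32 / ε ^ 2)
  set K := 2 * (Ku + Kl + n + 32) + 1 with hK
  have hKuK : Ku + 1 ≤ K := by omega
  have hKlK : Kl ≤ K := by omega
  have hK32 : (32 : ℝ) ≤ K := by
    have : 32 ≤ K := by omega
    exact_mod_cast this
  have hKn : 64 / ε ^ 2 ≤ K := by
    have h1 : 2 * n ≤ K := by omega
    have h2 : (2 : ℝ) * n ≤ K := by exact_mod_cast h1
    have h3 : 64 / ε ^ 2 = 2 * (32 / ε ^ 2) := by ring
    linarith
  have hKε2 : 64 ≤ K * ε ^ 2 := by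
    rw [div_le_iff₀ (by positivity)] at hKn
    exact hKn
  have hKε : 64 ≤ K * ε := by
    have : ε ^ 2 ≤ ε := by nlinarith
    nlinarith
  refine ⟨K, by omega, ?_⟩
  intro q h hq hl1 hl2
  have hqR : (0 : ℝ) < q := by exact_mod_cast Nat.pos_of_ne_zero hq
  have hφ : (0 : ℝ) < q.totient := by exact_mod_cast Nat.totient_pos.2 (Nat.pos_of_ne_zero hq)
  set r := (q.totient : ℝ) / q with hr
  have hr0 : 0 < r := by positivity
  have hr1 : r ≤ 1 := by
    rw [hr, div_le_one hqR]
    exact_mod_cast Nat.totient_le q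
  have hyr : (q : ℝ) / q.totient = 1 / r := by rw [hr]; field_simp
  rw [hyr] at hl2
  set lam := (h : ℝ) * r with hlam
  have hlam32 : 32 ≤ lam := hK32.trans hl1
  have hlam1 : 1 ≤ lam := by linarith
  have hlam0 : 0 < lam := by linarith
  have hεlam : 64 ≤ ε * lam := by
    have : K * ε ≤ lam * ε := mul_le_mul_of_nonneg_right hl1 hε.le
    linarith
  have hε2lam : 64 ≤ ε ^ 2 * lam := by
    have : K * ε ^ 2 ≤ lam * ε ^ 2 := mul_le_mul_of_nonneg_right hl1 (by positivity)
    linarith
  have hh1 : (1 : ℝ) / r ≤ h / 32 := by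
    have : (h : ℝ) = lam / r := by rw [hlam]; field_simp
    rw [this, div_div, mul_comm r, ← div_div]
    gcongr
    linarith
  have hhpos : (0 : ℝ) < h := by
    have : (h : ℝ) = lam / r := by rw [hlam]; field_simp
    rw [this]
    positivity
  -- the lower bound for windows
  have Vlow : Real.exp (-((1 + ε / 8) * lam)) ≤ V q h := by
    refine hlo K hKlK q h hq hl1 ?_
    rw [hyr, ← hlam]
    -- `lam ≤ exp (lam ^ K / K)`
    have h1 : (K : ℝ) * Real.log lam ≤ 1 / r := by
      have h2 : Real.log (lam ^ K) ≤ lam ^ K := by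
        have := Real.log_le_sub_one_of_pos (show 0 < lam ^ K by positivity)
        linarith
      rw [Real.log_pow] at h2
      exact h2.trans hl2
    rw [← Real.log_le_iff_le_exp hlam0, le_div_iff₀ (by linarith)]
    linarith
  -- the upper bound for windows of comparable length
  have Vup : ∀ h' : ℕ, (h : ℝ) / 2 ≤ h' → (h' : ℝ) ≤ 2 * h → V q h' ≤ Real.exp (-((1 - ε / 8) * (h' * r))) := by
    intro h' h1 h2
    refine hup q h' hq ?_ ?_
    · have h3 : (Ku : ℝ) ≤ h' := by
        have h4 : (K : ℝ) ≤ h := by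
          calc (K : ℝ) ≤ lam := hl1
            _ ≤ h * 1 := mul_le_mul_of_nonneg_left hr1 hhpos.le
            _ = h := mul_one _
        have h5 : 2 * (Ku : ℝ) ≤ K := by
          have : 2 * Ku ≤ K := by omega
          exact_mod_cast this
        linarith
      exact_mod_cast h3
    · rw [← hr]
      have h3 : h' * r ≤ 2 * lam := by
        have := mul_le_mul_of_nonneg_right h2 hr0.le
        linarith
      have h4 : (h' * r) ^ Ku ≤ (2 * lam) ^ Ku := pow_le_pow_left₀ (by positivity) h3 _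
      have h5 : (2 * lam) ^ Ku ≤ (lam ^ 2) ^ Ku := pow_le_pow_left₀ (by positivity) (by nlinarith) _
      have h6 : (lam ^ 2) ^ Ku ≤ lam ^ K := by
        rw [← pow_mul]
        exact pow_le_pow_right₀ hlam1 (by omega)
      linarith
  have Vup0 := Vup h (by linarith) (by linarith)
  rw [← hlam] at Vup0
  refine ⟨⟨?_, ?_⟩, ?_, ?_⟩
  · refine le_trans (Real.exp_le_exp.2 ?_) Vlow
    nlinarith
  · refine le_trans Vup0 (Real.exp_le_exp.2 ?_)
    nlinarith
  · -- gaps from below
    set k := ⌈ε / 2 * h⌉₊ with hk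
    have hk1 : ε / 2 * h ≤ k := Nat.le_ceil _
    have hk2 : (k : ℝ) ≤ h := by
      have h1 : (k : ℝ) < ε / 2 * h + 1 := Nat.ceil_lt_add_one (by positivity)
      have h2 : (1 : ℝ) ≤ h / 32 := le_trans (by rw [one_le_div hr0]; exact hr1) hh1
      nlinarith
    have h1 := V_diff_le q h k hq
    have h2 := Vup (h + k) (by push_cast; linarith) (by push_cast; linarith)
    have h3 : V q (h + k) ≤ 1 / 2 * Real.exp (-((1 + ε / 8) * lam)) := by
      refine h2.trans ?_
      have h4 : (1 + ε / 2) * lam ≤ ((h + k : ℕ) : ℝ) * r := by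
        push_cast
        have := mul_le_mul_of_nonneg_right hk1 hr0.le
        rw [hlam]
        linarith
      have h5 : Real.exp (-((1 - ε / 8) * (((h + k : ℕ) : ℝ) * r))) ≤ Real.exp (-1 + -((1 + ε / 8) * lam)) := by
        apply Real.exp_le_exp.2
        have h6 : (1 - ε / 8) * ((1 + ε / 2) * lam) ≤ (1 - ε / 8) * (((h + k : ℕ) : ℝ) * r) :=
          mul_le_mul_of_nonneg_left h4 (by linarith)
        have h7 : (1 + ε / 8) * lam + 1 ≤ (1 - ε / 8) * ((1 + ε / 2) * lam) := by nlinarith
        linarith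
      refine h5.trans ?_
      rw [Real.exp_add]
      have h10 : Real.exp (-1) ≤ 1 / 2 := by
        rw [Real.exp_neg, inv_eq_one_div]
        apply one_div_le_one_div_of_le (by norm_num)
        have := Real.add_one_le_exp (1 : ℝ)
        linarith
      gcongr
    have h4 : 1 / 2 * Real.exp (-((1 + ε / 8) * lam)) ≤ lam * gapTail q h := by
      have h5 : k * r * gapTail q h ≤ lam * gapTail q h := by
        refine mul_le_mul_of_nonneg_right ?_ (gapTail_nonneg _ _)
        exact mul_le_mul_of_nonneg_right hk2 hr0.le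
      linarith
    -- `2 lam ≤ exp (7/8 ε lam)`
    have h5 : 2 * lam ≤ Real.exp (ε / 2 * lam) := by
      have h6 := Real.quadratic_le_exp_of_nonneg (show 0 ≤ ε / 2 * lam by positivity)
      have h7 : 2 * lam ≤ (ε / 2 * lam) ^ 2 / 2 := by nlinarith
      have h8 : 0 ≤ ε / 2 * lam := by positivity
      linarith
    have h6 : Real.exp (-((1 + ε) * lam)) ≤ Real.exp (-(ε / 2 * lam)) * Real.exp (-((1 + ε / 8) * lam)) := by
      rw [← Real.exp_add]
      apply Real.exp_le_exp.2
      nlinarith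
    have h7 : lam * Real.exp (-(ε / 2 * lam)) ≤ 1 / 2 := by
      have h8 : Real.exp (ε / 2 * lam) * Real.exp (-(ε / 2 * lam)) = 1 := by rw [← Real.exp_add]; simp
      have h9 := mul_le_mul_of_nonneg_right h5 (Real.exp_pos (-(ε / 2 * lam))).le
      linarith
    have h8 : lam * Real.exp (-((1 + ε) * lam)) ≤ lam * gapTail q h := by
      calc lam * Real.exp (-((1 + ε) * lam)) ≤ lam * (Real.exp (-(ε / 2 * lam)) * Real.exp (-((1 + ε / 8) * lam))) := by
            gcongr
        _ = (lam * Real.exp (-(ε / 2 * lam))) * Real.exp (-((1 + ε / 8) * lam)) := by ring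
        _ ≤ 1 / 2 * Real.exp (-((1 + ε / 8) * lam)) := by gcongr
        _ ≤ _ := h4
    exact le_of_mul_le_mul_left h8 hlam0
  · -- gaps from above
    set k := ⌊ε / 4 * h⌋₊ with hk
    have hk1 : (k : ℝ) ≤ ε / 4 * h := Nat.floor_le (by positivity)
    have hk2 : ε / 4 * h < k + 1 := Nat.lt_floor_add_one _
    have hkh : k ≤ h := by
      have : (k : ℝ) ≤ h := by nlinarith
      exact_mod_cast this
    have h1 := V_diff_ge q (h - k) k hq
    rw [Nat.sub_add_cancel hkh] at h1
    have hcast : ((h - k : ℕ) : ℝ) = h - k := Nat.cast_sub hkh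
    have h2 := Vup (h - k) (by rw [hcast]; nlinarith) (by rw [hcast]; linarith [(Nat.cast_nonneg k : (0 : ℝ) ≤ k)])
    have h3 : 1 ≤ k * r := by
      have h4 : (ε / 4 * h) * r ≤ (k + 1) * r := mul_le_mul_of_nonneg_right hk2.le hr0.le
      have h5 : ε / 4 * h * r = ε * lam / 4 := by rw [hlam]; ring
      nlinarith
    have h4 : gapTail q h ≤ V q (h - k) := by
      have h5 : 1 * gapTail q h ≤ k * r * gapTail q h := mul_le_mul_of_nonneg_right h3 (gapTail_nonneg _ _)
      have h6 := V_nonneg q h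
      linarith
    refine h4.trans (h2.trans (Real.exp_le_exp.2 ?_))
    rw [hcast]
    have h5 : (1 - ε / 4) * lam ≤ ((h : ℝ) - k) * r := by
      have := mul_le_mul_of_nonneg_right hk1 hr0.le
      rw [hlam]
      linarith
    have h6 : (1 - ε / 8) * ((1 - ε / 4) * lam) ≤ (1 - ε / 8) * (((h : ℝ) - k) * r) :=
      mul_le_mul_of_nonneg_left h5 (by linarith)
    have h7 : (1 - ε) * lam ≤ (1 - ε / 8) * ((1 - ε / 4) * lam) := by nlinarith
    linarith

end Pool.Agent.H11.Avg
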