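import Pool.Agent.H11.StrTail

set_option autoImplicit false

/-! # Exponential moments of the gaps -/

open Finset Filter Topology

namespace Pool.Agent.H11.Avg

theorem summ (β β' c : ℝ) (hβ0 : 0 < β) (hβ : β < β') (hc : 0 < c) :
    Summable (fun k : ℕ => Real.exp (((k : ℝ) + 1) ^ β) * Real.exp (-(c * ((k : ℝ) / 2) ^ β'))) := by
  have hβ'0 : 0 < β' := hβ0.trans hβ
  have h1 : Tendsto (fun y : ℝ => ((y + 1) ^ β + 2 * Real.log y) / y ^ β') atTop (𝓝 0) := by
    have h2 : Tendsto (fun y : ℝ => Real.log y / y ^ β') atTop (𝓝 0) :=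
      (isLittleO_log_rpow_atTop hβ'0).tendsto_div_nhds_zero
    have h3 : Tendsto (fun y : ℝ => y ^ (-(β' - β))) atTop (𝓝 0) := tendsto_rpow_neg_atTop (by linarith)
    have h4 : Tendsto (fun y : ℝ => (2 : ℝ) ^ β * y ^ (-(β' - β)) + 2 * (Real.log y / y ^ β')) atTop (𝓝 0) := by
      have := (h3.const_mul ((2 : ℝ) ^ β)).add (h2.const_mul 2)
      simpa using this
    refine squeeze_zero' ?_ ?_ h4
    · filter_upwards [eventually_ge_atTop 1] with y hy
      have := Real.log_nonneg hy
      positivity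
    · filter_upwards [eventually_ge_atTop 1] with y hy
      have hy0 : 0 < y := by linarith
      rw [add_div, mul_div_assoc]
      refine add_le_add ?_ le_rfl
      rw [div_le_iff₀ (by positivity), mul_assoc, ← Real.rpow_add hy0]
      have e : -(β' - β) + β' = β := by ring
      rw [e, ← Real.mul_rpow (by norm_num) hy0.le]
      refine Real.rpow_le_rpow (by linarith) (by linarith) hβ0.le
  have h2 := (h1.comp tendsto_natCast_atTop_atTop (α := ℕ)).eventually_le_const
    (show (0 : ℝ) < c * (1 / 2) ^ β' by positivity)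
  have h3 : Summable (fun k : ℕ => ((k : ℝ) ^ 2)⁻¹) := Real.summable_nat_pow_inv.2 (by norm_num)
  refine Summable.of_norm_bounded_eventually_nat h3 ?_
  filter_upwards [h2, eventually_ge_atTop 1] with k h4 h5
  have hk : (1 : ℝ) ≤ k := by exact_mod_cast h5
  have hk0 : (0 : ℝ) < k := by linarith
  simp only [Function.comp_apply] at h4
  rw [div_le_iff₀ (by positivity)] at h4
  rw [Real.norm_of_nonneg (by positivity), ← Real.exp_add]
  have e : ((k : ℝ) / 2) ^ β' = (1 / 2) ^ β' * (k : ℝ) ^ β' := by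
    rw [← Real.mul_rpow (by norm_num) hk0.le]
    congr 1
    ring
  have e2 : ((k : ℝ) ^ 2)⁻¹ = Real.exp (-(2 * Real.log k)) := by
    rw [Real.exp_neg, ← Real.log_rpow hk0, Real.exp_log (by positivity)]
    norm_cast
  rw [e2]
  apply Real.exp_le_exp.2
  rw [e]
  nlinarith

/-- the distance from `a` to the next integer coprime to `q` -/
noncomputable def gap (q a : ℕ) : ℕ := sInf {j : ℕ | 1 ≤ j ∧ Nat.Coprime (a + j) q}

theorem gap_nonempty (q a : ℕ) (hq : q ≠ 0) : {j : ℕ | 1 ≤ j ∧ Nat.Coprime (a + j) q}.Nonempty := by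
  refine ⟨q * (a + 1) + 1 - a, ?_, ?_⟩
  · have : a + 1 ≤ q * (a + 1) := Nat.le_mul_of_pos_left _ (Nat.pos_of_ne_zero hq)
    omega
  · have h1 : a + 1 ≤ q * (a + 1) := Nat.le_mul_of_pos_left _ (Nat.pos_of_ne_zero hq)
    have h2 : a + (q * (a + 1) + 1 - a) = q * (a + 1) + 1 := by omega
    rw [h2]
    simp

theorem lt_gap (q a h : ℕ) (hq : q ≠ 0) : h < gap q a ↔ ∀ j ∈ Icc 1 h, ¬ Nat.Coprime (a + j) q := by
  constructor
  · intro h1 j hj hc
    rw [mem_Icc] at hj
    have : gap q a ≤ j := Nat.sInf_le ⟨hj.1, hc⟩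
    omega
  · intro h1
    by_contra hcon
    push Not at hcon
    have h2 := Nat.sInf_mem (gap_nonempty q a hq)
    exact h1 (gap q a) (by rw [mem_Icc]; exact ⟨h2.1, hcon⟩) h2.2

/-- **Exponential moments** -/
theorem moment (β : ℝ) (hβ0 : 0 < β) (hβ : β < 1 / 2) : ∃ C : ℝ, ∀ q : ℕ, q ≠ 0 →
    ∑ a ∈ (range q).filter (fun a => Nat.Coprime a q), Real.exp ((gap q a * ((q.totient : ℝ) / q)) ^ β) ≤
      C * q.totient := by
  set β' := (β + 1 / 2) / 2 with hβ'
  obtain ⟨c, C, hc, hC, hT⟩ := tail β' (by positivity) (by linarith)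
  have hS := summ β β' c hβ0 (by linarith) hc
  set u : ℕ → ℝ := fun k => Real.exp (((k : ℝ) + 1) ^ β) * Real.exp (-(c * ((k : ℝ) / 2) ^ β')) with hu
  refine ⟨(C + Real.exp c) * ∑' k, u k, ?_⟩
  intro q hq
  have hqR : (0 : ℝ) < q := by exact_mod_cast Nat.pos_of_ne_zero hq
  have hφ : (0 : ℝ) < q.totient := by exact_mod_cast Nat.totient_pos.2 (Nat.pos_of_ne_zero hq)
  set r := (q.totient : ℝ) / q with hr
  have hr0 : 0 < r := by positivity
  have hr1 : r ≤ 1 := by
    rw [hr, div_le_one hqR]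
    exact_mod_cast Nat.totient_le q
  set R := (range q).filter (fun a => Nat.Coprime a q) with hR
  have hRcard : (R.card : ℝ) = q.totient := by
    unfold Nat.totient
    rw [hR]
    norm_cast
    congr 1
    exact filter_congr fun a _ => Nat.coprime_comm
  set N := R.sup (fun a => ⌊gap q a * r⌋₊) with hN
  -- the number of large gaps
  have hnum : ∀ k : ℕ, ((R.filter (fun a => (k : ℝ) ≤ gap q a * r)).card : ℝ) ≤
      q.totient * ((C + Real.exp c) * Real.exp (-(c * ((k : ℝ) / 2) ^ β'))) := by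
    intro k
    rcases Nat.lt_or_ge k 2 with hk | hk
    · have h1 : ((R.filter (fun a => (k : ℝ) ≤ gap q a * r)).card : ℝ) ≤ q.totient := by
        rw [← hRcard]
        exact_mod_cast card_filter_le _ _
      have h2 : ((k : ℝ) / 2) ^ β' ≤ 1 := by
        refine Real.rpow_le_one (by positivity) ?_ (by positivity)
        have : (k : ℝ) ≤ 2 := by exact_mod_cast (by omega : k ≤ 2)
        linarith
      have h3 : 1 ≤ (C + Real.exp c) * Real.exp (-(c * ((k : ℝ) / 2) ^ β')) := by
        have h4 : Real.exp (-c) ≤ Real.exp (-(c * ((k : ℝ) / 2) ^ β')) := by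
          apply Real.exp_le_exp.2
          nlinarith
        have h5 : Real.exp c * Real.exp (-c) = 1 := by rw [← Real.exp_add]; simp
        have h6 : Real.exp c * Real.exp (-c) ≤ (C + Real.exp c) * Real.exp (-(c * ((k : ℝ) / 2) ^ β')) :=
          mul_le_mul (by linarith) h4 (Real.exp_pos _).le (by positivity)
        linarith
      calc ((R.filter (fun a => (k : ℝ) ≤ gap q a * r)).card : ℝ) ≤ q.totient * 1 := by rw [mul_one]; exact h1
        _ ≤ _ := mul_le_mul_of_nonneg_left h3 hφ.le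
    · have hkR : (2 : ℝ) ≤ k := by exact_mod_cast hk
      set h := ⌈(k : ℝ) / r⌉₊ - 1 with hh
      have hkr : 0 < (k : ℝ) / r := by positivity
      have hceil : 1 ≤ ⌈(k : ℝ) / r⌉₊ := Nat.ceil_pos.2 hkr
      have hcast : (h : ℝ) = ⌈(k : ℝ) / r⌉₊ - 1 := by
        rw [hh, Nat.cast_sub hceil]
        simp
      have hlow : (k : ℝ) / r - 1 ≤ h := by
        rw [hcast]
        linarith [Nat.le_ceil ((k : ℝ) / r)]
      have h1 : (R.filter (fun a => (k : ℝ) ≤ gap q a * r)).card ≤
          ((range q).filter (fun a => Nat.Coprime a q ∧ ∀ j ∈ Icc 1 h, ¬ Nat.Coprime (a + j) q)).card := by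
        refine card_le_card fun a ha => ?_
        rw [mem_filter, hR, mem_filter] at ha
        rw [mem_filter]
        refine ⟨ha.1.1, ha.1.2, ?_⟩
        rw [← lt_gap q a h hq]
        have h2 : (k : ℝ) / r ≤ gap q a := by
          rw [div_le_iff₀ hr0]
          exact ha.2
        have h3 : ⌈(k : ℝ) / r⌉₊ ≤ gap q a := Nat.ceil_le.2 h2
        omega
      have h2 : ((R.filter (fun a => (k : ℝ) ≤ gap q a * r)).card : ℝ) ≤ q.totient * gapTail q h := by
        unfold gapTail
        rw [mul_div_cancel₀ _ hφ.ne']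
        exact_mod_cast h1
      refine h2.trans (mul_le_mul_of_nonneg_left ?_ hφ.le)
      refine (hT q h hq).trans ?_
      have h3 : (k : ℝ) / 2 ≤ h * r := by
        have h4 : ((k : ℝ) / r - 1) * r ≤ h * r := mul_le_mul_of_nonneg_right hlow hr0.le
        have h5 : ((k : ℝ) / r - 1) * r = k - r := by field_simp
        linarith
      have h4 : (k : ℝ) / 2 ≤ h := h3.trans (mul_le_of_le_one_right (Nat.cast_nonneg _) hr1)
      have h5 : ((k : ℝ) / 2) ^ β' ≤ min (h * r) ((h : ℝ) ^ β') := by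
        refine le_min ?_ (Real.rpow_le_rpow (by positivity) h4 (by positivity))
        refine le_trans ?_ h3
        calc ((k : ℝ) / 2) ^ β' ≤ ((k : ℝ) / 2) ^ (1 : ℝ) :=
              Real.rpow_le_rpow_of_exponent_le (by linarith) (by linarith)
          _ = _ := Real.rpow_one _
      have h6 : Real.exp (-(c * min (h * r) ((h : ℝ) ^ β'))) ≤ Real.exp (-(c * ((k : ℝ) / 2) ^ β')) := by
        apply Real.exp_le_exp.2
        have := mul_le_mul_of_nonneg_left h5 hc.le
        linarith
      refine mul_le_mul ?_ h6 (Real.exp_pos _).le (by positivity)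
      linarith [Real.exp_pos c]
  -- pointwise
  have hpt : ∀ a ∈ R, Real.exp ((gap q a * r) ^ β) ≤
      ∑ k ∈ range (N + 1), if (k : ℝ) ≤ gap q a * r then Real.exp (((k : ℝ) + 1) ^ β) else 0 := by
    intro a ha
    set t := (gap q a : ℝ) * r with ht
    have ht0 : 0 ≤ t := by positivity
    have h1 : ⌊t⌋₊ ≤ N := le_sup (f := fun a => ⌊gap q a * r⌋₊) ha
    have h2 : Real.exp (t ^ β) ≤ if ((⌊t⌋₊ : ℕ) : ℝ) ≤ t then Real.exp (((⌊t⌋₊ : ℝ) + 1) ^ β) else 0 := by
      rw [if_pos (Nat.floor_le ht0)]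
      apply Real.exp_le_exp.2
      exact Real.rpow_le_rpow ht0 (Nat.lt_floor_add_one t).le hβ0.le
    refine h2.trans ?_
    refine single_le_sum (f := fun k : ℕ => if (k : ℝ) ≤ t then Real.exp (((k : ℝ) + 1) ^ β) else 0)
      (fun k _ => ?_) (mem_range.2 (by omega))
    show (0 : ℝ) ≤ if (k : ℝ) ≤ t then Real.exp (((k : ℝ) + 1) ^ β) else 0
    split_ifs
    · exact (Real.exp_pos _).le
    · exact le_rfl
  calc ∑ a ∈ R, Real.exp ((gap q a * r) ^ β)
      ≤ ∑ a ∈ R, ∑ k ∈ range (N + 1), (if (k : ℝ) ≤ gap q a * r then Real.exp (((k : ℝ) + 1) ^ β) else 0) :=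
        sum_le_sum hpt
    _ = ∑ k ∈ range (N + 1), ((R.filter (fun a => (k : ℝ) ≤ gap q a * r)).card : ℝ) * Real.exp (((k : ℝ) + 1) ^ β) := by
      rw [sum_comm]
      refine sum_congr rfl fun k _ => ?_
      rw [← sum_filter, sum_const, nsmul_eq_mul]
    _ ≤ ∑ k ∈ range (N + 1), (q.totient * (C + Real.exp c)) * u k := by
      refine sum_le_sum fun k _ => ?_
      have := mul_le_mul_of_nonneg_right (hnum k) (Real.exp_pos (((k : ℝ) + 1) ^ β)).le
      refine this.trans (le_of_eq ?_)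
      simp only [hu]
      ring
    _ = (q.totient * (C + Real.exp c)) * ∑ k ∈ range (N + 1), u k := by rw [mul_sum]
    _ ≤ (q.totient * (C + Real.exp c)) * ∑' k, u k := by
      refine mul_le_mul_of_nonneg_left ?_ (by positivity)
      exact hS.sum_le_tsum _ fun k _ => by
        simp only [hu]
        positivity
    _ = _ := by ring

end Pool.Agent.H11.Avg
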