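import Pool.Agent.H11.LowMain
import Pool.Graph.R_pool_sql_team_seeded_707910d6.T2H32.GM.Lim2

set_option autoImplicit false

/-! # Primorials: windows at a power of the mean gap -/

open Finset Filter Topology
open Pool.Agent.T2H32.GM (Rg Phi Phi_eq om conv om_lim osc)
open Pool.Agent.T2H32.BF (mertens)

namespace Pool.Agent.H11.Avg

/-- the rough numbers in `[1, h]` -/
def rgh (T h : ℕ) : Finset ℕ := (Icc 1 h).filter (Rg T)

/-- the primes in `(T, z]` -/
def pint (T z : ℕ) : Finset ℕ := (Ioc T z).filter Nat.Prime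

theorem Q_pint (T z : ℕ) (h : T ≤ z) : primorial z = primorial T * Q (pint T z) := by
  unfold primorial Q pint
  rw [← prod_union]
  · congr 1
    ext p
    simp only [mem_filter, mem_range, mem_union, mem_Ioc]
    by_cases hp : p.Prime
    · simp only [hp, and_true]
      omega
    · simp [hp]
  · rw [disjoint_left]
    intro p h1 h2
    rw [mem_filter, mem_range] at h1
    rw [mem_filter, mem_Ioc] at h2
    omega

theorem V_ge_av (T z h : ℕ) (hTz : T ≤ z) :
    1 / (primorial T : ℝ) * av (pint T z) (fun m => (0 : ℝ) ^ (sv (primorial T) (pint T z) (rgh T h) m).card) ≤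
      V (primorial z) h := by
  have hW : 0 < primorial T := primorial_pos T
  have hWR : (0 : ℝ) < primorial T := by exact_mod_cast hW
  set P := pint T z with hP
  have hPp : ∀ p ∈ P, p.Prime := fun p hp => (mem_filter.1 hp).2
  have hR : 0 < Q P := Q_pos P hPp
  have hRR : (0 : ℝ) < Q P := by exact_mod_cast hR
  have e1 : (∑ m ∈ range (Q P), (0 : ℝ) ^ (sv (primorial T) P (rgh T h) m).card) =
      ((range (Q P)).filter (fun m => sv (primorial T) P (rgh T h) m = ∅)).card := by
    rw [card_filter]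
    push_cast
    refine sum_congr rfl fun m _ => ?_
    by_cases hm : sv (primorial T) P (rgh T h) m = ∅
    · rw [if_pos hm, hm, card_empty, pow_zero]
    · rw [if_neg hm]
      have : (sv (primorial T) P (rgh T h) m).card ≠ 0 := by
        rwa [Ne, card_eq_zero]
      rw [zero_pow this]
  have h1 : ((range (Q P)).filter (fun m => sv (primorial T) P (rgh T h) m = ∅)).card ≤ empt (primorial z) h := by
    unfold empt
    refine card_le_card_of_injOn (fun m => primorial T * m) ?_ ?_
    · intro m hm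
      rw [mem_coe, mem_filter, mem_range] at hm
      rw [mem_coe, mem_filter, mem_range]
      refine ⟨?_, fun j hj hc => ?_⟩
      · rw [Q_pint T z hTz, ← hP]
        exact Nat.mul_lt_mul_of_pos_left hm.1 hW
      · have hcop : ∀ p, p.Prime → p ≤ z → ¬ p ∣ primorial T * m + j := by
          intro p hp hpz hd
          exact hp.one_lt.ne' (Nat.eq_one_of_dvd_coprimes hc hd (hp.dvd_primorial_iff.2 hpz))
        have hj2 : j ∈ rgh T h := by
          unfold rgh
          rw [mem_filter]
          refine ⟨hj, fun p hpT hp hd => ?_⟩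
          refine hcop p hp (hpT.trans hTz) ?_
          exact (Nat.dvd_add_right ((hp.dvd_primorial_iff.2 hpT).mul_right m)).2 hd
        have hj3 : j ∈ sv (primorial T) P (rgh T h) m := by
          unfold sv
          rw [mem_filter]
          refine ⟨hj2, fun p hp => ?_⟩
          rw [hP, pint, mem_filter, mem_Ioc] at hp
          exact hcop p hp.2 hp.1.2
        rw [hm.2] at hj3
        exact absurd hj3 (notMem_empty _)
    · intro a _ b _ hab
      exact Nat.eq_of_mul_eq_mul_left hW hab
  unfold V av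
  rw [e1, Q_pint T z hTz, ← hP]
  push_cast
  have h2 : (((range (Q P)).filter (fun m => sv (primorial T) P (rgh T h) m = ∅)).card : ℝ) ≤ empt (primorial z) h := by
    exact_mod_cast h1
  rw [Q_pint T z hTz, ← hP] at h2
  rw [div_mul_div_comm, one_mul]
  gcongr

/-- mean gap of the reduced residues modulo the product of the primes up to `z` -/
noncomputable def mg (z : ℕ) : ℝ := (primorial z : ℝ) / (primorial z).totient

theorem mg_eq (z : ℕ) : mg z = 1 / Pool.Agent.T2H32.BF.V z := by
  unfold mg
  rw [Pool.Agent.T2H32.GM.totient_primorial]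
  have h1 : (primorial z : ℝ) ≠ 0 := by exact_mod_cast (primorial_pos z).ne'
  have h2 := (Pool.Agent.T2H32.BF.V_pos z).ne'
  field_simp

theorem mg_pos (z : ℕ) : 0 < mg z := by
  rw [mg_eq]
  exact one_div_pos.2 (Pool.Agent.T2H32.BF.V_pos z)

theorem mg_top : Tendsto mg atTop atTop := by
  have h1 : Tendsto (fun z : ℕ => Pool.Agent.T2H32.BF.V z) atTop (𝓝[>] 0) := by
    rw [tendsto_nhdsWithin_iff]
    refine ⟨?_, Eventually.of_forall fun n => Pool.Agent.T2H32.BF.V_pos n⟩
    have h2 := mertens
    have h3 : Tendsto (fun n : ℕ => (Real.log n)⁻¹) atTop (𝓝 0) :=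
      tendsto_inv_atTop_zero.comp (Real.tendsto_log_atTop.comp tendsto_natCast_atTop_atTop)
    have h4 := h2.mul h3
    rw [mul_zero] at h4
    refine h4.congr' ?_
    filter_upwards [eventually_ge_atTop 2] with n hn
    have : Real.log n ≠ 0 := (Real.log_pos (by exact_mod_cast hn)).ne'
    field_simp
  have h2 := h1.inv_tendsto_nhdsGT_zero
  refine h2.congr fun z => ?_
  rw [mg_eq, one_div]
  rfl

/-- sieving limit -/
noncomputable def tt (u : ℝ) (h : ℕ) : ℕ := ⌊(h : ℝ) ^ (1 / u)⌋₊

section
variable (u : ℝ) (hu : 1 < u)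
include hu

theorem tt_top : Tendsto (tt u) atTop atTop := by
  refine tendsto_nat_floor_atTop.comp ?_
  exact (tendsto_rpow_atTop (by positivity)).comp tendsto_natCast_atTop_atTop

theorem tt_le (h : ℕ) (hh : 1 ≤ h) : tt u h ≤ h := by
  have h9 : (1 : ℝ) ≤ h := by exact_mod_cast hh
  have h10 : (tt u h : ℝ) ≤ h := by
    refine (Nat.floor_le (by positivity)).trans ?_
    calc (h : ℝ) ^ (1 / u) ≤ (h : ℝ) ^ (1 : ℝ) := by
          refine Real.rpow_le_rpow_of_exponent_le h9 ?_
          rw [div_le_one (by linarith)]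
          exact hu.le
      _ = _ := Real.rpow_one _
  exact_mod_cast h10

/-- the number of rough positions -/
theorem card_lim : ∀ η > 0, ∀ᶠ h : ℕ in atTop, ((rgh (tt u h) h).card : ℝ) *
    Real.log (tt u h) / h ≤ om u + η := by
  intro η hη
  have hT := tt_top u hu
  have h1 : Tendsto (fun z => Pool.Agent.T2H32.GM.w (tt u z) u +
      ((u + 1) * (Real.log (tt u z) / (tt u z : ℝ)))) atTop (𝓝 (om u + (u + 1) * 0)) := by
    refine ((conv u hu).comp hT).add (Tendsto.const_mul _ ?_)
    have h2 : Tendsto (fun y : ℝ => Real.log y / y) atTop (𝓝 0) :=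
      Real.isLittleO_log_id_atTop.tendsto_div_nhds_zero
    exact h2.comp (tendsto_natCast_atTop_atTop.comp hT)
  rw [mul_zero, add_zero] at h1
  have h2 := h1.eventually_le_const (show om u < om u + η by linarith)
  filter_upwards [h2, hT.eventually_ge_atTop 2, eventually_ge_atTop 2] with h hz1 hz2 hz3
  refine le_trans ?_ hz1
  set T := tt u h with hTd
  have hTR : (2 : ℝ) ≤ T := by exact_mod_cast hz2
  have hhR : (2 : ℝ) ≤ h := by exact_mod_cast hz3
  have hlog : 0 < Real.log T := Real.log_pos (by linarith)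
  set x := (h : ℝ) ^ (1 / u) with hx
  have hx0 : 0 < x := by positivity
  have hTx : (T : ℝ) ≤ x := Nat.floor_le hx0.le
  have hTx2 : x < T + 1 := Nat.lt_floor_add_one x
  have hxu : x ^ u = h := by
    rw [hx, ← Real.rpow_mul (by positivity)]
    rw [one_div, inv_mul_cancel₀ (by linarith), Real.rpow_one]
  have hTu : (T : ℝ) ^ u ≤ h := by
    rw [← hxu]
    exact Real.rpow_le_rpow (by positivity) hTx (by linarith)
  have hTup : 0 < (T : ℝ) ^ u := by positivity
  -- `1 - T^u / h ≤ u / T`
  have hdiff : 1 - u / T ≤ (T : ℝ) ^ u / h := by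
    have h3 : (T : ℝ) ^ u / h = (T / x) ^ u := by
      rw [Real.div_rpow (by positivity) hx0.le, hxu]
    rw [h3]
    have h4 : 1 - 1 / T ≤ (T : ℝ) / x := by
      rw [le_div_iff₀ hx0]
      have h5 : (1 - 1 / (T : ℝ)) * x ≤ (1 - 1 / (T : ℝ)) * (T + 1) := by
        refine mul_le_mul_of_nonneg_left hTx2.le ?_
        have : 1 / (T : ℝ) ≤ 1 := by
          rw [div_le_one (by linarith)]
          linarith
        linarith
      have h6 : (1 - 1 / (T : ℝ)) * (T + 1) = T - 1 / T := by
        field_simp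
        ring
      have h7 : 0 < 1 / (T : ℝ) := by positivity
      linarith
    have h5 : (-1 : ℝ) ≤ T / x - 1 := by
      have : 0 ≤ (T : ℝ) / x := by positivity
      linarith
    have h6 := one_add_mul_self_le_rpow_one_add h5 hu.le
    have h7 : 1 + (T / x - 1) = (T : ℝ) / x := by ring
    rw [h7] at h6
    refine le_trans ?_ h6
    have h8 : u * (-(1 / (T : ℝ))) ≤ u * (T / x - 1) := mul_le_mul_of_nonneg_left (by linarith) (by linarith)
    have h9 : u * (-(1 / (T : ℝ))) = -(u / T) := by ring
    linarith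
  -- the count
  have hcount : ((rgh T h).card : ℝ) ≤ Phi T ((T : ℝ) ^ u) + (h - (T : ℝ) ^ u) + 1 := by
    rw [Phi_eq, zero_add]
    set n := ⌊(T : ℝ) ^ u⌋₊ with hn
    have h3 : (n : ℝ) ≤ (T : ℝ) ^ u := Nat.floor_le hTup.le
    have h4 : (T : ℝ) ^ u < n + 1 := Nat.lt_floor_add_one _
    have hnh : n ≤ h := by
      have : (n : ℝ) ≤ h := h3.trans hTu
      exact_mod_cast this
    have h5 : (rgh T h).card ≤ ((Ioc 0 n).filter (Rg T)).card + (h - n) := by
      unfold rgh
      have h6 : (Icc 1 h).filter (Rg T) ⊆ (Ioc 0 n).filter (Rg T) ∪ Ioc n h := by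
        intro a ha
        rw [mem_filter, mem_Icc] at ha
        rw [mem_union, mem_filter, mem_Ioc, mem_Ioc]
        by_cases h7 : a ≤ n
        · exact Or.inl ⟨by omega, ha.2⟩
        · exact Or.inr (by omega)
      refine (card_le_card h6).trans ((card_union_le _ _).trans ?_)
      rw [Nat.card_Ioc]
    have h6 : ((rgh T h).card : ℝ) ≤ ((Ioc 0 n).filter (Rg T)).card + ((h : ℝ) - n) := by
      have := (Nat.cast_le (α := ℝ)).2 h5
      push_cast [Nat.cast_sub hnh] at this
      exact this
    linarith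
  rw [mul_div_assoc]
  have h3 : ((rgh T h).card : ℝ) * (Real.log T / h) ≤
      (Phi T ((T : ℝ) ^ u) + (h - (T : ℝ) ^ u) + 1) * (Real.log T / h) :=
    mul_le_mul_of_nonneg_right hcount (by positivity)
  refine h3.trans ?_
  have h4 : (Phi T ((T : ℝ) ^ u) + (h - (T : ℝ) ^ u) + 1) * (Real.log T / h) =
      Phi T ((T : ℝ) ^ u) * Real.log T / h + ((1 - (T : ℝ) ^ u / h) + 1 / h) * Real.log T := by
    field_simp
    ring
  rw [h4]
  have h5 : Phi T ((T : ℝ) ^ u) * Real.log T / h ≤ Pool.Agent.T2H32.GM.w T u := by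
    unfold Pool.Agent.T2H32.GM.w
    have := Pool.Agent.T2H32.GM.Phi_nonneg T ((T : ℝ) ^ u)
    gcongr
  have h6 : (1 - (T : ℝ) ^ u / h) + 1 / h ≤ (u + 1) * (1 / T) := by
    have h7 : 1 / (h : ℝ) ≤ 1 / T := by
      have h8 : (T : ℝ) ≤ h := by
        calc (T : ℝ) = (T : ℝ) ^ (1 : ℝ) := (Real.rpow_one _).symm
          _ ≤ (T : ℝ) ^ u := Real.rpow_le_rpow_of_exponent_le (by linarith) hu.le
          _ ≤ h := hTu
      gcongr
    have h8 : (u + 1) * (1 / T) = u / T + 1 / T := by ring
    rw [h8]
    linarith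
  have h7 := mul_le_mul_of_nonneg_right h6 hlog.le
  have h8 : (u + 1) * (1 / T) * Real.log T = (u + 1) * (Real.log T / T) := by ring
  linarith

end

end Pool.Agent.H11.Avg
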