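import Pool.Agent.H11.Prim

set_option autoImplicit false

/-! # Primorials: the lower bound for windows beyond a power of the mean gap -/

open Finset Filter Topology
open Pool.Agent.T2H32.GM (Rg Phi Phi_eq om conv om_lim osc)
open Pool.Agent.T2H32.BF (mertens)

namespace Pool.Agent.H11.Avg

/-- the product over the primes above `n` is small compared with `1 / K` -/
theorem tail_small (K : ℕ) : ∃ K' : ℕ, 1 ≤ K' ∧ ∀ z n : ℕ, (K' : ℝ) ≤ mg z → 2 ≤ n →
    Real.log n ≤ 3 * (mg z / K') + K → ∀ S : Finset ℕ, (∀ p ∈ (Ioc n z).filter Nat.Prime, p ∈ S) →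
      (∀ p ∈ S, p.Prime) → (K : ℝ) * ∏ p ∈ S, (1 - 1 / (p : ℝ)) ≤ 1 := by
  obtain ⟨c, hc, hmer⟩ := mertens_low
  obtain ⟨K', hK'⟩ := exists_nat_ge (max 1 ((3 * K + K * K) / c + (3 * K + K * K) / c))
  have hK1 : (1 : ℝ) ≤ K' := (le_max_left _ _).trans hK'
  have hK2 : (3 * K + K * K) / c + (3 * K + K * K) / c ≤ K' := (le_max_right _ _).trans hK'
  have hKK : (0 : ℝ) ≤ K := Nat.cast_nonneg _
  have hK3 : 2 * (3 * K + K * K) ≤ K' * c := by
    have h1 : (3 * K + K * K) / c + (3 * K + K * K) / c = (2 * (3 * K + K * K)) / c := by ring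
    rw [h1, div_le_iff₀ hc] at hK2
    exact hK2
  refine ⟨K', by exact_mod_cast hK1, ?_⟩
  intro z n hyK h2 h3 S hS1 hS2
  have hy := mg_pos z
  have h4 : K * Real.log n ≤ c * mg z := by
    have h5 : K * Real.log n ≤ K * (3 * (mg z / K') + K) := mul_le_mul_of_nonneg_left h3 hKK
    have h6 : K * (3 * (mg z / K') + K) ≤ c * mg z := by
      have h7 : K * K * K' ≤ K * K * mg z := mul_le_mul_of_nonneg_left hyK (by positivity)
      have e : K * (3 * (mg z / K') + K) = (3 * K * mg z + K * K * K') / K' := by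
        field_simp
      rw [e, div_le_iff₀ (by linarith)]
      have h8 : (3 * K + K * K) * mg z ≤ (K' * c) * mg z := by
        refine mul_le_mul_of_nonneg_right ?_ hy.le
        have : (0 : ℝ) ≤ 3 * K + K * K := by positivity
        linarith
      linarith
    linarith
  have hlogn : 0 < Real.log n := Real.log_pos (by exact_mod_cast h2)
  have h5 := hmer n ((range (n + 1)).filter Nat.Prime) h2 fun p hp => by
    rw [mem_filter, mem_range] at hp
    exact ⟨hp.2, by omega⟩
  have hprodS : ∏ p ∈ S, (1 - 1 / (p : ℝ)) ≤ ∏ p ∈ (Ioc n z).filter Nat.Prime, (1 - 1 / (p : ℝ)) :=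
    Finset.prod_le_prod_of_subset_of_le_one (fun p hp => hS1 p hp) (fun p hp => by
      linarith [half_prime p (hS2 p hp)]) fun p hp _ => by
      have : 0 ≤ 1 / (p : ℝ) := by positivity
      linarith
  set A := ∏ p ∈ (Ioc n z).filter Nat.Prime, (1 - 1 / (p : ℝ)) with hA
  set B := ∏ p ∈ (range (n + 1)).filter Nat.Prime, (1 - 1 / (p : ℝ)) with hB
  have hA0 : 0 < A := prod_pos' _ fun p hp => (mem_filter.1 hp).2
  -- `A * B ≤ 1 / y`
  have hAB : A * B ≤ 1 / mg z := by
    rw [mg_eq, one_div_one_div]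
    rcases le_or_gt n z with h | h
    · have h6 := Pool.Agent.T2H32.BF.V_ratio n z h
      have h7 := Pool.Agent.T2H32.BF.V_pos n
      rw [div_eq_iff h7.ne'] at h6
      rw [h6]
      exact le_rfl
    · have h6 : (Ioc n z).filter Nat.Prime = ∅ := by
        rw [Ioc_eq_empty_of_le h.le, filter_empty]
      rw [hA, h6, prod_empty, one_mul]
      exact Pool.Agent.T2H32.BF.V_anti h.le
  have h6 : A * (c / Real.log n) ≤ 1 / mg z := (mul_le_mul_of_nonneg_left h5 hA0.le).trans hAB
  rw [mul_div_assoc', div_le_div_iff₀ hlogn hy] at h6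
  have h7 : K * A * (c * mg z) ≤ 1 * (c * mg z) := by
    calc K * A * (c * mg z) = K * (A * c * mg z) := by ring
      _ ≤ K * (1 * Real.log n) := mul_le_mul_of_nonneg_left h6 hKK
      _ ≤ c * mg z := by linarith
      _ = _ := by ring
  have h8 : K * A ≤ 1 := le_of_mul_le_mul_right h7 (by positivity)
  refine le_trans ?_ h8
  exact mul_le_mul_of_nonneg_left hprodS hKK

/-- `y ≤ C log z` -/
theorem mg_log : ∃ C : ℝ, 0 < C ∧ ∀ᶠ z : ℕ in atTop, mg z ≤ C * Real.log z := by
  have h2 : Tendsto (fun z : ℕ => mg z / Real.log z) atTop (𝓝 (Real.exp Real.eulerMascheroniConstant)) := by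
    have h3 := mertens.inv₀ (Real.exp_pos _).ne'
    rw [← Real.exp_neg, neg_neg] at h3
    refine h3.congr fun z => ?_
    rw [mg_eq, mul_inv, one_div, div_eq_mul_inv]
  refine ⟨Real.exp Real.eulerMascheroniConstant + 1, by positivity, ?_⟩
  filter_upwards [h2.eventually_le_const (show Real.exp Real.eulerMascheroniConstant <
    Real.exp Real.eulerMascheroniConstant + 1 by linarith), eventually_ge_atTop 2] with z h3 h4
  have h5 : 0 < Real.log z := Real.log_pos (by exact_mod_cast h4)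
  rwa [div_le_iff₀ h5] at h3

/-- **Windows beyond a power of the mean gap**, for primorials. -/
theorem prim (θ u : ℝ) (hθ : 0 < θ) (hu : 1 < u) (hθu : 1 + θ < θ * u) (ε : ℝ) (hε : 0 < ε) :
    ∃ K z0 : ℕ, 1 ≤ K ∧ ∀ z h : ℕ, z0 ≤ z → mg z ^ (1 + θ) ≤ h → (h : ℝ) ≤ Real.exp (mg z / K) →
    Real.exp (-((Real.exp Real.eulerMascheroniConstant * om u + ε) * (h / mg z))) ≤
      V (primorial z) h := by
  set g := Real.exp Real.eulerMascheroniConstant * om u with hg
  have hom0 : 0 ≤ om u := ge_of_tendsto' (conv u hu) fun T => Pool.Agent.T2H32.GM.w_nonneg T u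
  have hg0 : 0 ≤ g := mul_nonneg (Real.exp_pos _).le hom0
  -- parameter
  set η := min (1 / 2) (min (ε / 4) (ε / (4 * (g + 1)))) with hη
  have hη0 : 0 < η := by positivity
  have hη1 : η ≤ 1 := (min_le_left _ _).trans (by norm_num)
  have hηε : η ≤ ε / 4 := (min_le_right _ _).trans (min_le_left _ _)
  have hηg : η * (g + 1) ≤ ε / 4 := by
    have h1 : η ≤ ε / (4 * (g + 1)) := (min_le_right _ _).trans (min_le_right _ _)
    calc η * (g + 1) ≤ ε / (4 * (g + 1)) * (g + 1) := by gcongr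
      _ = ε / 4 := by field_simp
  obtain ⟨K1, hK1, hLB⟩ := LB η hη0 hη1
  have hK1R : (1 : ℝ) ≤ K1 := by exact_mod_cast hK1
  -- the expected number of survivors
  have hE : ∀ᶠ h : ℕ in atTop, ∀ z, ((rgh (tt u h) h).card : ℝ) *
      (Pool.Agent.T2H32.BF.V z / Pool.Agent.T2H32.BF.V (tt u h)) ≤ (g + η) * (h / mg z) := by
    have hT := tt_top u hu
    -- `1 / (V T log T) → e^γ`
    have h1 : Tendsto (fun z => (Pool.Agent.T2H32.BF.V (tt u z) * Real.log (tt u z))⁻¹) atTop
        (𝓝 (Real.exp Real.eulerMascheroniConstant)) := by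
      have h2 := (mertens.comp hT).inv₀ (Real.exp_pos _).ne'
      rw [← Real.exp_neg, neg_neg] at h2
      exact h2
    set e0 := Real.exp Real.eulerMascheroniConstant with he0
    have he0p : 0 < e0 := Real.exp_pos _
    -- choose small deviations
    set δ := min 1 (η / (e0 + om u + 1 + 1)) with hδ
    have hδ0 : 0 < δ := by positivity
    have hδ1 : δ ≤ 1 := min_le_left _ _
    have hδ2 : δ * (e0 + om u + 1 + 1) ≤ η := by
      have h3 : δ ≤ η / (e0 + om u + 1 + 1) := min_le_right _ _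
      calc δ * (e0 + om u + 1 + 1) ≤ η / (e0 + om u + 1 + 1) * (e0 + om u + 1 + 1) := by gcongr
        _ = η := by field_simp
    have h3 := h1.eventually_le_const (show e0 < e0 + δ by linarith)
    filter_upwards [h3, card_lim u hu δ hδ0, hT.eventually_ge_atTop 2,
      eventually_ge_atTop 1] with h h4 h5 h6 h7 z
    set T := tt u h with hTd
    have hTR : (2 : ℝ) ≤ T := by exact_mod_cast h6
    have hhR : (1 : ℝ) ≤ h := by exact_mod_cast h7
    have hlog : 0 < Real.log T := Real.log_pos (by linarith)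
    have hVT := Pool.Agent.T2H32.BF.V_pos T
    have hVz := Pool.Agent.T2H32.BF.V_pos z
    have hmg := mg_pos z
    have hVmg : Pool.Agent.T2H32.BF.V z = 1 / mg z := by rw [mg_eq, one_div_one_div]
    have e1 : ((rgh T h).card : ℝ) * (Pool.Agent.T2H32.BF.V z / Pool.Agent.T2H32.BF.V T) =
        (((rgh T h).card : ℝ) * Real.log T / h) * (Pool.Agent.T2H32.BF.V T * Real.log T)⁻¹ * (h / mg z) := by
      rw [hVmg]
      field_simp
    rw [e1]
    have h9 : (((rgh T h).card : ℝ) * Real.log T / h) * (Pool.Agent.T2H32.BF.V T * Real.log T)⁻¹ ≤ g + η := by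
      calc (((rgh T h).card : ℝ) * Real.log T / h) * (Pool.Agent.T2H32.BF.V T * Real.log T)⁻¹
          ≤ (om u + δ) * (e0 + δ) := by
            refine mul_le_mul h5 h4 (by positivity) (by positivity)
        _ = g + δ * (e0 + om u + δ) := by rw [hg]; ring
        _ ≤ g + η := by
          have : δ * (e0 + om u + δ) ≤ δ * (e0 + om u + 1 + 1) := by
            refine mul_le_mul_of_nonneg_left ?_ hδ0.le
            linarith
          linarith
    exact mul_le_mul_of_nonneg_right h9 (by positivity)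
  -- the cost of the small primes
  have hsmall : ∀ᶠ h : ℕ in atTop, ∀ z, mg z ^ (1 + θ) ≤ h → 2 * (tt u h : ℝ) + 1 ≤ ε / 4 * (h / mg z) := by
    set s := 1 - 1 / u - 1 / (1 + θ) with hs
    have hs0 : 0 < s := by
      have h1 : 1 / u < θ / (1 + θ) := by
        rw [div_lt_div_iff₀ (by linarith) (by linarith)]
        linarith
      have h2 : θ / (1 + θ) = 1 - 1 / (1 + θ) := by field_simp; ring
      rw [hs]
      linarith
    have h1 : Tendsto (fun h : ℕ => (h : ℝ) ^ s) atTop atTop :=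
      (tendsto_rpow_atTop hs0).comp tendsto_natCast_atTop_atTop
    filter_upwards [h1.eventually_ge_atTop (12 / ε), eventually_ge_atTop 1] with h h2 h3 z h4
    have hhR : (1 : ℝ) ≤ h := by exact_mod_cast h3
    have hh0 : (0 : ℝ) < h := by linarith
    have hmg := mg_pos z
    have h5 : mg z ≤ (h : ℝ) ^ (1 / (1 + θ)) := by
      have h6 := Real.rpow_le_rpow (by positivity) h4 (show 0 ≤ 1 / (1 + θ) by positivity)
      rwa [← Real.rpow_mul hmg.le, mul_one_div_cancel (by linarith), Real.rpow_one] at h6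
    have h6 : (tt u h : ℝ) ≤ (h : ℝ) ^ (1 / u) := Nat.floor_le (by positivity)
    have h7 : (1 : ℝ) ≤ (h : ℝ) ^ (1 / u) := Real.one_le_rpow hhR (by positivity)
    rw [mul_div_assoc', le_div_iff₀ hmg]
    calc (2 * (tt u h : ℝ) + 1) * mg z ≤ (3 * (h : ℝ) ^ (1 / u)) * (h : ℝ) ^ (1 / (1 + θ)) := by
          refine mul_le_mul ?_ h5 hmg.le (by positivity)
          linarith
      _ = 3 * ((h : ℝ) ^ (1 / u) * (h : ℝ) ^ (1 / (1 + θ))) := by ring
      _ ≤ 3 * ((ε / 12 * (h : ℝ) ^ s) * ((h : ℝ) ^ (1 / u) * (h : ℝ) ^ (1 / (1 + θ)))) := by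
        have h8 : 1 ≤ ε / 12 * (h : ℝ) ^ s := by
          rw [div_le_iff₀ hε] at h2
          linarith
        have h9 : 0 ≤ (h : ℝ) ^ (1 / u) * (h : ℝ) ^ (1 / (1 + θ)) := by positivity
        nlinarith
      _ = ε / 4 * ((h : ℝ) ^ s * ((h : ℝ) ^ (1 / u) * (h : ℝ) ^ (1 / (1 + θ)))) := by ring
      _ = ε / 4 * h := by
        rw [← Real.rpow_add hh0, ← Real.rpow_add hh0]
        have : s + (1 / u + 1 / (1 + θ)) = 1 := by rw [hs]; ring
        rw [this, Real.rpow_one]
  obtain ⟨K2, hK2, htail⟩ := tail_small K1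
  obtain ⟨C, hC, hmgl⟩ := mg_log
  obtain ⟨K3, hK3⟩ := exists_nat_ge C
  obtain ⟨h0, hh0⟩ := eventually_atTop.1 (hE.and (hsmall.and (eventually_ge_atTop 2)))
  have hev := hmgl.and ((mg_top.eventually_ge_atTop (K2 + h0 + 1 : ℝ)).and (eventually_ge_atTop 2))
  obtain ⟨z0, hz0⟩ := eventually_atTop.1 hev
  refine ⟨K2 + K3, z0, by omega, ?_⟩
  intro z h hz hlow hup
  obtain ⟨hm1, hm2, hm3⟩ := hz0 z hz
  have hmg := mg_pos z
  have hK2R : (1 : ℝ) ≤ K2 := by exact_mod_cast hK2
  have hhmg : mg z ≤ h := by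
    refine le_trans ?_ hlow
    calc mg z = mg z ^ (1 : ℝ) := (Real.rpow_one _).symm
      _ ≤ mg z ^ (1 + θ) := by
        refine Real.rpow_le_rpow_of_exponent_le ?_ (by linarith)
        have : (0 : ℝ) ≤ h0 := Nat.cast_nonneg _
        linarith
  have hhh0 : h0 ≤ h := by
    have : (h0 : ℝ) ≤ h := by
      have : (0 : ℝ) ≤ K2 := Nat.cast_nonneg _
      linarith
    exact_mod_cast this
  obtain ⟨h1, h2, h3⟩ := hh0 h hhh0
  have h1 := h1 z
  have h2 := h2 z hlow
  set T := tt u h with hTd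
  have hh1 : 1 ≤ h := by omega
  have hhR : (1 : ℝ) ≤ h := by exact_mod_cast hh1
  have hTh : T ≤ h := tt_le u hu h hh1
  have hKK : (K2 : ℝ) ≤ ((K2 + K3 : ℕ) : ℝ) := by exact_mod_cast Nat.le_add_right _ _
  have hKK3 : (K3 : ℝ) ≤ ((K2 + K3 : ℕ) : ℝ) := by exact_mod_cast Nat.le_add_left _ _
  have hTz : T ≤ z := by
    refine hTh.trans ?_
    have hzR : (2 : ℝ) ≤ z := by exact_mod_cast hm3
    have h4 : (h : ℝ) ≤ z := by
      refine hup.trans ?_
      rw [← Real.exp_log (show (0 : ℝ) < z by linarith)]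
      apply Real.exp_le_exp.2
      have hlz : 0 < Real.log z := Real.log_pos (by linarith)
      rw [div_le_iff₀ (by linarith)]
      have : C * Real.log z ≤ ((K2 + K3 : ℕ) : ℝ) * Real.log z :=
        mul_le_mul_of_nonneg_right (hK3.trans hKK3) hlz.le
      linarith
    exact_mod_cast h4
  have hpint : ∀ p ∈ pint T z, p.Prime := fun p hp => (mem_filter.1 hp).2
  have hTn : T ≤ K1 * h ^ 2 := hTh.trans (by nlinarith)
  have h6 := hLB (primorial T) (pint T z) (rgh T h) h hh1 hpint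
    (fun p hp => by
      rw [pint, mem_filter, mem_Ioc] at hp
      rw [Nat.coprime_comm, hp.2.coprime_iff_not_dvd, hp.2.dvd_primorial_iff]
      omega)
    (filter_subset _ _)
    (htail z (K1 * h ^ 2) (by have : (0 : ℝ) ≤ h0 := Nat.cast_nonneg _; linarith) (by nlinarith) (by
      push_cast
      rw [Real.log_mul (by positivity) (by positivity), Real.log_pow]
      push_cast
      have h7 : Real.log h ≤ mg z / K2 := by
        rw [Real.log_le_iff_le_exp (by linarith)]
        refine hup.trans (Real.exp_le_exp.2 ?_)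
        gcongr
      have h8 : Real.log K1 ≤ K1 := by
        have := Real.log_le_sub_one_of_pos (show (0 : ℝ) < K1 by linarith)
        linarith
      have h9 : 0 ≤ mg z / K2 := by positivity
      linarith) _ (fun p hp => by
      rw [mem_filter, mem_Ioc] at hp
      rw [mem_filter, pint, mem_filter, mem_Ioc]
      exact ⟨⟨⟨by omega, hp.1.2⟩, hp.2⟩, hp.1.1⟩) fun p hp => hpint p (mem_filter.1 hp).1)
  have h7 := V_ge_av T z h hTz
  refine le_trans ?_ h7
  have h8 : ∏ p ∈ pint T z, (1 - 1 / (p : ℝ)) = Pool.Agent.T2H32.BF.V z / Pool.Agent.T2H32.BF.V T :=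
    (Pool.Agent.T2H32.BF.V_ratio T z hTz).symm
  rw [h8] at h6
  have hPT : (0 : ℝ) < primorial T := by exact_mod_cast primorial_pos T
  have h9 : Real.exp (-(2 * T)) ≤ 1 / (primorial T : ℝ) := by
    rw [Real.exp_neg, ← one_div]
    refine one_div_le_one_div_of_le hPT ?_
    have h10 : (primorial T : ℝ) ≤ 4 ^ T := by exact_mod_cast primorial_le_four_pow T
    refine h10.trans ?_
    rw [mul_comm, ← Real.rpow_natCast, Real.rpow_def_of_pos (by norm_num)]
    apply Real.exp_le_exp.2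
    have h11 : Real.log 4 ≤ 2 := by
      have : Real.log 4 = 2 * Real.log 2 := by
        rw [show (4 : ℝ) = 2 ^ 2 by norm_num, Real.log_pow]
        push_cast
        ring
      have h12 := Real.log_two_lt_d9
      linarith
    have : (0 : ℝ) ≤ T := Nat.cast_nonneg _
    nlinarith
  have h10 : Real.exp (-1) ≤ 1 / 2 := by
    rw [Real.exp_neg, inv_eq_one_div]
    apply one_div_le_one_div_of_le (by norm_num)
    have := Real.add_one_le_exp (1 : ℝ)
    linarith
  have h11 : Real.exp (-((g + ε) * (h / mg z))) ≤ Real.exp (-(2 * T)) *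
      (Real.exp (-1) * Real.exp (-((1 + η) * (((rgh T h).card : ℝ) *
        (Pool.Agent.T2H32.BF.V z / Pool.Agent.T2H32.BF.V T))))) := by
    rw [← Real.exp_add, ← Real.exp_add]
    apply Real.exp_le_exp.2
    have h12 : (1 + η) * (((rgh T h).card : ℝ) *
        (Pool.Agent.T2H32.BF.V z / Pool.Agent.T2H32.BF.V T)) ≤ (1 + η) * ((g + η) * (h / mg z)) := by
      gcongr
    have h13 : (1 + η) * (g + η) ≤ g + 3 / 4 * ε := by nlinarith
    have h14 : 0 ≤ h / mg z := by positivity
    have h15 := mul_le_mul_of_nonneg_right h13 h14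
    nlinarith
  refine h11.trans ?_
  have h12 : (0 : ℝ) ≤ Real.exp (-((1 + η) * (((rgh T h).card : ℝ) *
        (Pool.Agent.T2H32.BF.V z / Pool.Agent.T2H32.BF.V T)))) := (Real.exp_pos _).le
  calc Real.exp (-(2 * T)) * (Real.exp (-1) * Real.exp (-((1 + η) * (((rgh T h).card : ℝ) *
        (Pool.Agent.T2H32.BF.V z / Pool.Agent.T2H32.BF.V T)))))
      ≤ 1 / (primorial T : ℝ) * (1 / 2 * Real.exp (-((1 + η) * (((rgh T h).card : ℝ) *
        (Pool.Agent.T2H32.BF.V z / Pool.Agent.T2H32.BF.V T))))) := by gcongr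
    _ ≤ _ := by gcongr

/-- below the Poisson prediction beyond every power of the mean gap -/
theorem prim_power (θ : ℝ) (hθ : 0 < θ) : ∃ c < 1, ∃ K z0 : ℕ, 1 ≤ K ∧ ∀ z h : ℕ, z0 ≤ z →
    mg z ^ (1 + θ) ≤ h → (h : ℝ) ≤ Real.exp (mg z / K) →
    Real.exp (-(c * (h / mg z))) ≤ V (primorial z) h := by
  obtain ⟨u, hu, hom⟩ := osc (Real.exp (-Real.eulerMascheroniConstant)) om_lim (1 / θ + 2)
  have h1θ : 0 < 1 / θ := by positivity
  set g := Real.exp Real.eulerMascheroniConstant * om u with hg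
  have hg1 : g < 1 := by
    have h1 := mul_lt_mul_of_pos_left hom (Real.exp_pos Real.eulerMascheroniConstant)
    rw [← hg, ← Real.exp_add] at h1
    simpa using h1
  have h3 := prim θ u hθ (by linarith) (by
    have : θ * (1 / θ + 2) ≤ θ * u := mul_le_mul_of_nonneg_left hu hθ.le
    have e : θ * (1 / θ + 2) = 1 + 2 * θ := by field_simp
    linarith) ((1 - g) / 2) (by linarith)
  exact ⟨g + (1 - g) / 2, by linarith, h3⟩

/-- Cramér's scale -/
theorem prim_cramer (κ ε : ℝ) (hκ : 0 < κ) (hε : 0 < ε) : ∀ᶠ z : ℕ in atTop,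
    Real.exp (-((Real.exp Real.eulerMascheroniConstant / 2 + ε) * (κ * mg z))) ≤
      V (primorial z) ⌊κ * mg z ^ 2⌋₊ := by
  have hcont := (Pool.Agent.T2H32.GM.om_cont.continuousAt (x := 2))
  have hom2 : om 2 = 1 / 2 := by
    have := Pool.Agent.T2H32.GM.om_small 2 (by norm_num) le_rfl
    linarith
  have h1 : Tendsto (fun u => Real.exp Real.eulerMascheroniConstant * om u) (𝓝[>] 2)
      (𝓝 (Real.exp Real.eulerMascheroniConstant * om 2)) :=
    (hcont.tendsto.mono_left nhdsWithin_le_nhds).const_mul _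
  have h2 : Real.exp Real.eulerMascheroniConstant * om 2 < Real.exp Real.eulerMascheroniConstant / 2 + ε / 2 := by
    rw [hom2]
    linarith
  obtain ⟨u, hu1, hu2⟩ := ((h1.eventually_lt_const h2).and self_mem_nhdsWithin).exists
  have hu : (2 : ℝ) < u := hu2
  -- `θ < 1` with `1 + θ < θ u`
  set θ := (1 + 1 / (u - 1)) / 2 with hθ
  have hu1' : 0 < u - 1 := by linarith
  have h3 : 1 / (u - 1) < 1 := by
    rw [div_lt_one hu1']
    linarith
  have h4 : 0 < 1 / (u - 1) := by positivity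
  have hθ0 : 0 < θ := by positivity
  have hθ1 : θ < 1 := by rw [hθ]; linarith
  have hθ2 : 1 / (u - 1) < θ := by rw [hθ]; linarith
  have hθu : 1 + θ < θ * u := by
    rw [div_lt_iff₀ hu1'] at hθ2
    linarith
  obtain ⟨K, z0, hK, hmain⟩ := prim θ u hθ0 (by linarith) hθu (ε / 2) (by linarith)
  have hKR : (1 : ℝ) ≤ K := by exact_mod_cast hK
  -- the range
  have e1 : ∀ᶠ z in atTop, mg z ^ (1 + θ) + 1 ≤ κ * mg z ^ 2 := by
    have h5 : Tendsto (fun y : ℝ => y ^ (-(1 - θ)) + (y ^ 2)⁻¹) atTop (𝓝 (0 + 0)) := by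
      refine (tendsto_rpow_neg_atTop (by linarith)).add ?_
      exact tendsto_inv_atTop_zero.comp (tendsto_pow_atTop (by norm_num))
    rw [add_zero] at h5
    filter_upwards [(h5.comp mg_top).eventually_le_const hκ] with z h6
    have h7 := mg_pos z
    simp only [Function.comp_apply] at h6
    have h8 : 0 < mg z ^ 2 := by positivity
    have h9 := mul_le_mul_of_nonneg_right h6 h8.le
    have h10 : (mg z ^ (-(1 - θ)) + (mg z ^ 2)⁻¹) * mg z ^ 2 = mg z ^ (1 + θ) + 1 := by
      rw [add_mul, inv_mul_cancel₀ h8.ne']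
      congr 1
      rw [← Real.rpow_natCast, ← Real.rpow_add h7]
      congr 1
      push_cast
      ring
    linarith
  have e2 : ∀ᶠ z in atTop, κ * mg z ^ 2 ≤ Real.exp (mg z / K) := by
    have h5 : Tendsto (fun y : ℝ => Real.exp y / y ^ 2) atTop atTop := Real.tendsto_exp_div_pow_atTop 2
    have h6 : Tendsto (fun z => mg z / K) atTop atTop := mg_top.atTop_div_const (by linarith)
    filter_upwards [(h5.comp h6).eventually_ge_atTop (κ * K ^ 2)] with z h7
    have h8 := mg_pos z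
    simp only [Function.comp_apply] at h7
    have h9 : 0 < mg z / K := by positivity
    rw [le_div_iff₀ (by positivity)] at h7
    refine le_trans (le_of_eq ?_) h7
    field_simp
  filter_upwards [e1, e2, eventually_ge_atTop z0] with z h5 h6 h7
  have hmg := mg_pos z
  have hfl : (⌊κ * mg z ^ 2⌋₊ : ℝ) ≤ κ * mg z ^ 2 := Nat.floor_le (by positivity)
  have hfl2 : κ * mg z ^ 2 < ⌊κ * mg z ^ 2⌋₊ + 1 := Nat.lt_floor_add_one _
  have h8 := hmain z ⌊κ * mg z ^ 2⌋₊ h7 (by linarith) (hfl.trans h6)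
  refine le_trans (Real.exp_le_exp.2 ?_) h8
  have hg0 : 0 ≤ Real.exp Real.eulerMascheroniConstant * om u :=
    mul_nonneg (Real.exp_pos _).le
      (ge_of_tendsto' (conv u (by linarith)) fun T => Pool.Agent.T2H32.GM.w_nonneg T u)
  have h9 : (⌊κ * mg z ^ 2⌋₊ : ℝ) / mg z ≤ κ * mg z := by
    rw [div_le_iff₀ hmg]
    calc (⌊κ * mg z ^ 2⌋₊ : ℝ) ≤ κ * mg z ^ 2 := hfl
      _ = κ * mg z * mg z := by ring
  have h10 : (Real.exp Real.eulerMascheroniConstant * om u + ε / 2) * ((⌊κ * mg z ^ 2⌋₊ : ℝ) / mg z) ≤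
      (Real.exp Real.eulerMascheroniConstant / 2 + ε) * (κ * mg z) :=
    mul_le_mul (by linarith) h9 (by positivity) (by positivity)
  linarith

end Pool.Agent.H11.Avg
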