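import Pool.Agent.H11.GapLow

set_option autoImplicit false

/-! # The rate of large gaps and the interval sieve: tools -/

open Finset Filter Topology
open Pool.Agent.T2H32.GM (Rg)

namespace Pool.Agent.H11.Avg

/-- number of `w`-rough numbers in `(n, n + h]` -/
def nr (w h n : ℕ) : ℕ := ((Ioc n (n + h)).filter (Rg w)).card

/-- the least number of `w`-rough numbers in an interval of length `h` -/
noncomputable def smin (h w : ℕ) : ℕ := sInf (Set.range (nr w h))

theorem smin_le (h w n : ℕ) : smin h w ≤ nr w h n := Nat.sInf_le ⟨n, rfl⟩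

theorem smin_mem (h w : ℕ) : ∃ n, nr w h n = smin h w := Nat.sInf_mem (Set.range_nonempty (nr w h))

/-- the positions -/
def pos (w h n0 : ℕ) : Finset ℕ := (Icc 1 h).filter (fun a => Rg w (n0 + a))

theorem pos_card (w h n0 : ℕ) : (pos w h n0).card = nr w h n0 := by
  unfold pos nr
  refine card_bij (fun a _ => n0 + a) ?_ ?_ ?_
  · intro a ha
    rw [mem_filter, mem_Icc] at ha
    rw [mem_filter, mem_Ioc]
    exact ⟨by omega, ha.2⟩
  · intro a _ a' _ h4
    omega
  · intro n hn
    rw [mem_filter, mem_Ioc] at hn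
    refine ⟨n - n0, ?_, by omega⟩
    rw [mem_filter, mem_Icc]
    have : n0 + (n - n0) = n := by omega
    rw [this]
    exact ⟨by omega, hn.2⟩

theorem smin_succ (h w : ℕ) : smin (h + 1) w ≤ smin h w + 1 := by
  obtain ⟨n, hn⟩ := smin_mem h w
  refine (smin_le (h + 1) w n).trans ?_
  rw [← hn]
  unfold nr
  have h1 : (Ioc n (n + (h + 1))).filter (Rg w) ⊆ insert (n + h + 1) ((Ioc n (n + h)).filter (Rg w)) := by
    intro a ha
    rw [mem_filter, mem_Ioc] at ha
    rw [mem_insert, mem_filter, mem_Ioc]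
    by_cases h2 : a = n + h + 1
    · exact Or.inl h2
    · exact Or.inr ⟨by omega, ha.2⟩
  exact (card_le_card h1).trans (card_insert_le _ _)

theorem smin_anti (h w w' : ℕ) (hw : w ≤ w') : smin h w' ≤ smin h w := by
  obtain ⟨n, hn⟩ := smin_mem h w
  refine (smin_le h w' n).trans ?_
  rw [← hn]
  unfold nr
  refine card_le_card fun a ha => ?_
  rw [mem_filter] at ha ⊢
  exact ⟨ha.1, fun p hp hpr => ha.2 p (hp.trans hw) hpr⟩

/-- the primes up to `w` -/
def pw (w : ℕ) : Finset ℕ := (range (w + 1)).filter Nat.Prime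

theorem sv_pw (w h m : ℕ) : (sv 1 (pw w) (Icc 1 h) m).card = nr w h m := by
  rw [← pos_card]
  congr 1
  unfold sv pos pw Rg
  refine filter_congr fun a _ => ?_
  simp only [mem_filter, mem_range, one_mul]
  constructor
  · intro h1 p hp hpr
    exact h1 p ⟨by omega, hpr⟩
  · rintro h1 p ⟨hp, hpr⟩
    exact h1 p (by omega) hpr

/-- the minimum is at most the mean -/
theorem smin_le_mean (h w : ℕ) : (smin h w : ℝ) ≤ h * Pool.Agent.T2H32.BF.V w := by
  have hP : ∀ p ∈ pw w, p.Prime := fun p hp => (mem_filter.1 hp).2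
  have h1 := av_card 1 (pw w) (Icc 1 h) hP (fun p _ => Nat.coprime_one_left p)
  rw [Nat.card_Icc, Nat.add_sub_cancel] at h1
  have h2 : (∏ p ∈ pw w, (1 - 1 / (p : ℝ))) = Pool.Agent.T2H32.BF.V w := rfl
  rw [h2] at h1
  rw [← h1]
  refine le_trans (le_of_eq (av_const (pw w) hP _).symm) (av_mono _ _ _ fun m => ?_)
  rw [sv_pw]
  exact_mod_cast smin_le h w m

theorem V_ge_av' (T z h n0 : ℕ) (hTz : T ≤ z) :
    1 / (primorial T : ℝ) * av (pint T z) (fun m => (0 : ℝ) ^ (sv (primorial T) (pint T z) (pos T h n0) m).card) ≤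
      V (primorial z) h := by
  have hW : 0 < primorial T := primorial_pos T
  have hWR : (0 : ℝ) < primorial T := by exact_mod_cast hW
  set P := pint T z with hP
  have hPp : ∀ p ∈ P, p.Prime := fun p hp => (mem_filter.1 hp).2
  have hR : 0 < Q P := Q_pos P hPp
  have hRR : (0 : ℝ) < Q P := by exact_mod_cast hR
  have hcop : (primorial T).Coprime (Q P) := by
    refine Nat.Coprime.prod_right fun p hp => ?_
    rw [Nat.coprime_comm, (hPp p hp).coprime_iff_not_dvd, (hPp p hp).dvd_primorial_iff]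
    rw [hP, pint, mem_filter, mem_Ioc] at hp
    omega
  obtain ⟨n1, hn1, hn2⟩ := Nat.chineseRemainder hcop n0 0
  have hn2' : Q P ∣ n1 := (Nat.modEq_zero_iff_dvd).1 hn2
  have e1 : (∑ m ∈ range (Q P), (0 : ℝ) ^ (sv (primorial T) P (pos T h n0) m).card) =
      ((range (Q P)).filter (fun m => sv (primorial T) P (pos T h n0) m = ∅)).card := by
    rw [card_filter]
    push_cast
    refine sum_congr rfl fun m _ => ?_
    by_cases hm : sv (primorial T) P (pos T h n0) m = ∅
    · rw [if_pos hm, hm, card_empty, pow_zero]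
    · rw [if_neg hm]
      have : (sv (primorial T) P (pos T h n0) m).card ≠ 0 := by
        rwa [Ne, card_eq_zero]
      rw [zero_pow this]
  have hq : primorial z = primorial T * Q P := by rw [Q_pint T z hTz, ← hP]
  have hq0 : 0 < primorial z := primorial_pos z
  have h1 : ((range (Q P)).filter (fun m => sv (primorial T) P (pos T h n0) m = ∅)).card ≤ empt (primorial z) h := by
    unfold empt
    refine card_le_card_of_injOn (fun m => (n1 + primorial T * m) % primorial z) ?_ ?_
    · intro m hm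
      rw [mem_coe, mem_filter, mem_range] at hm
      rw [mem_coe, mem_filter, mem_range]
      refine ⟨Nat.mod_lt _ hq0, fun j hj hc => ?_⟩
      have hcp : ∀ p, p.Prime → p ≤ z → ¬ p ∣ n1 + primorial T * m + j := by
        intro p hp hpz hd
        have hpq : p ∣ primorial z := hp.dvd_primorial_iff.2 hpz
        refine hp.one_lt.ne' (Nat.eq_one_of_dvd_coprimes hc ?_ hpq)
        have h2 : (n1 + primorial T * m) % primorial z + j ≡ n1 + primorial T * m + j [MOD p] :=
          Nat.ModEq.add_right j (Nat.ModEq.of_dvd hpq (Nat.mod_modEq _ _))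
        exact (Nat.modEq_zero_iff_dvd).1 (h2.trans ((Nat.modEq_zero_iff_dvd).2 hd))
      have hj2 : j ∈ pos T h n0 := by
        unfold pos
        rw [mem_filter]
        refine ⟨hj, fun p hpT hp hd => ?_⟩
        refine hcp p hp (hpT.trans hTz) ?_
        have hpW : p ∣ primorial T := hp.dvd_primorial_iff.2 hpT
        have h2 : n1 + primorial T * m + j ≡ n0 + j [MOD p] := by
          refine Nat.ModEq.add_right j ?_
          have h3 : n1 + primorial T * m ≡ n0 + 0 [MOD p] :=
            Nat.ModEq.add (Nat.ModEq.of_dvd hpW hn1) ((Nat.modEq_zero_iff_dvd).2 (hpW.mul_right m))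
          simpa using h3
        exact (Nat.modEq_zero_iff_dvd).1 (h2.trans ((Nat.modEq_zero_iff_dvd).2 hd))
      have hj3 : j ∈ sv (primorial T) P (pos T h n0) m := by
        unfold sv
        rw [mem_filter]
        refine ⟨hj2, fun p hp hd => ?_⟩
        have hp' := hp
        rw [hP, pint, mem_filter, mem_Ioc] at hp'
        refine hcp p hp'.2 hp'.1.2 ?_
        have h2 : p ∣ n1 := (dvd_prod_of_mem _ hp).trans hn2'
        rw [add_assoc]
        exact (Nat.dvd_add_right h2).2 hd
      rw [hm.2] at hj3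
      exact absurd hj3 (notMem_empty _)
    · intro a ha b hb hab
      rw [mem_coe, mem_filter, mem_range] at ha hb
      have h2 : n1 + primorial T * a ≡ n1 + primorial T * b [MOD primorial z] := hab
      have h3 : primorial T * a ≡ primorial T * b [MOD primorial T * Q P] := by
        rw [← hq]
        exact Nat.ModEq.add_left_cancel' _ h2
      have h4 := Nat.ModEq.mul_left_cancel' hW.ne' h3
      have h5 : a % Q P = b % Q P := h4
      rwa [Nat.mod_eq_of_lt ha.1, Nat.mod_eq_of_lt hb.1] at h5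
  unfold V av
  rw [e1, hq]
  push_cast
  have h2 : (((range (Q P)).filter (fun m => sv (primorial T) P (pos T h n0) m = ∅)).card : ℝ) ≤ empt (primorial z) h := by
    exact_mod_cast h1
  rw [hq] at h2
  rw [div_mul_div_comm, one_mul]
  gcongr

/-- **lower bound** through the extremal interval -/
theorem low_ext (ε : ℝ) (hε : 0 < ε) (hε1 : ε ≤ 1) : ∃ K : ℕ, 1 ≤ K ∧ ∀ z h w : ℕ, 2 ≤ h → w ≤ h → w ≤ z →
    (K : ℝ) ≤ mg z → Real.log h ≤ mg z / K →
    Real.exp (-(2 * w + 1 + (1 + ε) * (smin h w * (Pool.Agent.T2H32.BF.V z / Pool.Agent.T2H32.BF.V w)))) ≤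
      V (primorial z) h := by
  obtain ⟨K1, hK1, hLB⟩ := LB ε hε hε1
  obtain ⟨K2, hK2, htail⟩ := tail_small K1
  refine ⟨K2, hK2, ?_⟩
  intro z h w hh2 hwh hwz hy hlog
  have hmg := mg_pos z
  have hh1 : 1 ≤ h := by omega
  have hhR : (1 : ℝ) ≤ h := by exact_mod_cast hh1
  have hK2R : (1 : ℝ) ≤ K2 := by exact_mod_cast hK2
  have hK1R : (1 : ℝ) ≤ K1 := by exact_mod_cast hK1
  obtain ⟨n0, hn0⟩ := smin_mem h w
  have hpint : ∀ p ∈ pint w z, p.Prime := fun p hp => (mem_filter.1 hp).2
  have hwn : w ≤ K1 * h ^ 2 := hwh.trans (by nlinarith)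
  have h6 := hLB (primorial w) (pint w z) (pos w h n0) h hh1 hpint
    (fun p hp => by
      rw [pint, mem_filter, mem_Ioc] at hp
      rw [Nat.coprime_comm, hp.2.coprime_iff_not_dvd, hp.2.dvd_primorial_iff]
      omega)
    (filter_subset _ _)
    (htail z (K1 * h ^ 2) hy (by nlinarith) (by
      push_cast
      rw [Real.log_mul (by positivity) (by positivity), Real.log_pow]
      push_cast
      have h8 : Real.log K1 ≤ K1 := by
        have := Real.log_le_sub_one_of_pos (show (0 : ℝ) < K1 by linarith)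
        linarith
      have h9 : 0 ≤ mg z / K2 := by positivity
      linarith) _ (fun p hp => by
      rw [mem_filter, mem_Ioc] at hp
      rw [mem_filter, pint, mem_filter, mem_Ioc]
      exact ⟨⟨⟨by omega, hp.1.2⟩, hp.2⟩, hp.1.1⟩) fun p hp => hpint p (mem_filter.1 hp).1)
  have h7 := V_ge_av' w z h n0 hwz
  refine le_trans ?_ h7
  have h8 : ∏ p ∈ pint w z, (1 - 1 / (p : ℝ)) = Pool.Agent.T2H32.BF.V z / Pool.Agent.T2H32.BF.V w :=
    (Pool.Agent.T2H32.BF.V_ratio w z hwz).symm
  rw [h8, pos_card, hn0] at h6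
  have hPT : (0 : ℝ) < primorial w := by exact_mod_cast primorial_pos w
  have h9 : Real.exp (-(2 * w)) ≤ 1 / (primorial w : ℝ) := by
    rw [Real.exp_neg, ← one_div]
    refine one_div_le_one_div_of_le hPT ?_
    have h10 : (primorial w : ℝ) ≤ 4 ^ w := by exact_mod_cast primorial_le_four_pow w
    refine h10.trans ?_
    rw [mul_comm, ← Real.rpow_natCast, Real.rpow_def_of_pos (by norm_num)]
    apply Real.exp_le_exp.2
    have h11 : Real.log 4 ≤ 2 := by
      have : Real.log 4 = 2 * Real.log 2 := by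
        rw [show (4 : ℝ) = 2 ^ 2 by norm_num, Real.log_pow]
        push_cast
        ring
      have h12 := Real.log_two_lt_d9
      linarith
    have : (0 : ℝ) ≤ w := Nat.cast_nonneg _
    nlinarith
  have h10 : Real.exp (-1) ≤ 1 / 2 := by
    rw [Real.exp_neg, inv_eq_one_div]
    apply one_div_le_one_div_of_le (by norm_num)
    have := Real.add_one_le_exp (1 : ℝ)
    linarith
  set X := (smin h w : ℝ) * (Pool.Agent.T2H32.BF.V z / Pool.Agent.T2H32.BF.V w) with hX
  have e : Real.exp (-(2 * w + 1 + (1 + ε) * X)) = Real.exp (-(2 * w)) *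
      (Real.exp (-1) * Real.exp (-((1 + ε) * X))) := by
    rw [← Real.exp_add, ← Real.exp_add]
    congr 1
    ring
  rw [e]
  have h12 : (0 : ℝ) ≤ Real.exp (-((1 + ε) * X)) := (Real.exp_pos _).le
  calc Real.exp (-(2 * w)) * (Real.exp (-1) * Real.exp (-((1 + ε) * X)))
      ≤ 1 / (primorial w : ℝ) * (1 / 2 * Real.exp (-((1 + ε) * X))) := by gcongr
    _ ≤ _ := by gcongr

end Pool.Agent.H11.Avg
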