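import Pool.Agent.H11.Rate1

set_option autoImplicit false

/-! # The rate of large gaps and the interval sieve: upper bound and comparison -/

open Finset Filter Topology
open Pool.Agent.T2H32.GM (Rg)

namespace Pool.Agent.H11.Avg

theorem mem_pf (z p : ℕ) : p ∈ (primorial z).primeFactors ↔ p.Prime ∧ p ≤ z := by
  rw [Nat.mem_primeFactors]
  constructor
  · rintro ⟨h1, h2, _⟩
    exact ⟨h1, h1.dvd_primorial_iff.1 h2⟩
  · rintro ⟨h1, h2⟩
    exact ⟨h1, h1.dvd_primorial_iff.2 h2, (primorial_pos z).ne'⟩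

/-- **upper bound** through the extremal interval -/
theorem up_ext (η : ℝ) (hη0 : 0 < η) (hη : η ≤ 1) (z h w : ℕ) (hw : 1 ≤ w) (hwh : w ≤ h) (hhz : h ≤ z)
    (hρh : 4 * (Pool.Agent.T2H32.BF.V z / Pool.Agent.T2H32.BF.V h * h) ≤ η * w) :
    V (primorial z) h ≤
      Real.exp (-((1 - η) * (smin h w * (Pool.Agent.T2H32.BF.V z / Pool.Agent.T2H32.BF.V w)))) := by
  have hq : primorial z ≠ 0 := (primorial_pos z).ne'
  have hh1 : 1 ≤ h := hw.trans hwh
  have hhR : (1 : ℝ) ≤ h := by exact_mod_cast hh1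
  have hwR : (1 : ℝ) ≤ w := by exact_mod_cast hw
  set PH := pint h z with hPH
  set PM := pint w h with hPM
  set PL := pw w with hPL
  have hPHp : ∀ p ∈ PH, p.Prime := fun p hp => (mem_filter.1 hp).2
  have hPMp : ∀ p ∈ PM, p.Prime := fun p hp => (mem_filter.1 hp).2
  have hPLp : ∀ p ∈ PL, p.Prime := fun p hp => (mem_filter.1 hp).2
  have mPH : ∀ p ∈ PH, h < p ∧ p ≤ z := fun p hp => mem_Ioc.1 (mem_filter.1 hp).1
  have mPM : ∀ p ∈ PM, w < p ∧ p ≤ h := fun p hp => mem_Ioc.1 (mem_filter.1 hp).1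
  have mPL : ∀ p ∈ PL, p < w + 1 := fun p hp => mem_range.1 (mem_filter.1 hp).1
  have hd2 : Disjoint PM PL := by
    rw [disjoint_left]
    intro p h1 h2
    have := (mPM p h1).1
    have := mPL p h2
    omega
  have hd1 : Disjoint PH (PM ∪ PL) := by
    rw [disjoint_left]
    intro p h1 h2
    have h3 := (mPH p h1).1
    rcases mem_union.1 h2 with h2 | h2
    · have := (mPM p h2).2
      omega
    · have := mPL p h2
      omega
  have hPXp : ∀ p ∈ PM ∪ PL, p.Prime := by
    intro p hp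
    rcases mem_union.1 hp with h2 | h2
    · exact hPMp p h2
    · exact hPLp p h2
  have hPeq : PH ∪ (PM ∪ PL) = (primorial z).primeFactors := by
    ext p
    rw [mem_pf, mem_union, mem_union, hPH, hPM, hPL, pint, pint, pw, mem_filter, mem_filter, mem_filter,
      mem_Ioc, mem_Ioc, mem_range]
    by_cases hp : p.Prime
    · simp only [hp, and_true, true_and]
      omega
    · simp [hp]
  set ρ := ∏ p ∈ PH, (1 - 1 / (p : ℝ)) with hρ
  set PiM := ∏ p ∈ PM, (1 - 1 / (p : ℝ)) with hPiM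
  have hρV : ρ = Pool.Agent.T2H32.BF.V z / Pool.Agent.T2H32.BF.V h := (Pool.Agent.T2H32.BF.V_ratio h z hhz).symm
  have hMV : PiM = Pool.Agent.T2H32.BF.V h / Pool.Agent.T2H32.BF.V w := (Pool.Agent.T2H32.BF.V_ratio w h hwh).symm
  have hρ0 : 0 < ρ := prod_pos' _ hPHp
  have hρ1 : ρ ≤ 1 := prod_le_one (fun p hp => by linarith [half_prime p (hPHp p hp)])
    fun p _ => by
      have : 0 ≤ 1 / (p : ℝ) := by positivity
      linarith
  have hPiM0 : 0 < PiM := prod_pos' _ hPMp
  rw [← hρV] at hρh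
  have step1 : V (primorial z) h ≤ av (PM ∪ PL) (fun m => Real.exp (-ρ * (sv 1 (PM ∪ PL) (Icc 1 h) m).card)) := by
    rw [V_eq_av _ h hq, ← hPeq]
    have h1 := up_many 1 (PM ∪ PL) (Icc 1 h) PH hPHp hPXp hd1 (fun p _ => Nat.coprime_one_left p)
      (fun p hp a ha b' hb' hab => by
        have h2 := (mPH p hp).1
        rw [mem_Icc] at ha hb'
        rwa [Nat.mod_eq_of_lt (by omega), Nat.mod_eq_of_lt (by omega)] at hab) 1 zero_le_one le_rfl
    rw [sub_self] at h1
    refine h1.trans (av_mono _ _ _ fun m => ?_)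
    rw [one_mul, ← hρ]
    have h2 : 1 - ρ ≤ Real.exp (-ρ) := by linarith [Real.add_one_le_exp (-ρ)]
    calc (1 - ρ) ^ (sv 1 (PM ∪ PL) (Icc 1 h) m).card ≤ (Real.exp (-ρ)) ^ (sv 1 (PM ∪ PL) (Icc 1 h) m).card :=
          pow_le_pow_left₀ (by linarith) h2 _
      _ = _ := by
        rw [← Real.exp_nat_mul]
        congr 1
        ring
  have hηw : η * w ≤ w := by nlinarith
  have hM1 : ∀ p ∈ PM, ρ * (2 * h / p) ≤ 1 := by
    intro p hp
    have hp0 : (w : ℝ) < p := by exact_mod_cast (mPM p hp).1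
    have hp1 : (0 : ℝ) < p := by linarith
    rw [mul_div_assoc', div_le_one hp1]
    nlinarith
  have step2 : av (PM ∪ PL) (fun m => Real.exp (-ρ * (sv 1 (PM ∪ PL) (Icc 1 h) m).card)) ≤
      av PL (fun m => Real.exp (-(ρ * ∏ p ∈ PM, (1 - (1 + ρ * (2 * h / p)) / p)) *
        (sv 1 PL (Icc 1 h) m).card)) := by
    exact up_exp_many 1 PL (Icc 1 h) PM hPMp hPLp hd2 (fun p _ => Nat.coprime_one_left p)
      (fun p => 2 * h / p) (fun p _ => by positivity) (fun p hp r => by
        have hp1 := (hPMp p hp).pos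
        refine (card_class_le h p r hp1).trans ?_
        have hp0 : (0 : ℝ) < p := by exact_mod_cast hp1
        have h2 : (p : ℝ) ≤ h := by exact_mod_cast (mPM p hp).2
        have h3 : 1 ≤ (h : ℝ) / p := by rw [one_le_div hp0]; exact h2
        have h4 : 2 * (h : ℝ) / p = h / p + h / p := by ring
        rw [h4]
        linarith) ρ hM1 ρ hρ0.le le_rfl
  have hsq : ∀ p ∈ PM, 4 * (ρ * h) / (p : ℝ) ^ 2 ≤ 1 := by
    intro p hp
    have hp0 : (w : ℝ) < p := by exact_mod_cast (mPM p hp).1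
    have hp1 : (1 : ℝ) ≤ p := by exact_mod_cast (hPMp p hp).one_le
    rw [div_le_one (by positivity)]
    nlinarith
  have hmid : (1 - η) * PiM ≤ ∏ p ∈ PM, (1 - (1 + ρ * (2 * h / p)) / p) := by
    have h1 : PiM * ∏ p ∈ PM, (1 - 4 * (ρ * h) / (p : ℝ) ^ 2) ≤ ∏ p ∈ PM, (1 - (1 + ρ * (2 * h / p)) / p) := by
      rw [hPiM, ← prod_mul_distrib]
      refine prod_le_prod (fun p hp => ?_) fun p hp => ?_
      · have h2 : 0 ≤ 1 - 1 / (p : ℝ) := by linarith [half_prime p (hPMp p hp)]
        refine mul_nonneg h2 ?_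
        linarith [hsq p hp]
      · have h2 := half_prime p (hPMp p hp)
        have hp1 : (0 : ℝ) < p := by exact_mod_cast (hPMp p hp).pos
        have e1 : (1 - (1 + ρ * (2 * h / p)) / p) = 1 - 1 / (p : ℝ) - 2 * (ρ * h) / (p : ℝ) ^ 2 := by
          field_simp
          ring
        have e2 : (1 - 1 / (p : ℝ)) * (1 - 4 * (ρ * h) / (p : ℝ) ^ 2) =
          1 - 1 / (p : ℝ) - (1 - 1 / (p : ℝ)) * (4 * (ρ * h) / (p : ℝ) ^ 2) := by ring
        rw [e1, e2]
        have h3 : 0 ≤ 4 * (ρ * h) / (p : ℝ) ^ 2 := by positivity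
        have h4 : 1 / 2 * (4 * (ρ * h) / (p : ℝ) ^ 2) ≤ (1 - 1 / (p : ℝ)) * (4 * (ρ * h) / (p : ℝ) ^ 2) :=
          mul_le_mul_of_nonneg_right (by linarith) h3
        have e3 : 1 / 2 * (4 * (ρ * h) / (p : ℝ) ^ 2) = 2 * (ρ * h) / (p : ℝ) ^ 2 := by ring
        linarith
    refine le_trans ?_ h1
    rw [mul_comm]
    refine mul_le_mul_of_nonneg_left ?_ hPiM0.le
    refine le_trans ?_ (prod_one_sub PM _ (fun p _ => by positivity) hsq)
    have h2 : ∑ p ∈ PM, 4 * (ρ * h) / (p : ℝ) ^ 2 = 4 * (ρ * h) * ∑ p ∈ PM, ((p : ℝ) ^ 2)⁻¹ := by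
      rw [mul_sum]
      rfl
    rw [h2]
    have h3 := sum_sq_le PM w (by omega) (fun n hn => (mPM n hn).1)
    have h4 : 4 * (ρ * h) * ∑ p ∈ PM, ((p : ℝ) ^ 2)⁻¹ ≤ 4 * (ρ * h) * (w : ℝ)⁻¹ :=
      mul_le_mul_of_nonneg_left h3 (by positivity)
    have h5 : 4 * (ρ * h) * (w : ℝ)⁻¹ ≤ η * w * (w : ℝ)⁻¹ :=
      mul_le_mul_of_nonneg_right hρh (by positivity)
    have h6 : η * w * (w : ℝ)⁻¹ = η := by field_simp
    linarith
  refine step1.trans (step2.trans (le_trans (av_mono PL _ (fun _ => Real.exp (-((1 - η) * (smin h w *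
    (Pool.Agent.T2H32.BF.V z / Pool.Agent.T2H32.BF.V w))))) fun m => ?_) (le_of_eq (av_const PL hPLp _))))
  apply Real.exp_le_exp.2
  rw [neg_mul, neg_le_neg_iff]
  have h1 : ρ * ((1 - η) * PiM) ≤ ρ * ∏ p ∈ PM, (1 - (1 + ρ * (2 * h / p)) / p) :=
    mul_le_mul_of_nonneg_left hmid hρ0.le
  have h2 : (smin h w : ℝ) ≤ (sv 1 PL (Icc 1 h) m).card := by
    rw [hPL, sv_pw]
    exact_mod_cast smin_le h w m
  have h3 : 0 ≤ ρ * ((1 - η) * PiM) := mul_nonneg hρ0.le (mul_nonneg (by linarith) hPiM0.le)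
  have h4 : ρ * ((1 - η) * PiM) * smin h w ≤
      (ρ * ∏ p ∈ PM, (1 - (1 + ρ * (2 * h / p)) / p)) * (sv 1 PL (Icc 1 h) m).card :=
    mul_le_mul h1 h2 (Nat.cast_nonneg _) (h3.trans h1)
  refine le_trans (le_of_eq ?_) h4
  have hVh := Pool.Agent.T2H32.BF.V_pos h
  have hVw := Pool.Agent.T2H32.BF.V_pos w
  rw [hρV, hMV]
  field_simp

/-- rough numbers in intervals: an upper bound of the right order -/
theorem rough_up : ∃ C : ℝ, 0 < C ∧ ∀ T y k : ℕ, 2 ≤ T → T ≤ y →
    (((Ioc k (k + y)).filter (Rg T)).card : ℝ) ≤ C * (y / Real.log T) := by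
  obtain ⟨C0, hC0, hfl⟩ := Pool.Agent.T2H32.GM.fl_main
  obtain ⟨K, hK, hfl1⟩ := hfl C0 le_rfl
  obtain ⟨A, hA, hVA⟩ := Pool.Agent.T2H32.GM.V_le
  set E := 4 * C0 * C0 + 1 with hE
  -- eventually in `T`
  have hl2 : 0 < Real.log 2 := Real.log_pos (by norm_num)
  have h1 : Tendsto (fun y : ℝ => Real.log y / y ^ (1 / (E + 1) : ℝ)) atTop (𝓝 0) :=
    (isLittleO_log_rpow_atTop (by positivity)).tendsto_div_nhds_zero
  have h2 := (h1.comp tendsto_natCast_atTop_atTop (α := ℕ)).eventually_le_const one_pos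
  have h3 : ∀ᶠ T : ℕ in atTop, (4 : ℝ) ≤ (T : ℝ) ^ (1 / (E + 1) : ℝ) :=
    ((tendsto_rpow_atTop (by positivity)).comp tendsto_natCast_atTop_atTop).eventually_ge_atTop 4
  obtain ⟨T0, hT0⟩ := eventually_atTop.1 (h2.and h3)
  set C := 2 * A * (2 * (E + 1)) + K + Real.log (T0 + 2) with hC
  have hlT0 : 0 ≤ Real.log (T0 + 2) := Real.log_nonneg (by linarith [(Nat.cast_nonneg T0 : (0 : ℝ) ≤ T0)])
  refine ⟨C, by positivity, ?_⟩
  intro T y k hT hTy
  have hTR : (2 : ℝ) ≤ T := by exact_mod_cast hT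
  have hlogT : 0 < Real.log T := Real.log_pos (by linarith)
  have hyR : (T : ℝ) ≤ y := by exact_mod_cast hTy
  have hy0 : (0 : ℝ) < y := by linarith
  rcases le_or_gt T0 T with hcase | hcase
  · obtain ⟨h4, h5⟩ := hT0 T hcase
    simp only [Function.comp_apply] at h4
    set s := (T : ℝ) ^ (1 / (E + 1) : ℝ) with hs
    have hs0 : 0 < s := by positivity
    rw [div_le_one hs0] at h4
    set t := ⌊s⌋₊ with ht
    have ht1 : (t : ℝ) ≤ s := Nat.floor_le hs0.le
    have ht2 : s / 2 ≤ t := by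
      have := Nat.lt_floor_add_one s
      rw [← ht] at this
      linarith
    have ht3 : 2 ≤ t := by
      have : (2 : ℝ) ≤ t := by linarith
      exact_mod_cast this
    have htT : t ≤ T := by
      have h6 : (t : ℝ) ≤ T := by
        refine ht1.trans ?_
        calc s = (T : ℝ) ^ (1 / (E + 1) : ℝ) := rfl
          _ ≤ (T : ℝ) ^ (1 : ℝ) := by
            refine Real.rpow_le_rpow_of_exponent_le (by linarith) ?_
            rw [div_le_one (by positivity)]
            linarith [(Nat.cast_nonneg E : (0 : ℝ) ≤ E)]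
          _ = T := Real.rpow_one _
      exact_mod_cast h6
    have h6 := (abs_le.1 (hfl1 t k y (by omega))).2
    have h7 : (((Ioc k (k + y)).filter (Rg T)).card : ℝ) ≤ ((Ioc k (k + y)).filter (Rg t)).card := by
      norm_cast
      refine card_le_card fun a ha => ?_
      rw [mem_filter] at ha ⊢
      exact ⟨ha.1, fun p hp hpr => ha.2 p (hp.trans htT) hpr⟩
    have h8 : (1 / 2 : ℝ) ^ C0 ≤ 1 := pow_le_one₀ (by norm_num) (by norm_num)
    have hVt := Pool.Agent.T2H32.BF.V_pos t
    have h9 : (1 / 2 : ℝ) ^ C0 * (Pool.Agent.T2H32.BF.V t * y) ≤ 1 * (Pool.Agent.T2H32.BF.V t * y) := by gcongr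
    have hlogs : Real.log T = (E + 1) * Real.log s := by
      rw [hs, Real.log_rpow (by linarith)]
      field_simp
    have hlogt : Real.log s / 2 ≤ Real.log t := by
      have h10 : Real.log (s / 2) ≤ Real.log t := Real.log_le_log (by positivity) ht2
      rw [Real.log_div hs0.ne' (by norm_num)] at h10
      have h11 : Real.log 2 ≤ Real.log s / 2 := by
        have h12 : Real.log 4 ≤ Real.log s := Real.log_le_log (by norm_num) h5
        have h13 : Real.log 4 = 2 * Real.log 2 := by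
          rw [show (4 : ℝ) = 2 ^ 2 by norm_num, Real.log_pow]
          push_cast
          ring
        linarith
      linarith
    have hlogs0 : 0 < Real.log s := Real.log_pos (by linarith)
    have hlogt0 : 0 < Real.log t := by linarith
    have h10 : Pool.Agent.T2H32.BF.V t * y ≤ A * (2 * (E + 1)) * (y / Real.log T) := by
      have h11 := hVA t ht3
      have h12 : A / Real.log t ≤ A * (2 * (E + 1)) / Real.log T := by
        rw [div_le_div_iff₀ hlogt0 hlogT, hlogs]
        have h13 : A * ((E + 1) * Real.log s) ≤ A * ((E + 1) * (2 * Real.log t)) := by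
          gcongr
          linarith
        linarith
      calc Pool.Agent.T2H32.BF.V t * y ≤ (A * (2 * (E + 1)) / Real.log T) * y :=
            mul_le_mul_of_nonneg_right (h11.trans h12) hy0.le
        _ = _ := by ring
    have h11 : K * (t : ℝ) ^ E ≤ K * (y / Real.log T) := by
      refine mul_le_mul_of_nonneg_left ?_ hK.le
      rw [le_div_iff₀ hlogT]
      have hsE : s ^ (E + 1) = T := by
        rw [hs, ← Real.rpow_natCast, ← Real.rpow_mul (by linarith)]
        push_cast
        rw [one_div, inv_mul_cancel₀ (by positivity), Real.rpow_one]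
      calc (t : ℝ) ^ E * Real.log T ≤ s ^ E * s := by gcongr
        _ = T := by rw [← pow_succ, hsE]
        _ ≤ y := hyR
    have h12 : 0 ≤ Real.log (T0 + 2) * (y / Real.log T) := by positivity
    have e : C * (y / Real.log T) = 2 * (A * (2 * (E + 1)) * (y / Real.log T)) + K * (y / Real.log T) +
      Real.log (T0 + 2) * (y / Real.log T) := by rw [hC]; ring
    rw [e]
    have h13 : Pool.Agent.T2H32.BF.V t * ↑y + (1 / 2 : ℝ) ^ C0 * (Pool.Agent.T2H32.BF.V t * y) ≤
      2 * (A * (2 * (E + 1)) * (y / Real.log T)) := by linarith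
    linarith
  · have h4 : (((Ioc k (k + y)).filter (Rg T)).card : ℝ) ≤ y := by
      have := card_filter_le (Ioc k (k + y)) (Rg T)
      rw [Nat.card_Ioc, Nat.add_sub_cancel_left] at this
      exact_mod_cast this
    refine h4.trans ?_
    have h5 : Real.log T ≤ Real.log (T0 + 2) := by
      refine Real.log_le_log (by linarith) ?_
      have : (T : ℝ) ≤ T0 := by exact_mod_cast hcase.le
      linarith
    have h6 : (y : ℝ) = Real.log T * (y / Real.log T) := by field_simp
    calc (y : ℝ) = Real.log T * (y / Real.log T) := h6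
      _ ≤ C * (y / Real.log T) := by
        refine mul_le_mul_of_nonneg_right ?_ (by positivity)
        have : 0 ≤ 2 * A * (2 * (E + 1)) + K := by positivity
        linarith

/-- comparison of two sieving limits -/
theorem compare : ∃ C : ℝ, 0 < C ∧ ∀ h w0 w1 T : ℕ, 2 ≤ T → T ≤ w0 → w0 ≤ w1 → w1 * T ≤ h →
    (smin h w0 : ℝ) ≤ smin h w1 + C * (h / Real.log T) * ∑ p ∈ pint w0 w1, 1 / (p : ℝ) := by
  obtain ⟨C, hC, hup⟩ := rough_up
  refine ⟨2 * C, by positivity, ?_⟩
  intro h w0 w1 T hT hTw0 hw01 hwT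
  obtain ⟨n, hn⟩ := smin_mem h w1
  have hTR : (2 : ℝ) ≤ T := by exact_mod_cast hT
  have hlogT : 0 < Real.log T := Real.log_pos (by linarith)
  have h1 : nr w0 h n ≤ nr w1 h n + ∑ p ∈ pint w0 w1, ((Ioc n (n + h)).filter (fun a => Rg T a ∧ p ∣ a)).card := by
    unfold nr
    have h2 : (Ioc n (n + h)).filter (Rg w0) ⊆ (Ioc n (n + h)).filter (Rg w1) ∪
        (pint w0 w1).biUnion (fun p => (Ioc n (n + h)).filter (fun a => Rg T a ∧ p ∣ a)) := by
      intro a ha
      rw [mem_filter] at ha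
      rw [mem_union, mem_biUnion, mem_filter]
      by_cases h3 : Rg w1 a
      · exact Or.inl ⟨ha.1, h3⟩
      · right
        unfold Rg at h3
        push Not at h3
        obtain ⟨p, hp1, hp2, hp3⟩ := h3
        refine ⟨p, ?_, ?_⟩
        · rw [pint, mem_filter, mem_Ioc]
          refine ⟨⟨?_, hp1⟩, hp2⟩
          by_contra hcon
          exact ha.2 p (by omega) hp2 hp3
        · rw [mem_filter]
          exact ⟨ha.1, fun r hr hrp => ha.2 r (hr.trans hTw0) hrp, hp3⟩
    exact (card_le_card h2).trans ((card_union_le _ _).trans (Nat.add_le_add_left card_biUnion_le _))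
  have h2 : ∀ p ∈ pint w0 w1, (((Ioc n (n + h)).filter (fun a => Rg T a ∧ p ∣ a)).card : ℝ) ≤
      2 * C * (h / Real.log T) * (1 / (p : ℝ)) := by
    intro p hp
    rw [pint, mem_filter, mem_Ioc] at hp
    have hp0 : 0 < p := hp.2.pos
    have hpR : (0 : ℝ) < p := by exact_mod_cast hp0
    set L := h / p + 1 with hL
    have hLT : T ≤ h / p := by
      rw [Nat.le_div_iff_mul_le hp0]
      calc T * p ≤ T * w1 := Nat.mul_le_mul_left _ hp.1.2
        _ = w1 * T := mul_comm _ _
        _ ≤ h := hwT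
    have h3 : ((Ioc n (n + h)).filter (fun a => Rg T a ∧ p ∣ a)).card ≤
        ((Ioc (n / p) (n / p + L)).filter (Rg T)).card := by
      refine card_le_card_of_injOn (fun a => a / p) ?_ ?_
      · intro a ha
        rw [mem_coe, mem_filter, mem_Ioc] at ha
        obtain ⟨⟨ha1, ha2⟩, ha3, b, rfl⟩ := ha
        rw [mem_coe, mem_filter, mem_Ioc]
        simp only
        rw [Nat.mul_div_cancel_left b hp0]
        refine ⟨⟨?_, ?_⟩, ?_⟩
        · rw [Nat.div_lt_iff_lt_mul hp0]
          calc n < p * b := ha1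
            _ = b * p := mul_comm _ _
        · have h4 : b ≤ (n + h) / p := by
            rw [Nat.le_div_iff_mul_le hp0]
            calc b * p = p * b := mul_comm _ _
              _ ≤ n + h := ha2
          have h5 : (n + h) / p ≤ n / p + h / p + 1 := by
            have e1 := Nat.div_add_mod n p
            have e2 := Nat.div_add_mod h p
            have e3 := Nat.mod_lt n hp0
            have e4 := Nat.mod_lt h hp0
            rw [← Nat.lt_succ_iff, Nat.div_lt_iff_lt_mul hp0]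
            have e5 : (n / p + h / p + 1).succ * p = p * (n / p) + p * (h / p) + 2 * p := by
              rw [Nat.succ_eq_add_one]
              ring
            rw [e5]
            omega
          omega
        · intro r hr hrp hd
          exact ha3 r hr hrp (hd.mul_left p)
      · intro a ha b hb hab
        rw [mem_coe, mem_filter] at ha hb
        obtain ⟨_, _, a', rfl⟩ := ha
        obtain ⟨_, _, b', rfl⟩ := hb
        simp only at hab
        rw [Nat.mul_div_cancel_left _ hp0, Nat.mul_div_cancel_left _ hp0] at hab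
        rw [hab]
    have h4 := hup T L (n / p) hT (by omega)
    have h5 : (L : ℝ) ≤ 2 * (h / p) := by
      rw [hL]
      push_cast
      have h6 : ((h / p : ℕ) : ℝ) ≤ h / p := Nat.cast_div_le
      have h7 : (1 : ℝ) ≤ ((h / p : ℕ) : ℝ) := by
        have : 1 ≤ h / p := by omega
        exact_mod_cast this
      linarith
    calc (((Ioc n (n + h)).filter (fun a => Rg T a ∧ p ∣ a)).card : ℝ) ≤ ((Ioc (n / p) (n / p + L)).filter (Rg T)).card := by
          exact_mod_cast h3
      _ ≤ C * (L / Real.log T) := h4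
      _ ≤ C * (2 * (h / p) / Real.log T) := by gcongr
      _ = _ := by ring
  have h3 : (smin h w0 : ℝ) ≤ nr w0 h n := by exact_mod_cast smin_le h w0 n
  have h4 : (nr w0 h n : ℝ) ≤ nr w1 h n + ∑ p ∈ pint w0 w1, (((Ioc n (n + h)).filter (fun a => Rg T a ∧ p ∣ a)).card : ℝ) := by
    exact_mod_cast h1
  have h5 := sum_le_sum h2
  rw [← mul_sum] at h5
  rw [hn] at h4
  linarith

end Pool.Agent.H11.Avg
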