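import Pool.Agent.H11.Rate2

set_option autoImplicit false

/-! # The rate of large gaps and the interval sieve: asymptotics -/

open Finset Filter Topology
open Pool.Agent.T2H32.GM (Rg)
open Pool.Agent.T2H32.BF (mertens)

namespace Pool.Agent.H11.Avg

/-- normalised extremal value of the interval sieve -/
noncomputable def mu (h w : ℕ) : ℝ := smin h w / (h * Pool.Agent.T2H32.BF.V w)

theorem mu_nonneg (h w : ℕ) : 0 ≤ mu h w := by
  have := Pool.Agent.T2H32.BF.V_pos w
  unfold mu
  positivity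

theorem mu_le_one (h w : ℕ) (hh : 1 ≤ h) : mu h w ≤ 1 := by
  have h1 := Pool.Agent.T2H32.BF.V_pos w
  have h2 : (0 : ℝ) < h := by exact_mod_cast hh
  unfold mu
  rw [div_le_one (by positivity)]
  exact smin_le_mean h w

/-- the gap length `κ m^{1+θ}` where `m` is the mean gap -/
noncomputable def hz (θ κ : ℝ) (z : ℕ) : ℕ := ⌊κ * mg z ^ (1 + θ)⌋₊

theorem hz_le' (θ κ : ℝ) (hκ : 0 < κ) (z : ℕ) : (hz θ κ z : ℝ) ≤ κ * mg z ^ (1 + θ) := by
  have := mg_pos z
  exact Nat.floor_le (by positivity)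

theorem hz_top (θ κ : ℝ) (hθ : 0 < θ) (hκ : 0 < κ) : Tendsto (hz θ κ) atTop atTop :=
  tendsto_nat_floor_atTop.comp (Tendsto.const_mul_atTop hκ
    ((tendsto_rpow_atTop (show 0 < 1 + θ by linarith)).comp mg_top))

theorem log_hz (θ κ : ℝ) (hθ : 0 < θ) (hκ : 0 < κ) :
    ∀ᶠ z in atTop, Real.log (hz θ κ z) ≤ (1 + θ) * Real.log (mg z) + Real.log κ := by
  filter_upwards [(hz_top θ κ hθ hκ).eventually_ge_atTop 1] with z h1
  have hm := mg_pos z
  have h0 : (0 : ℝ) < hz θ κ z := by exact_mod_cast h1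
  have h2 := Real.log_le_log h0 (hz_le' θ κ hκ z)
  rw [Real.log_mul hκ.ne' (by positivity), Real.log_rpow hm] at h2
  linarith

/-- floor of a power of the mean gap -/
noncomputable def fp (a : ℝ) (z : ℕ) : ℕ := ⌊mg z ^ a⌋₊

theorem fp_le (a : ℝ) (z : ℕ) : (fp a z : ℝ) ≤ mg z ^ a := by
  have := mg_pos z
  exact Nat.floor_le (by positivity)

theorem fp_ge (a : ℝ) (ha : 0 < a) : ∀ᶠ z in atTop, mg z ^ a / 2 ≤ fp a z := by
  filter_upwards [((tendsto_rpow_atTop ha).comp mg_top).eventually_ge_atTop 2] with z hz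
  have := Nat.lt_floor_add_one (mg z ^ a)
  simp only [Function.comp_apply] at hz
  unfold fp
  linarith

theorem fp_top (a : ℝ) (ha : 0 < a) : Tendsto (fp a) atTop atTop :=
  tendsto_nat_floor_atTop.comp ((tendsto_rpow_atTop ha).comp mg_top)

theorem fp_mono (a b : ℝ) (hab : a ≤ b) (z : ℕ) (hz : 1 ≤ mg z) : fp a z ≤ fp b z :=
  Nat.floor_le_floor (Real.rpow_le_rpow_of_exponent_le hz hab)

theorem log_fp (a : ℝ) (ha : 0 < a) : Tendsto (fun z => Real.log (fp a z) / Real.log (mg z)) atTop (𝓝 a) := by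
  have h1 : Tendsto (fun z => (a * Real.log (mg z) - Real.log 2) / Real.log (mg z)) atTop (𝓝 a) := by
    have h2 : Tendsto (fun z => a - Real.log 2 * (Real.log (mg z))⁻¹) atTop (𝓝 (a - Real.log 2 * 0)) :=
      ((tendsto_inv_atTop_zero.comp (Real.tendsto_log_atTop.comp mg_top)).const_mul _).const_sub a
    rw [mul_zero, sub_zero] at h2
    refine h2.congr' ?_
    filter_upwards [mg_top.eventually_ge_atTop 2] with z hz
    have : Real.log (mg z) ≠ 0 := (Real.log_pos (by linarith)).ne'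
    field_simp
  refine tendsto_of_tendsto_of_tendsto_of_le_of_le' h1 tendsto_const_nhds ?_ ?_
  · filter_upwards [mg_top.eventually_ge_atTop 2, fp_ge a ha] with z hz h3
    have hl : 0 < Real.log (mg z) := Real.log_pos (by linarith)
    have hm : 0 < mg z := by linarith
    gcongr
    have h4 : Real.log (mg z ^ a / 2) ≤ Real.log (fp a z) := Real.log_le_log (by positivity) h3
    rw [Real.log_div (by positivity) (by norm_num), Real.log_rpow hm] at h4
    exact h4
  · filter_upwards [mg_top.eventually_ge_atTop 2, (fp_top a ha).eventually_ge_atTop 1] with z hz h3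
    have hl : 0 < Real.log (mg z) := Real.log_pos (by linarith)
    have hm : 0 < mg z := by linarith
    have h0 : (0 : ℝ) < fp a z := by exact_mod_cast h3
    rw [div_le_iff₀ hl]
    have h4 := Real.log_le_log h0 (fp_le a z)
    rwa [Real.log_rpow hm] at h4

/-- `V (fp a z) log y → e^{-γ} / a` -/
theorem V_fp (a : ℝ) (ha : 0 < a) : Tendsto (fun z => Pool.Agent.T2H32.BF.V (fp a z) * Real.log (mg z)) atTop
    (𝓝 (Real.exp (-Real.eulerMascheroniConstant) / a)) := by
  have h1 := (mertens.comp (fp_top a ha)).div (log_fp a ha) ha.ne'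
  refine h1.congr' ?_
  filter_upwards [mg_top.eventually_ge_atTop 2, (fp_top a ha).eventually_ge_atTop 2] with z hz h3
  have hl : Real.log (mg z) ≠ 0 := (Real.log_pos (by linarith)).ne'
  have h0 : Real.log (fp a z) ≠ 0 := (Real.log_pos (by exact_mod_cast h3)).ne'
  simp only [Pi.div_apply, Function.comp_apply]
  field_simp

theorem sum_recip_le (w0 w1 : ℕ) (h : w0 ≤ w1) : ∑ p ∈ pint w0 w1, 1 / (p : ℝ) ≤
    -Real.log (Pool.Agent.T2H32.BF.V w1 / Pool.Agent.T2H32.BF.V w0) := by
  rw [Pool.Agent.T2H32.BF.V_ratio w0 w1 h, Real.log_prod]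
  · rw [← sum_neg_distrib]
    refine sum_le_sum fun p hp => ?_
    have hp2 := half_prime p (mem_filter.1 hp).2
    have := Real.log_le_sub_one_of_pos (show 0 < 1 - 1 / (p : ℝ) by linarith)
    linarith
  · intro p hp
    have hp2 := half_prime p (mem_filter.1 hp).2
    intro h0
    linarith

/-- the comparison at nearby powers -/
theorem near (θ κ : ℝ) (hθ : 0 < θ) (hκ : 0 < κ) : ∃ B : ℝ, 0 < B ∧ ∀ δ : ℝ, 0 < δ → δ ≤ min θ 1 / 4 →
    ∀ᶠ z in atTop, mu (hz θ κ z) (fp (θ - δ) z) ≤ mu (hz θ κ z) (fp θ z) + B * δ ∧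
      mu (hz θ κ z) (fp θ z) - B * δ ≤ mu (hz θ κ z) (fp (θ + δ) z) := by
  obtain ⟨C, hC, hcmp⟩ := compare
  set α := min θ 1 / 4 with hα
  have hα0 : 0 < α := by positivity
  have hαθ : α ≤ θ / 4 := by rw [hα]; gcongr; exact min_le_left _ _
  have hα1 : α ≤ 1 / 4 := by rw [hα]; gcongr; exact min_le_right _ _
  set g := Real.exp (-Real.eulerMascheroniConstant) with hg
  have hg0 : 0 < g := Real.exp_pos _
  -- bound for `1 / (V w log T)`
  set B1 := 4 * θ / (g * α) with hB1
  have hB10 : 0 < B1 := by positivity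
  refine ⟨C * (5 / θ) * B1, by positivity, ?_⟩
  intro δ hδ hδ1
  have hδθ : δ ≤ θ / 4 := by linarith
  have hδ14 : δ ≤ 1 / 4 := by linarith
  have hθδ : 0 < θ - δ := by linarith
  have hθδ' : 0 < θ + δ := by linarith
  -- the sum of the reciprocals
  have hS : ∀ᶠ z in atTop, ∑ p ∈ pint (fp (θ - δ) z) (fp (θ + δ) z), 1 / (p : ℝ) ≤ 5 * δ / θ := by
    have h1 : Tendsto (fun z => -Real.log (Pool.Agent.T2H32.BF.V (fp (θ + δ) z) /
        Pool.Agent.T2H32.BF.V (fp (θ - δ) z))) atTop (𝓝 (-Real.log ((θ - δ) / (θ + δ)))) := by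
      have h2 := (V_fp (θ + δ) hθδ').div (V_fp (θ - δ) hθδ) (by positivity)
      have e1 : g / (θ + δ) / (g / (θ - δ)) = (θ - δ) / (θ + δ) := by
        field_simp
      rw [← hg, e1] at h2
      have h3 : Tendsto (fun z => Pool.Agent.T2H32.BF.V (fp (θ + δ) z) /
        Pool.Agent.T2H32.BF.V (fp (θ - δ) z)) atTop (𝓝 ((θ - δ) / (θ + δ))) := by
        refine h2.congr' ?_
        filter_upwards [mg_top.eventually_ge_atTop 2] with z hz
        have hl : Real.log (mg z) ≠ 0 := (Real.log_pos (by linarith)).ne'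
        have := (Pool.Agent.T2H32.BF.V_pos (fp (θ - δ) z)).ne'
        simp only [Pi.div_apply]
        field_simp
      exact (h3.log (by positivity)).neg
    have h2 : -Real.log ((θ - δ) / (θ + δ)) < 5 * δ / θ := by
      rw [← Real.log_inv, inv_div]
      have h3 := Real.log_le_sub_one_of_pos (show 0 < (θ + δ) / (θ - δ) by positivity)
      have h4 : (θ + δ) / (θ - δ) - 1 = 2 * δ / (θ - δ) := by
        field_simp
        ring
      rw [h4] at h3
      refine lt_of_le_of_lt h3 ?_
      rw [div_lt_div_iff₀ hθδ hθ]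
      nlinarith
    filter_upwards [h1.eventually_lt_const h2, mg_top.eventually_ge_atTop 1] with z hz1 hz2
    exact (sum_recip_le _ _ (fp_mono _ _ (by linarith) z hz2)).trans hz1.le
  -- the normalisation
  have hN : ∀ᶠ z in atTop, 1 / (Pool.Agent.T2H32.BF.V (fp θ z) * Real.log (fp α z)) ≤ B1 := by
    have h1 : Tendsto (fun z => Pool.Agent.T2H32.BF.V (fp θ z) * Real.log (fp α z)) atTop (𝓝 (g / θ * α)) := by
      have h2 := (V_fp θ hθ).mul (log_fp α hα0)
      refine h2.congr' ?_
      filter_upwards [mg_top.eventually_ge_atTop 2] with z hz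
      have hl : Real.log (mg z) ≠ 0 := (Real.log_pos (by linarith)).ne'
      field_simp
    have h2 : g * α / (4 * θ) < g / θ * α := by
      rw [div_mul_eq_mul_div, div_lt_div_iff₀ (by positivity) hθ]
      have : 0 < g * α * θ := by positivity
      nlinarith
    filter_upwards [h1.eventually_const_lt h2] with z hz
    have h3 : 0 < g * α / (4 * θ) := by positivity
    have h4 : 1 / (Pool.Agent.T2H32.BF.V (fp θ z) * Real.log (fp α z)) ≤ 1 / (g * α / (4 * θ)) :=
      one_div_le_one_div_of_le h3 hz.le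
    rwa [one_div_div] at h4
  -- `w1 T ≤ h`
  have hWT : ∀ᶠ z in atTop, fp (θ + δ) z * fp α z ≤ hz θ κ z := by
    have h1 : Tendsto (fun y : ℝ => y ^ (-(1 - δ - α)) + y ^ (-(1 + θ))) atTop (𝓝 (0 + 0)) :=
      (tendsto_rpow_neg_atTop (by linarith)).add (tendsto_rpow_neg_atTop (by linarith))
    rw [add_zero] at h1
    filter_upwards [(h1.comp mg_top).eventually_le_const hκ] with z h2
    simp only [Function.comp_apply] at h2
    have hm := mg_pos z
    have h3 : mg z ^ (θ + δ) * mg z ^ α + 1 ≤ κ * mg z ^ (1 + θ) := by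
      have h4 := mul_le_mul_of_nonneg_right h2 (show 0 ≤ mg z ^ (1 + θ) by positivity)
      rw [add_mul, ← Real.rpow_add hm, ← Real.rpow_add hm, neg_add_cancel, Real.rpow_zero] at h4
      have e : -(1 - δ - α) + (1 + θ) = (θ + δ) + α := by ring
      rw [e, Real.rpow_add hm] at h4
      exact h4
    have h4 : ((fp (θ + δ) z * fp α z : ℕ) : ℝ) ≤ κ * mg z ^ (1 + θ) := by
      push_cast
      have := mul_le_mul (fp_le (θ + δ) z) (fp_le α z) (Nat.cast_nonneg _) (by positivity)
      linarith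
    exact Nat.le_floor h4
  filter_upwards [hS, hN, hWT, mg_top.eventually_ge_atTop 2, (fp_top α hα0).eventually_ge_atTop 2,
    (hz_top θ κ hθ hκ).eventually_ge_atTop 1] with z h1 h2 h3 h4 h5 h6
  have hm := mg_pos z
  set h := hz θ κ z with hh
  set w0 := fp (θ - δ) z with hw0
  set w := fp θ z with hw
  set w1 := fp (θ + δ) z with hw1
  set T := fp α z with hT
  have hw0w : w0 ≤ w := fp_mono _ _ (by linarith) z (by linarith)
  have hww1 : w ≤ w1 := fp_mono _ _ (by linarith) z (by linarith)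
  have hTw0 : T ≤ w0 := fp_mono _ _ (by linarith) z (by linarith)
  have h7 := hcmp h w0 w1 T h5 hTw0 (hw0w.trans hww1) h3
  have hTR : (2 : ℝ) ≤ T := by exact_mod_cast h5
  have hlogT : 0 < Real.log T := Real.log_pos (by linarith)
  have hhR : (1 : ℝ) ≤ h := by exact_mod_cast h6
  set R := C * (h / Real.log T) * (5 * δ / θ) with hR
  have hR0 : 0 ≤ R := by positivity
  have h8 : (smin h w0 : ℝ) ≤ smin h w1 + R := by
    refine h7.trans (add_le_add le_rfl ?_)
    exact mul_le_mul_of_nonneg_left h1 (by positivity)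
  have h9 : (smin h w1 : ℝ) ≤ smin h w := by exact_mod_cast smin_anti h w w1 hww1
  have h10 : (smin h w : ℝ) ≤ smin h w0 := by exact_mod_cast smin_anti h w0 w hw0w
  have hV0 := Pool.Agent.T2H32.BF.V_pos w0
  have hV := Pool.Agent.T2H32.BF.V_pos w
  have hV1 := Pool.Agent.T2H32.BF.V_pos w1
  have hVa := Pool.Agent.T2H32.BF.V_anti hw0w
  have hVb := Pool.Agent.T2H32.BF.V_anti hww1
  have hRn : R / (h * Pool.Agent.T2H32.BF.V w) ≤ C * (5 / θ) * B1 * δ := by
    have e : R / (h * Pool.Agent.T2H32.BF.V w) = C * (5 / θ) * (1 / (Pool.Agent.T2H32.BF.V w * Real.log T)) * δ := by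
      rw [hR]
      field_simp
    rw [e]
    gcongr
  constructor
  · unfold mu
    calc (smin h w0 : ℝ) / (h * Pool.Agent.T2H32.BF.V w0)
        ≤ (smin h w + R) / (h * Pool.Agent.T2H32.BF.V w) := by
          refine div_le_div₀ (by positivity) (by linarith) (by positivity) ?_
          exact mul_le_mul_of_nonneg_left hVa (by linarith)
      _ = smin h w / (h * Pool.Agent.T2H32.BF.V w) + R / (h * Pool.Agent.T2H32.BF.V w) := add_div _ _ _
      _ ≤ _ := by linarith
  · unfold mu
    have h11 : ((smin h w : ℝ) - R) / (h * Pool.Agent.T2H32.BF.V w) ≤ smin h w1 / (h * Pool.Agent.T2H32.BF.V w1) := by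
      have h12 : ((smin h w : ℝ) - R) / (h * Pool.Agent.T2H32.BF.V w) ≤ smin h w1 / (h * Pool.Agent.T2H32.BF.V w) := by
        gcongr
        linarith
      refine h12.trans ?_
      gcongr
    rw [sub_div] at h11
    linarith

/-- elementary limits -/
theorem lim_pow_pow (a b : ℝ) (hab : a < b) : Tendsto (fun z => mg z ^ a / mg z ^ b) atTop (𝓝 0) := by
  have h1 := (tendsto_rpow_neg_atTop (show 0 < b - a by linarith)).comp mg_top
  refine h1.congr fun z => ?_
  have hm := mg_pos z
  simp only [Function.comp_apply]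
  rw [← Real.rpow_sub hm]
  congr 1
  ring

theorem lim_log_pow (b : ℝ) (hb : 0 < b) : Tendsto (fun z => Real.log (mg z) / mg z ^ b) atTop (𝓝 0) :=
  (isLittleO_log_rpow_atTop hb).tendsto_div_nhds_zero.comp mg_top

theorem lim_one_pow (b : ℝ) (hb : 0 < b) : Tendsto (fun z => 1 / mg z ^ b) atTop (𝓝 0) := by
  have := lim_pow_pow 0 b hb
  simpa using this

/-- **The rate** -/
theorem rate (θ κ : ℝ) (hθ : 0 < θ) (hκ : 0 < κ) :
    Tendsto (fun z => -Real.log (gapTail (primorial z) (hz θ κ z)) / (hz θ κ z / mg z) -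
      mu (hz θ κ z) (fp θ z)) atTop (𝓝 0) := by
  obtain ⟨B, hB, hnear⟩ := near θ κ hθ hκ
  obtain ⟨m, K3, htr⟩ := gap_from_V
  obtain ⟨c, hc, hmer⟩ := mertens_low
  rw [Metric.tendsto_atTop]
  intro ε hε
  rw [← eventually_atTop]
  -- parameters
  set η := min (1 / 2) (ε / 8) with hη
  have hη0 : 0 < η := by positivity
  have hη1 : η ≤ 1 := (min_le_left _ _).trans (by norm_num)
  have hηε : η ≤ ε / 8 := min_le_right _ _
  set δ := min (min θ 1 / 4) (ε / (8 * B)) with hδ
  have hδ0 : 0 < δ := by positivity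
  have hδ1 : δ ≤ min θ 1 / 4 := min_le_left _ _
  have hδB : B * δ ≤ ε / 8 := by
    have h1 : δ ≤ ε / (8 * B) := min_le_right _ _
    calc B * δ ≤ B * (ε / (8 * B)) := by gcongr
      _ = ε / 8 := by field_simp
  have hδθ : δ < θ := by
    have : min θ 1 ≤ θ := min_le_left _ _
    linarith
  obtain ⟨K, hK, hlow⟩ := low_ext η hη0 hη1
  have hKR : (1 : ℝ) ≤ K := by exact_mod_cast hK
  obtain ⟨C, hC, hmgl⟩ := mg_log
  -- the size of `h`
  have hh1 : ∀ᶠ z in atTop, κ / 2 * mg z ^ (1 + θ) + 1 ≤ hz θ κ z := by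
    filter_upwards [((tendsto_rpow_atTop (show 0 < 1 + θ by linarith)).comp mg_top).eventually_ge_atTop (4 / κ)] with z h1
    simp only [Function.comp_apply] at h1
    rw [div_le_iff₀ hκ] at h1
    have h2 := Nat.lt_floor_add_one (κ * mg z ^ (1 + θ))
    unfold hz
    linarith
  have hloghz := log_hz θ κ hθ hκ
  -- `log h ≤ y / K`
  have hL : ∀ᶠ z in atTop, Real.log (hz θ κ z) ≤ mg z / K := by
    have h1 : Tendsto (fun z => (1 + θ) * (Real.log (mg z) / mg z ^ (1 : ℝ)) + Real.log κ * (1 / mg z ^ (1 : ℝ))) atTop (𝓝 0) := by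
      have := ((lim_log_pow 1 one_pos).const_mul (1 + θ)).add ((lim_one_pow 1 one_pos).const_mul (Real.log κ))
      simpa using this
    filter_upwards [h1.eventually_le_const (show 0 < 1 / (K : ℝ) by positivity), hloghz] with z h2 h3
    have hm := mg_pos z
    rw [Real.rpow_one] at h2
    refine h3.trans ?_
    have h4 := mul_le_mul_of_nonneg_right h2 hm.le
    have e1 : ((1 + θ) * (Real.log (mg z) / mg z) + Real.log κ * (1 / mg z)) * mg z =
      (1 + θ) * Real.log (mg z) + Real.log κ := by field_simp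
    have e2 : 1 / (K : ℝ) * mg z = mg z / K := by ring
    rw [e1, e2] at h4
    exact h4
  -- the error terms from below
  have hE1 : ∀ᶠ z in atTop, 2 * (fp (θ - δ) z : ℝ) + 3 + m * Real.log (hz θ κ z) + Real.log (mg z) ≤
      η * (hz θ κ z / mg z) := by
    have h1 : Tendsto (fun z => 2 * (mg z ^ (θ - δ) / mg z ^ θ) + 3 * (1 / mg z ^ θ) +
        m * ((1 + θ) * (Real.log (mg z) / mg z ^ θ) + Real.log κ * (1 / mg z ^ θ)) +
        Real.log (mg z) / mg z ^ θ) atTop (𝓝 0) := by
      have h2 := lim_pow_pow (θ - δ) θ (by linarith)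
      have h3 := lim_one_pow θ hθ
      have h4 := lim_log_pow θ hθ
      have := (((h2.const_mul 2).add (h3.const_mul 3)).add
        (((h4.const_mul (1 + θ)).add (h3.const_mul (Real.log κ))).const_mul (m : ℝ))).add h4
      simpa using this
    filter_upwards [h1.eventually_le_const (show 0 < η * (κ / 2) by positivity), hloghz, hh1] with z h2 h3 h4
    have hm := mg_pos z
    have hp : 0 < mg z ^ θ := by positivity
    have h5 : κ / 2 * mg z ^ θ ≤ hz θ κ z / mg z := by
      rw [le_div_iff₀ hm]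
      have e : mg z ^ (1 + θ) = mg z ^ θ * mg z := by
        rw [add_comm, Real.rpow_add hm, Real.rpow_one]
      rw [e] at h4
      linarith
    have h6 : η * (κ / 2 * mg z ^ θ) ≤ η * (hz θ κ z / mg z) := mul_le_mul_of_nonneg_left h5 hη0.le
    refine le_trans ?_ h6
    have h7 := mul_le_mul_of_nonneg_right h2 hp.le
    have e1 : (2 * (mg z ^ (θ - δ) / mg z ^ θ) + 3 * (1 / mg z ^ θ) +
        m * ((1 + θ) * (Real.log (mg z) / mg z ^ θ) + Real.log κ * (1 / mg z ^ θ)) +
        Real.log (mg z) / mg z ^ θ) * mg z ^ θ = 2 * mg z ^ (θ - δ) + 3 +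
        m * ((1 + θ) * Real.log (mg z) + Real.log κ) + Real.log (mg z) := by
      field_simp
    rw [e1] at h7
    have h8 := fp_le (θ - δ) z
    have h9 : (m : ℝ) * Real.log (hz θ κ z) ≤ m * ((1 + θ) * Real.log (mg z) + Real.log κ) :=
      mul_le_mul_of_nonneg_left h3 (Nat.cast_nonneg _)
    linarith
  -- the condition for the upper bound
  have hE2 : ∀ᶠ z in atTop, 4 * (κ * mg z ^ θ) * (((1 + θ) * Real.log (mg z) + Real.log κ) / c) ≤
      η * (mg z ^ (θ + δ) / 2) := by
    have h1 : Tendsto (fun z => 8 * κ / c * ((1 + θ) * (Real.log (mg z) / mg z ^ δ) + Real.log κ * (1 / mg z ^ δ)))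
        atTop (𝓝 0) := by
      have := (((lim_log_pow δ hδ0).const_mul (1 + θ)).add ((lim_one_pow δ hδ0).const_mul (Real.log κ))).const_mul
        (8 * κ / c)
      simpa using this
    filter_upwards [h1.eventually_le_const hη0] with z h2
    have hm := mg_pos z
    have h3 := mul_le_mul_of_nonneg_right h2 (show 0 ≤ mg z ^ (θ + δ) / 2 by positivity)
    refine le_trans (le_of_eq ?_) h3
    rw [Real.rpow_add hm]
    field_simp
    ring
  -- `h ≤ z`
  have hE3 : ∀ᶠ z in atTop, hz θ κ z ≤ z := by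
    have h4 : Tendsto (fun z : ℕ => κ * C ^ (1 + θ) * (Real.log z ^ (1 + θ) / z)) atTop (𝓝 0) := by
      have h5 := (isLittleO_log_rpow_rpow_atTop (1 + θ) (show (0 : ℝ) < 1 by norm_num)).tendsto_div_nhds_zero
      have h6 := (h5.comp tendsto_natCast_atTop_atTop (α := ℕ)).const_mul (κ * C ^ (1 + θ))
      rw [mul_zero] at h6
      refine h6.congr fun z => ?_
      simp
    filter_upwards [h4.eventually_le_const (show (0 : ℝ) < 1 by norm_num), hmgl, eventually_ge_atTop 2] with z h5 h6 h7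
    have hzR : (2 : ℝ) ≤ z := by exact_mod_cast h7
    have hlz : 0 < Real.log z := Real.log_pos (by linarith)
    have hm := mg_pos z
    have h8 : κ * mg z ^ (1 + θ) ≤ z := by
      have h9 : mg z ^ (1 + θ) ≤ (C * Real.log z) ^ (1 + θ) := Real.rpow_le_rpow hm.le h6 (by linarith)
      rw [Real.mul_rpow hC.le hlz.le] at h9
      have h10 : κ * mg z ^ (1 + θ) ≤ κ * (C ^ (1 + θ) * Real.log z ^ (1 + θ)) := by gcongr
      refine h10.trans ?_
      have h11 := mul_le_mul_of_nonneg_right h5 (show (0 : ℝ) ≤ z by linarith)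
      have e : κ * C ^ (1 + θ) * (Real.log z ^ (1 + θ) / z) * z = κ * (C ^ (1 + θ) * Real.log z ^ (1 + θ)) := by
        field_simp
      rw [e] at h11
      linarith
    have h9 : (hz θ κ z : ℝ) ≤ z := (hz_le' θ κ hκ z).trans h8
    exact_mod_cast h9
  -- `w1 ≤ h - 1`
  have hE4 : ∀ᶠ z in atTop, mg z ^ (θ + δ) ≤ κ / 2 * mg z ^ (1 + θ) := by
    filter_upwards [(lim_pow_pow (θ + δ) (1 + θ) (by
      have : min θ 1 ≤ 1 := min_le_right _ _
      linarith)).eventually_le_const (show 0 < κ / 2 by positivity)] with z h1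
    have hm := mg_pos z
    rwa [div_le_iff₀ (by positivity)] at h1
  have hgK3 : ∀ᶠ z in atTop, (K3 : ℝ) + 2 ≤ η * (hz θ κ z / mg z) := by
    filter_upwards [hE1, mg_top.eventually_ge_atTop (Real.exp (K3 + 2)), (hz_top θ κ hθ hκ).eventually_ge_atTop 1]
      with z h1 h2 h3
    have hm := mg_pos z
    have h4 : (K3 : ℝ) + 2 ≤ Real.log (mg z) := by
      rw [Real.le_log_iff_exp_le hm]
      exact h2
    have h5 : 0 ≤ Real.log (hz θ κ z) := Real.log_nonneg (by exact_mod_cast h3)
    have h6 : (0 : ℝ) ≤ m * Real.log (hz θ κ z) := by positivity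
    have h7 : (0 : ℝ) ≤ fp (θ - δ) z := Nat.cast_nonneg _
    linarith
  filter_upwards [hnear δ hδ0 hδ1, hh1, hL, hE1, hE2, hE3, hE4, hgK3, mg_top.eventually_ge_atTop (max (K : ℝ) 2),
    fp_ge (θ + δ) (by linarith), (fp_top (θ + δ) (by linarith)).eventually_ge_atTop 1,
    hloghz] with z hn hz1 hz2 hz3 hz4 hz5 hz6 hz7 hz8 hz9 hz10 hz11
  have hm := mg_pos z
  have hmK : (K : ℝ) ≤ mg z := (le_max_left _ _).trans hz8
  have hm2 : (2 : ℝ) ≤ mg z := (le_max_right _ _).trans hz8
  set h := hz θ κ z with hh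
  set w0 := fp (θ - δ) z with hw0
  set w := fp θ z with hw
  set w1 := fp (θ + δ) z with hw1
  set lam := (h : ℝ) / mg z with hlam
  have hpow : 0 < mg z ^ (1 + θ) := by positivity
  have hhR : (1 : ℝ) < h := by
    have : 0 < κ / 2 * mg z ^ (1 + θ) := by positivity
    linarith
  have hh2 : 2 ≤ h := by
    have : 1 < h := by exact_mod_cast hhR
    omega
  have hlam0 : 0 < lam := by
    rw [hlam]
    apply div_pos <;> linarith
  have hVz : Pool.Agent.T2H32.BF.V z = 1 / mg z := by rw [mg_eq, one_div_one_div]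
  have hw01 : w0 ≤ w1 := fp_mono _ _ (by linarith) z (by linarith)
  have hw1h' : (w1 : ℝ) ≤ h - 1 := by
    have := fp_le (θ + δ) z
    linarith
  have hw1h : w1 ≤ h - 1 := by
    have h1 : (w1 : ℝ) ≤ ((h - 1 : ℕ) : ℝ) := by
      rw [Nat.cast_sub (by omega)]
      simpa using hw1h'
    exact_mod_cast h1
  have hq : primorial z ≠ 0 := (primorial_pos z).ne'
  have elam : (h : ℝ) * (((primorial z).totient : ℝ) / primorial z) = lam := by
    rw [hlam]
    unfold mg
    rw [div_div_eq_mul_div, mul_div_assoc]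
  have emu : ∀ w' : ℕ, (smin h w' : ℝ) * (Pool.Agent.T2H32.BF.V z / Pool.Agent.T2H32.BF.V w') = mu h w' * lam := by
    intro w'
    have := Pool.Agent.T2H32.BF.V_pos w'
    unfold mu
    rw [hVz, hlam]
    have : (h : ℝ) ≠ 0 := by linarith
    field_simp
  -- lower bound for the probability
  have hV1 := hlow z h w0 hh2 (hw01.trans (hw1h.trans (Nat.sub_le _ _))) (hw01.trans (hw1h.trans ((Nat.sub_le _ _).trans hz5)))
    hmK hz2
  rw [emu] at hV1
  have hmu0 := mu_le_one h w0 (by omega)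
  have hmu0' := mu_nonneg h w0
  have hw0R : (0 : ℝ) ≤ w0 := Nat.cast_nonneg _
  have hlogh0 : 0 ≤ Real.log h := Real.log_nonneg hhR.le
  have hmlog : (0 : ℝ) ≤ m * Real.log h := by positivity
  have hlogm : 0 ≤ Real.log (mg z) := Real.log_nonneg (by linarith)
  have hηlam : η * lam ≤ 1 / 2 * lam := mul_le_mul_of_nonneg_right (min_le_left _ _) hlam0.le
  have hVexp2 : Real.exp (-(2 * lam)) ≤ V (primorial z) h := by
    refine le_trans (Real.exp_le_exp.2 ?_) hV1
    have h1 : mu h w0 * lam ≤ lam := mul_le_of_le_one_left hlam0.le hmu0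
    have h2 : (1 + η) * (mu h w0 * lam) ≤ (1 + η) * lam := mul_le_mul_of_nonneg_left h1 (by linarith)
    linarith
  have hgt := htr (primorial z) h hq (by rw [elam]; linarith) (by rw [elam]; exact hVexp2)
  have hhm : (0 : ℝ) < (h : ℝ) ^ m := by positivity
  have hVpos : 0 < V (primorial z) h := (Real.exp_pos _).trans_le hVexp2
  have hgpos : 0 < gapTail (primorial z) h := lt_of_lt_of_le (by positivity) hgt
  have hup1 : -Real.log (gapTail (primorial z) h) ≤ 2 * w0 + 1 + (1 + η) * (mu h w0 * lam) + (1 + m * Real.log h) := by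
    have h1 := Real.log_le_log (by positivity) hgt
    rw [Real.log_div hVpos.ne' (by positivity), Real.log_mul (by norm_num) hhm.ne', Real.log_pow] at h1
    have h2 : -(2 * (w0 : ℝ) + 1 + (1 + η) * (mu h w0 * lam)) ≤ Real.log (V (primorial z) h) := by
      rw [Real.le_log_iff_exp_le hVpos]
      exact hV1
    have h3 : Real.log 2 ≤ 1 := by
      have := Real.log_two_lt_d9
      linarith
    linarith
  -- upper bound for the probability
  have hVh1 : c / ((1 + θ) * Real.log (mg z) + Real.log κ) ≤ Pool.Agent.T2H32.BF.V (h - 1) := by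
    have h1 := hmer h ((range (h - 1 + 1)).filter Nat.Prime) hh2 fun p hp => by
      rw [mem_filter, mem_range] at hp
      exact ⟨hp.2, by omega⟩
    refine le_trans ?_ h1
    have h2 : 0 < Real.log h := Real.log_pos (by exact_mod_cast (show 1 < h by omega))
    gcongr
  have hden : 0 < (1 + θ) * Real.log (mg z) + Real.log κ :=
    lt_of_lt_of_le (Real.log_pos (by exact_mod_cast (show 1 < h by omega))) hz11
  have hVh0 := Pool.Agent.T2H32.BF.V_pos (h - 1)
  have hcondU : 4 * (Pool.Agent.T2H32.BF.V z / Pool.Agent.T2H32.BF.V (h - 1) * ((h - 1 : ℕ) : ℝ)) ≤ η * w1 := by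
    have h1 : ((h - 1 : ℕ) : ℝ) ≤ h := by exact_mod_cast Nat.sub_le _ _
    have h2 : 1 / Pool.Agent.T2H32.BF.V (h - 1) ≤ ((1 + θ) * Real.log (mg z) + Real.log κ) / c := by
      rw [div_le_div_iff₀ hVh0 hc]
      rw [div_le_iff₀ hden] at hVh1
      linarith
    have h3 : (h : ℝ) / mg z ≤ κ * mg z ^ θ := by
      rw [div_le_iff₀ hm]
      refine (hz_le' θ κ hκ z).trans (le_of_eq ?_)
      rw [Real.rpow_add hm, Real.rpow_one]
      ring
    calc 4 * (Pool.Agent.T2H32.BF.V z / Pool.Agent.T2H32.BF.V (h - 1) * ((h - 1 : ℕ) : ℝ))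
        ≤ 4 * (Pool.Agent.T2H32.BF.V z / Pool.Agent.T2H32.BF.V (h - 1) * h) := by
          have := Pool.Agent.T2H32.BF.V_pos z
          gcongr
      _ = 4 * (h / mg z) * (1 / Pool.Agent.T2H32.BF.V (h - 1)) := by
          rw [hVz]
          field_simp
      _ ≤ 4 * (κ * mg z ^ θ) * (((1 + θ) * Real.log (mg z) + Real.log κ) / c) := by gcongr
      _ ≤ η * (mg z ^ (θ + δ) / 2) := hz4
      _ ≤ η * w1 := by gcongr
  have hV2 := up_ext η hη0 hη1 z (h - 1) w1 hz10 hw1h ((Nat.sub_le _ _).trans hz5) hcondU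
  have hsm : (smin h w1 : ℝ) - 1 ≤ smin (h - 1) w1 := by
    have h1 := smin_succ (h - 1) w1
    rw [Nat.sub_add_cancel (by omega)] at h1
    have h2 : (smin h w1 : ℝ) ≤ smin (h - 1) w1 + 1 := by exact_mod_cast h1
    linarith
  have hVw1 := Pool.Agent.T2H32.BF.V_pos w1
  have hVzp := Pool.Agent.T2H32.BF.V_pos z
  have hratio1 : Pool.Agent.T2H32.BF.V z / Pool.Agent.T2H32.BF.V w1 ≤ 1 := by
    rw [div_le_one hVw1]
    exact Pool.Agent.T2H32.BF.V_anti (hw1h.trans ((Nat.sub_le _ _).trans hz5))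
  have hV3 : V (primorial z) (h - 1) ≤ Real.exp (-((1 - η) * (mu h w1 * lam - 1))) := by
    refine hV2.trans (Real.exp_le_exp.2 ?_)
    have h1 : mu h w1 * lam - 1 ≤ smin (h - 1) w1 * (Pool.Agent.T2H32.BF.V z / Pool.Agent.T2H32.BF.V w1) := by
      rw [← emu]
      have h2 : ((smin h w1 : ℝ) - 1) * (Pool.Agent.T2H32.BF.V z / Pool.Agent.T2H32.BF.V w1) ≤
        smin (h - 1) w1 * (Pool.Agent.T2H32.BF.V z / Pool.Agent.T2H32.BF.V w1) :=
        mul_le_mul_of_nonneg_right hsm (by positivity)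
      linarith
    have h2 := mul_le_mul_of_nonneg_left h1 (show 0 ≤ 1 - η by linarith)
    linarith
  have hg2 : gapTail (primorial z) h ≤ mg z * V (primorial z) (h - 1) := by
    have h1 := V_diff_ge (primorial z) (h - 1) 1 hq
    rw [Nat.sub_add_cancel (by omega)] at h1
    have e1 : ((primorial z).totient : ℝ) / primorial z = 1 / mg z := by
      unfold mg
      rw [one_div_div]
    rw [e1] at h1
    have h2 := V_nonneg (primorial z) h
    push_cast at h1
    have h3 : 1 / mg z * gapTail (primorial z) h ≤ V (primorial z) (h - 1) := by linarith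
    calc gapTail (primorial z) h = mg z * (1 / mg z * gapTail (primorial z) h) := by field_simp
      _ ≤ _ := mul_le_mul_of_nonneg_left h3 hm.le
  have hup2 : (1 - η) * (mu h w1 * lam - 1) - Real.log (mg z) ≤ -Real.log (gapTail (primorial z) h) := by
    have h1 : gapTail (primorial z) h ≤ Real.exp (Real.log (mg z) + -((1 - η) * (mu h w1 * lam - 1))) := by
      rw [Real.exp_add, Real.exp_log hm]
      exact hg2.trans (mul_le_mul_of_nonneg_left hV3 hm.le)
    have h2 := Real.log_le_log hgpos h1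
    rw [Real.log_exp] at h2
    linarith
  -- conclusion
  rw [Real.dist_eq, sub_zero, abs_lt]
  have hmu1 := mu_le_one h w1 (by omega)
  have hmu1' := mu_nonneg h w1
  obtain ⟨hn1, hn2⟩ := hn
  constructor
  · have h1 : mu h w - ε / 2 ≤ -Real.log (gapTail (primorial z) h) / lam := by
      rw [le_div_iff₀ hlam0]
      refine le_trans ?_ hup2
      have h2 : η * (mu h w1 * lam) ≤ η * lam := by
        refine mul_le_mul_of_nonneg_left ?_ hη0.le
        exact mul_le_of_le_one_left hlam0.le hmu1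
      have h3 : (mu h w - ε / 8) * lam ≤ mu h w1 * lam := mul_le_mul_of_nonneg_right (by linarith) hlam0.le
      have h4 : η * lam ≤ ε / 8 * lam := mul_le_mul_of_nonneg_right hηε hlam0.le
      have h5 : Real.log (mg z) + 1 ≤ η * lam := by linarith
      nlinarith
    linarith
  · have h1 : -Real.log (gapTail (primorial z) h) / lam ≤ mu h w + ε / 2 := by
      rw [div_le_iff₀ hlam0]
      refine hup1.trans ?_
      have h2 : η * (mu h w0 * lam) ≤ η * lam := by
        refine mul_le_mul_of_nonneg_left ?_ hη0.le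
        exact mul_le_of_le_one_left hlam0.le hmu0
      have h3 : mu h w0 * lam ≤ (mu h w + ε / 8) * lam := mul_le_mul_of_nonneg_right (by linarith) hlam0.le
      have h4 : η * lam ≤ ε / 8 * lam := mul_le_mul_of_nonneg_right hηε hlam0.le
      have h5 : 2 * (w0 : ℝ) + 2 + m * Real.log h ≤ η * lam := by linarith
      nlinarith
    linarith

end Pool.Agent.H11.Avg
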