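import Pool.Agent.H11.Lin
import Pool.Agent.H11.LowMain

set_option autoImplicit false

/-! # Stretched exponential tails -/

open Finset Filter Topology
open Pool.Agent.W23.DC (tt)

namespace Pool.Agent.H11.Avg

theorem tail0 (β : ℝ) (hβ0 : 0 < β) (hβ : β < 1 / 2) : ∃ c : ℝ, 0 < c ∧ c ≤ 1 ∧ ∃ K : ℕ, ∀ q h : ℕ, q ≠ 0 → K ≤ h →
    V q h ≤ Real.exp (-(c * min (h * ((q.totient : ℝ) / q)) ((h : ℝ) ^ β))) := by
  set ζ := max (1 / 4) ((β + 1 / 2) / 2) with hζd
  have hζ4 : 1 / 4 ≤ ζ := le_max_left _ _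
  have hζ1 : ζ < 1 / 2 := max_lt (by norm_num) (by linarith)
  have hβζ : β < ζ := lt_of_lt_of_le (by linarith) (le_max_right _ _)
  obtain ⟨c0, hc0, h0, hlin⟩ := Pool.Agent.H11.Lin.linear ζ hζ4 hζ1
  obtain ⟨c1, hc1, hmer⟩ := mertens_low
  -- `h ^ β ≤ (c0 / 32) h ^ ζ c1 / log h`
  have hbig : ∀ᶠ h : ℕ in atTop, (h : ℝ) ^ β ≤ c0 / 32 * (h : ℝ) ^ ζ * (c1 / Real.log h) := by
    have h1 : Tendsto (fun y : ℝ => Real.log y / y ^ (ζ - β)) atTop (𝓝 0) :=
      (isLittleO_log_rpow_atTop (by linarith)).tendsto_div_nhds_zero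
    have h2 := (h1.comp tendsto_natCast_atTop_atTop (α := ℕ)).eventually_le_const
      (show (0 : ℝ) < c0 / 32 * c1 by positivity)
    filter_upwards [h2, eventually_ge_atTop 2] with h h3 h4
    have hhR : (2 : ℝ) ≤ h := by exact_mod_cast h4
    have hlog : 0 < Real.log h := Real.log_pos (by linarith)
    simp only [Function.comp_apply] at h3
    have hp : 0 < (h : ℝ) ^ (ζ - β) := by positivity
    rw [div_le_iff₀ hp] at h3
    rw [← mul_div_assoc, le_div_iff₀ hlog]
    have e : (h : ℝ) ^ ζ = (h : ℝ) ^ (ζ - β) * (h : ℝ) ^ β := by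
      rw [← Real.rpow_add (by linarith)]
      congr 1
      ring
    rw [e]
    calc (h : ℝ) ^ β * Real.log h ≤ (h : ℝ) ^ β * (c0 / 32 * c1 * (h : ℝ) ^ (ζ - β)) := by gcongr
      _ = _ := by ring
  have hW4 : ∀ᶠ h : ℕ in atTop, (4 : ℝ) ≤ (h : ℝ) ^ ζ :=
    ((tendsto_rpow_atTop (by linarith)).comp tendsto_natCast_atTop_atTop).eventually_ge_atTop 4
  obtain ⟨K1, hK1⟩ := eventually_atTop.1 (hbig.and (hW4.and (eventually_ge_atTop 3)))
  refine ⟨min (c0 / 2) 1, lt_min (by positivity) one_pos, min_le_right _ _, max h0 K1, ?_⟩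
  intro q h hq hh
  obtain ⟨hb1, hb2, hb3⟩ := hK1 h ((le_max_right _ _).trans hh)
  have hh0 : h0 ≤ h := (le_max_left _ _).trans hh
  set lam := (h : ℝ) * ((q.totient : ℝ) / q) with hlamdef
  have hlam0 : 0 ≤ lam := by positivity
  have hhR : (3 : ℝ) ≤ h := by exact_mod_cast hb3
  have hhpos : (0 : ℝ) < h := by linarith
  have hlogh : 0 < Real.log h := Real.log_pos (by linarith)
  set W := (h : ℝ) ^ ζ with hW
  have hW0 : 0 < W := by positivity
  -- the sets of primes
  set P := q.primeFactors with hP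
  have hPp : ∀ p ∈ P, p.Prime := fun p hp => Nat.prime_of_mem_primeFactors hp
  classical
  set PH := P.filter (fun p => h < p) with hPH
  set PX := P.filter (fun p => ¬ h < p) with hPX
  set PM := PX.filter (fun p => ¬ tt h p < ζ) with hPM
  set PL := PX.filter (fun p => tt h p < ζ) with hPL
  have hPHp : ∀ p ∈ PH, p.Prime := fun p hp => hPp p (mem_filter.1 hp).1
  have hPXp : ∀ p ∈ PX, p.Prime := fun p hp => hPp p (mem_filter.1 hp).1
  have hPMp : ∀ p ∈ PM, p.Prime := fun p hp => hPXp p (mem_filter.1 hp).1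
  have hPLp : ∀ p ∈ PL, p.Prime := fun p hp => hPXp p (mem_filter.1 hp).1
  have hPXeq : PM ∪ PL = PX := by
    rw [union_comm]
    exact filter_union_filter_not_eq _ _
  have hPeq : PH ∪ PX = P := filter_union_filter_not_eq _ _
  have hd1 : Disjoint PH PX := disjoint_filter_filter_not _ _ _
  have hd2 : Disjoint PM PL := (disjoint_filter_filter_not _ _ _).symm
  set ρ := ∏ p ∈ PH, (1 - 1 / (p : ℝ)) with hρ
  set PiM := ∏ p ∈ PM, (1 - 1 / (p : ℝ)) with hPiM
  set PiL := ∏ p ∈ PL, (1 - 1 / (p : ℝ)) with hPiL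
  have hρ0 : 0 < ρ := prod_pos' _ hPHp
  have hρ1 : ρ ≤ 1 := prod_le_one (fun p hp => by linarith [half_prime p (hPHp p hp)])
    fun p _ => by
      have : 0 ≤ 1 / (p : ℝ) := by positivity
      linarith
  have hPiM0 : 0 < PiM := prod_pos' _ hPMp
  have hPiL0 : 0 < PiL := prod_pos' _ hPLp
  have hprod : (q.totient : ℝ) / q = ρ * (PiM * PiL) := by
    rw [totient_prod q hq, ← hP, ← hPeq, prod_union hd1, ← hPXeq, prod_union hd2]
  have hlam2 : lam = h * ρ * (PiM * PiL) := by rw [hlamdef, hprod]; ring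
  have hML : c1 / Real.log h ≤ PiM * PiL := by
    have h1 := hmer h PX (by omega) (fun p hp => ⟨hPXp p hp, by have := (mem_filter.1 hp).2; omega⟩)
    rwa [← hPXeq, prod_union hd2] at h1
  have hpW : ∀ p ∈ PM, W ≤ p := by
    intro p hp
    have h1 := (mem_filter.1 hp).2
    unfold tt at h1
    rw [not_lt, le_div_iff₀ hlogh] at h1
    have hp0 : (0 : ℝ) < p := by exact_mod_cast (hPMp p hp).pos
    rw [hW, Real.rpow_def_of_pos hhpos, ← Real.exp_log hp0]
    apply Real.exp_le_exp.2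
    rw [mul_comm]
    exact h1
  set θ := min ρ (W / (16 * h)) with hθ
  have hθ0 : 0 < θ := lt_min hρ0 (by positivity)
  have hθρ : θ ≤ ρ := min_le_left _ _
  have hκw : 16 * (θ * h) ≤ W := by
    have h1 : θ ≤ W / (16 * h) := min_le_right _ _
    calc 16 * (θ * h) ≤ 16 * (W / (16 * h) * h) := by gcongr
      _ = W := by field_simp
  -- first step: the primes above `h`
  have step1 : V q h ≤ av PX (fun m => Real.exp (-θ * (sv 1 PX (Icc 1 h) m).card)) := by
    rw [V_eq_av q h hq, ← hP, ← hPeq]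
    have h1 := up_many 1 PX (Icc 1 h) PH hPHp hPXp hd1 (fun p _ => Nat.coprime_one_left p)
      (fun p hp a ha b' hb' hab => by
        have h2 := (mem_filter.1 hp).2
        rw [mem_Icc] at ha hb'
        rwa [Nat.mod_eq_of_lt (by omega), Nat.mod_eq_of_lt (by omega)] at hab) 1 zero_le_one le_rfl
    rw [sub_self] at h1
    refine h1.trans (av_mono _ _ _ fun m => ?_)
    rw [one_mul, ← hρ]
    have h2 : 1 - ρ ≤ Real.exp (-θ) := by linarith [Real.add_one_le_exp (-θ)]
    calc (1 - ρ) ^ (sv 1 PX (Icc 1 h) m).card ≤ (Real.exp (-θ)) ^ (sv 1 PX (Icc 1 h) m).card :=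
          pow_le_pow_left₀ (by linarith) h2 _
      _ = _ := by
        rw [← Real.exp_nat_mul]
        congr 1
        ring
  -- second step: the middle primes
  have hM1 : ∀ p ∈ PM, θ * (2 * h / p) ≤ 1 := by
    intro p hp
    have hp0 := hpW p hp
    have hp1 : (0 : ℝ) < p := by linarith
    rw [mul_div_assoc', div_le_one hp1]
    nlinarith
  have step2 : av PX (fun m => Real.exp (-θ * (sv 1 PX (Icc 1 h) m).card)) ≤
      av PL (fun m => Real.exp (-(θ * ∏ p ∈ PM, (1 - (1 + θ * (2 * h / p)) / p)) *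
        (sv 1 PL (Icc 1 h) m).card)) := by
    have h1 := up_exp_many 1 PL (Icc 1 h) PM hPMp hPLp hd2 (fun p _ => Nat.coprime_one_left p)
      (fun p => 2 * h / p) (fun p _ => by positivity) (fun p hp r => by
        have hp1 := (hPMp p hp).pos
        refine (card_class_le h p r hp1).trans ?_
        have hp0 : (0 : ℝ) < p := by exact_mod_cast hp1
        have h2 : (p : ℝ) ≤ h := by
          have := (mem_filter.1 (mem_filter.1 hp).1).2
          exact_mod_cast (not_lt.1 this)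
        have h3 : 1 ≤ (h : ℝ) / p := by rw [one_le_div hp0]; exact h2
        have h4 : 2 * (h : ℝ) / p = h / p + h / p := by ring
        rw [h4]
        linarith) θ hM1 θ hθ0.le le_rfl
    rw [hPXeq] at h1
    exact h1
  have hsq : ∀ p ∈ PM, 4 * (θ * h) / (p : ℝ) ^ 2 ≤ 1 := by
    intro p hp
    have hp0 := hpW p hp
    have hp1 : (1 : ℝ) ≤ p := by exact_mod_cast (hPMp p hp).one_le
    rw [div_le_one (by positivity)]
    nlinarith
  -- the product over the middle primes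
  have hmid : 1 / 2 * PiM ≤ ∏ p ∈ PM, (1 - (1 + θ * (2 * h / p)) / p) := by
    have h1 : PiM * ∏ p ∈ PM, (1 - 4 * (θ * h) / (p : ℝ) ^ 2) ≤ ∏ p ∈ PM, (1 - (1 + θ * (2 * h / p)) / p) := by
      rw [hPiM, ← prod_mul_distrib]
      refine prod_le_prod (fun p hp => ?_) fun p hp => ?_
      · have h2 : 0 ≤ 1 - 1 / (p : ℝ) := by linarith [half_prime p (hPMp p hp)]
        refine mul_nonneg h2 ?_
        linarith [hsq p hp]
      · have h2 := half_prime p (hPMp p hp)
        have hp1 : (0 : ℝ) < p := by exact_mod_cast (hPMp p hp).pos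
        have e1 : (1 - (1 + θ * (2 * h / p)) / p) = 1 - 1 / (p : ℝ) - 2 * (θ * h) / (p : ℝ) ^ 2 := by
          field_simp
          ring
        have e2 : (1 - 1 / (p : ℝ)) * (1 - 4 * (θ * h) / (p : ℝ) ^ 2) =
          1 - 1 / (p : ℝ) - (1 - 1 / (p : ℝ)) * (4 * (θ * h) / (p : ℝ) ^ 2) := by ring
        rw [e1, e2]
        have h3 : 0 ≤ 4 * (θ * h) / (p : ℝ) ^ 2 := by positivity
        have h4 : 1 / 2 * (4 * (θ * h) / (p : ℝ) ^ 2) ≤ (1 - 1 / (p : ℝ)) * (4 * (θ * h) / (p : ℝ) ^ 2) :=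
          mul_le_mul_of_nonneg_right (by linarith) h3
        have e3 : 1 / 2 * (4 * (θ * h) / (p : ℝ) ^ 2) = 2 * (θ * h) / (p : ℝ) ^ 2 := by ring
        linarith
    refine le_trans ?_ h1
    rw [mul_comm]
    refine mul_le_mul_of_nonneg_left ?_ hPiM0.le
    refine le_trans ?_ (prod_one_sub PM _ (fun p _ => by positivity) hsq)
    have h2 : ∑ p ∈ PM, 4 * (θ * h) / (p : ℝ) ^ 2 = 4 * (θ * h) * ∑ p ∈ PM, ((p : ℝ) ^ 2)⁻¹ := by
      rw [mul_sum]
      rfl
    rw [h2]
    set B := ⌈W⌉₊ - 1 with hB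
    have hceil : W ≤ ⌈W⌉₊ := Nat.le_ceil W
    have hceil4 : 4 ≤ ⌈W⌉₊ := by
      have : (4 : ℝ) ≤ ⌈W⌉₊ := hb2.trans hceil
      exact_mod_cast this
    have hBR : (B : ℝ) = ⌈W⌉₊ - 1 := by
      rw [hB, Nat.cast_sub (by omega)]
      simp
    have hB2 : W / 2 ≤ B := by rw [hBR]; linarith
    have h3 := sum_sq_le PM B (by omega) (fun n hn => by
      have h5 : ⌈W⌉₊ ≤ n := Nat.ceil_le.2 (hpW n hn)
      omega)
    have h4 : 4 * (θ * h) * ∑ p ∈ PM, ((p : ℝ) ^ 2)⁻¹ ≤ 4 * (θ * h) * (B : ℝ)⁻¹ :=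
      mul_le_mul_of_nonneg_left h3 (by positivity)
    have h5 : 4 * (θ * h) * (B : ℝ)⁻¹ ≤ W / 4 * (W / 2)⁻¹ := by
      have h6 : (B : ℝ)⁻¹ ≤ (W / 2)⁻¹ := inv_anti₀ (by positivity) hB2
      exact mul_le_mul (by linarith) h6 (by positivity) (by positivity)
    have h6 : W / 4 * (W / 2)⁻¹ = 1 / 2 := by field_simp; norm_num
    linarith
  -- third step: the small primes
  have hcount : ∀ m, c0 * (h * PiL) ≤ ((sv 1 PL (Icc 1 h) m).card : ℝ) := by
    intro m
    have h1 := hlin h hh0 PL (fun p hp => ⟨hPLp p hp, by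
      have := (mem_filter.1 (mem_filter.1 hp).1).2
      omega, (mem_filter.1 hp).2⟩) m
    refine h1.trans (le_of_eq ?_)
    norm_cast
    refine (card_bij (fun a _ => m + a) ?_ ?_ ?_).symm
    · intro a ha
      unfold sv at ha
      rw [mem_filter, mem_Icc, one_mul] at ha
      rw [mem_filter, mem_Ioc]
      exact ⟨by omega, ha.2⟩
    · intro a _ a' _ h4
      omega
    · intro n hn
      rw [mem_filter, mem_Ioc] at hn
      refine ⟨n - m, ?_, by omega⟩
      unfold sv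
      rw [mem_filter, mem_Icc, one_mul]
      have : m + (n - m) = n := by omega
      rw [this]
      exact ⟨by omega, hn.2⟩
  refine step1.trans (step2.trans (le_trans (av_mono PL _ (fun _ => Real.exp (-(min (c0 / 2) 1 * min lam ((h : ℝ) ^ β)))) fun m => ?_)
      (le_of_eq (av_const PL hPLp _))))
  apply Real.exp_le_exp.2
  rw [neg_mul, neg_le_neg_iff]
  have h1 : θ * (1 / 2 * PiM) ≤ θ * ∏ p ∈ PM, (1 - (1 + θ * (2 * h / p)) / p) :=
    mul_le_mul_of_nonneg_left hmid hθ0.le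
  have h2 := hcount m
  have h3 : 0 ≤ θ * (1 / 2 * PiM) := by positivity
  have h4 : θ * (1 / 2 * PiM) * (c0 * (h * PiL)) ≤
      (θ * ∏ p ∈ PM, (1 - (1 + θ * (2 * h / p)) / p)) * (sv 1 PL (Icc 1 h) m).card :=
    mul_le_mul h1 h2 (by positivity) (h3.trans h1)
  refine le_trans ?_ h4
  have e : θ * (1 / 2 * PiM) * (c0 * (h * PiL)) = c0 / 2 * (θ * h * (PiM * PiL)) := by ring
  rw [e]
  have hmin0 : 0 ≤ min lam ((h : ℝ) ^ β) := le_min hlam0 (by positivity)
  rcases min_choice ρ (W / (16 * h)) with h5 | h5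
  · have e2 : θ * h * (PiM * PiL) = lam := by rw [hθ, h5, hlam2]; ring
    rw [e2]
    exact mul_le_mul (min_le_left _ _) (min_le_left _ _) hmin0 (by positivity)
  · have e3 : θ * h = W / 16 := by rw [hθ, h5]; field_simp
    rw [e3]
    have h6 : c0 / 2 * (W / 16 * (c1 / Real.log h)) ≤ c0 / 2 * (W / 16 * (PiM * PiL)) := by gcongr
    have h7 : min (c0 / 2) 1 * min lam ((h : ℝ) ^ β) ≤ 1 * (h : ℝ) ^ β :=
      mul_le_mul (min_le_right _ _) (min_le_right _ _) hmin0 zero_le_one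
    linarith

/-- **Stretched exponential tail** for the gaps -/
theorem tail (β : ℝ) (hβ0 : 0 < β) (hβ : β < 1 / 2) : ∃ c C : ℝ, 0 < c ∧ 0 < C ∧ ∀ q h : ℕ, q ≠ 0 →
    gapTail q h ≤ C * Real.exp (-(c * min (h * ((q.totient : ℝ) / q)) ((h : ℝ) ^ β))) := by
  obtain ⟨c, hc, hc1, K, hK⟩ := tail0 β hβ0 hβ
  set M : ℝ := 2 * K + 4 with hM
  refine ⟨c / 2, Real.exp M, by positivity, Real.exp_pos _, ?_⟩
  intro q h hq
  have hqR : (0 : ℝ) < q := by exact_mod_cast Nat.pos_of_ne_zero hq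
  have hφ : (0 : ℝ) < q.totient := by exact_mod_cast Nat.totient_pos.2 (Nat.pos_of_ne_zero hq)
  set r := (q.totient : ℝ) / q with hr
  have hr0 : 0 < r := by positivity
  have hr1 : r ≤ 1 := by
    rw [hr, div_le_one hqR]
    exact_mod_cast Nat.totient_le q
  have hle1 : gapTail q h ≤ 1 := by
    unfold gapTail
    rw [div_le_one hφ]
    norm_cast
    unfold Nat.totient
    refine card_le_card fun a ha => ?_
    rw [mem_filter] at ha ⊢
    exact ⟨ha.1, ha.2.1.symm⟩
  have hK0 : (0 : ℝ) ≤ K := Nat.cast_nonneg _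
  rcases le_or_gt (h * r) M with hcase | hcase
  · -- trivial case
    have h1 : 0 ≤ M + -(c / 2 * min (h * r) ((h : ℝ) ^ β)) := by
      have h2 : min (h * r) ((h : ℝ) ^ β) ≤ M := (min_le_left _ _).trans hcase
      have h3 : c / 2 * min (h * r) ((h : ℝ) ^ β) ≤ 1 * M := by
        refine mul_le_mul (by linarith) h2 (le_min (by positivity) (by positivity)) zero_le_one
      linarith
    rw [← Real.exp_add]
    exact hle1.trans (Real.one_le_exp h1)
  · have hhM : M < h := lt_of_lt_of_le hcase (mul_le_of_le_one_right (Nat.cast_nonneg _) hr1)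
    set k := h / 2 with hk
    have hk1 : (h : ℝ) / 2 - 1 / 2 ≤ k := by
      have h1 : h ≤ 2 * k + 1 := by omega
      have h2 : (h : ℝ) ≤ 2 * k + 1 := by exact_mod_cast h1
      linarith
    have hk2 : (k : ℝ) ≤ h / 2 := by
      have h1 : 2 * k ≤ h := by omega
      have h2 : 2 * (k : ℝ) ≤ h := by exact_mod_cast h1
      linarith
    have hkh : k ≤ h := by omega
    have h1 := V_diff_ge q (h - k) k hq
    rw [Nat.sub_add_cancel hkh, ← hr] at h1
    have h2 : 1 ≤ k * r := by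
      have h3 : ((h : ℝ) / 2 - 1 / 2) * r ≤ k * r := mul_le_mul_of_nonneg_right hk1 hr0.le
      have h4 : ((h : ℝ) / 2 - 1 / 2) * r = h * r / 2 - r / 2 := by ring
      linarith
    have h3 : gapTail q h ≤ V q (h - k) := by
      have h5 : 1 * gapTail q h ≤ k * r * gapTail q h := mul_le_mul_of_nonneg_right h2 (gapTail_nonneg _ _)
      have h6 := V_nonneg q h
      linarith
    have hcast : ((h - k : ℕ) : ℝ) = h - k := Nat.cast_sub hkh
    have h4 := hK q (h - k) hq (by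
      have : (K : ℝ) ≤ ((h - k : ℕ) : ℝ) := by rw [hcast]; linarith
      exact_mod_cast this)
    rw [hcast, ← hr] at h4
    refine h3.trans (h4.trans ?_)
    have h5 : 1 / 2 * min (h * r) ((h : ℝ) ^ β) ≤ min (((h : ℝ) - k) * r) (((h : ℝ) - k) ^ β) := by
      refine le_min ?_ ?_
      · have h6 : (h : ℝ) / 2 * r ≤ ((h : ℝ) - k) * r := mul_le_mul_of_nonneg_right (by linarith) hr0.le
        have h7 := min_le_left ((h : ℝ) * r) ((h : ℝ) ^ β)
        linarith
      · have h6 : ((h : ℝ) / 2) ^ β ≤ ((h : ℝ) - k) ^ β := Real.rpow_le_rpow (by positivity) (by linarith) hβ0.le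
        have h7 : 1 / 2 * (h : ℝ) ^ β ≤ ((h : ℝ) / 2) ^ β := by
          have e0 : (h : ℝ) / 2 = h * (1 / 2) := by ring
          rw [e0, Real.mul_rpow (Nat.cast_nonneg _) (by norm_num), mul_comm]
          refine mul_le_mul_of_nonneg_left ?_ (by positivity)
          calc (1 / 2 : ℝ) = (1 / 2 : ℝ) ^ (1 : ℝ) := (Real.rpow_one _).symm
            _ ≤ (1 / 2 : ℝ) ^ β := Real.rpow_le_rpow_of_exponent_ge (by norm_num) (by norm_num) (by linarith)
        have h8 := min_le_right ((h : ℝ) * r) ((h : ℝ) ^ β)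
        linarith
    have h6 : Real.exp (-(c * min (((h : ℝ) - k) * r) (((h : ℝ) - k) ^ β))) ≤
        Real.exp (-(c / 2 * min (h * r) ((h : ℝ) ^ β))) := by
      apply Real.exp_le_exp.2
      have := mul_le_mul_of_nonneg_left h5 hc.le
      linarith
    have h7 : (1 : ℝ) ≤ Real.exp M := Real.one_le_exp (by positivity)
    refine h6.trans ?_
    exact le_mul_of_one_le_left (Real.exp_pos _).le h7

end Pool.Agent.H11.Avg
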